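import Pool.Agent.Helper524.GL.Ent

set_option autoImplicit false
open Finset

namespace GoLo

open Classical in
/-- distribution function (mass strictly below) -/
noncomputable def cdf {Ω : Type} [Fintype Ω] (μ : Ω → ℝ) (W : Ω → ℕ) (ω : Ω) : ℝ :=
  ∑ ω', if W ω' < W ω then μ ω' else 0

/-- level-`k` binary digit cell of the distribution function -/
noncomputable def dig {Ω : Type} [Fintype Ω] (μ : Ω → ℝ) (W : Ω → ℕ) (k : ℕ) (ω : Ω) : ℕ :=
  ⌊(2:ℝ)^k * cdf μ W ω⌋₊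

lemma cdf_nonneg {Ω : Type} [Fintype Ω] {μ : Ω → ℝ} (hμ : ∀ ω, 0 < μ ω) (W : Ω → ℕ) (ω : Ω) :
    0 ≤ cdf μ W ω := by
  classical
  unfold cdf
  refine Finset.sum_nonneg fun ω' _ => ?_
  split_ifs
  · exact (hμ _).le
  · exact le_rfl

lemma cdf_lt_one {Ω : Type} [Fintype Ω] {μ : Ω → ℝ} (hμ : ∀ ω, 0 < μ ω) (h1 : ∑ ω, μ ω = 1)
    (W : Ω → ℕ) (ω : Ω) : cdf μ W ω < 1 := by
  classical
  rw [← h1]
  unfold cdf
  refine Finset.sum_lt_sum (fun ω' _ => ?_) ⟨ω, Finset.mem_univ _, ?_⟩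
  · split_ifs
    · exact le_rfl
    · exact (hμ _).le
  · rw [if_neg (lt_irrefl _)]
    exact hμ ω

lemma cdf_mono {Ω : Type} [Fintype Ω] {μ : Ω → ℝ} (hμ : ∀ ω, 0 < μ ω)
    (W : Ω → ℕ) (ω ω' : Ω) (h : W ω ≤ W ω') : cdf μ W ω ≤ cdf μ W ω' := by
  classical
  unfold cdf
  refine Finset.sum_le_sum fun x _ => ?_
  by_cases h1 : W x < W ω
  · rw [if_pos h1, if_pos (lt_of_lt_of_le h1 h)]
  · rw [if_neg h1]
    split_ifs
    · exact (hμ _).le
    · exact le_rfl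

theorem dig_lt {Ω : Type} [Fintype Ω] {μ : Ω → ℝ} (hμ : ∀ ω, 0 < μ ω) (h1 : ∑ ω, μ ω = 1)
    (W : Ω → ℕ) (k : ℕ) (ω : Ω) : dig μ W k ω < 2^k := by
  unfold dig
  rw [Nat.floor_lt (mul_nonneg (by positivity) (cdf_nonneg hμ W ω))]
  push_cast
  have := cdf_lt_one hμ h1 W ω
  have h2 : (0:ℝ) < 2 ^ k := by positivity
  nlinarith

theorem dig_mono {Ω : Type} [Fintype Ω] {μ : Ω → ℝ} (hμ : ∀ ω, 0 < μ ω)
    (W : Ω → ℕ) (k : ℕ) (ω ω' : Ω) (h : W ω ≤ W ω') : dig μ W k ω ≤ dig μ W k ω' := by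
  unfold dig
  exact Nat.floor_mono (mul_le_mul_of_nonneg_left (cdf_mono hμ W ω ω' h) (by positivity))

theorem dig_pre {Ω : Type} [Fintype Ω] (μ : Ω → ℝ)
    (W : Ω → ℕ) (k v : ℕ) (ω : Ω) : dig μ W (k+v) ω / 2^v = dig μ W k ω := by
  unfold dig
  have h := Nat.floor_div_natCast ((2:ℝ) ^ (k + v) * cdf μ W ω) (2 ^ v)
  rw [← h]
  congr 1
  push_cast
  rw [pow_add]
  field_simp

theorem dig_mass {Ω : Type} [Fintype Ω] {μ : Ω → ℝ} (hμ : ∀ ω, 0 < μ ω)
    (W : Ω → ℕ) (τ : ℝ) (hτ : ∀ ω, pm μ W ω ≤ τ) (k : ℕ) (ω : Ω) :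
    pm μ (dig μ W k) ω ≤ 1 / 2^k + τ := by
  classical
  set j := dig μ W k ω with hj
  have hne : (Finset.univ.filter (fun ω' => dig μ W k ω' = j)).Nonempty := ⟨ω, by simp [hj]⟩
  obtain ⟨a, ha, hamax⟩ := Finset.exists_max_image _ W hne
  obtain ⟨b, hb, hbmin⟩ := Finset.exists_min_image _ W hne
  have ha' : dig μ W k a = j := (Finset.mem_filter.1 ha).2
  have hb' : dig μ W k b = j := (Finset.mem_filter.1 hb).2
  have hpt : pm μ (dig μ W k) ω + cdf μ W b ≤ cdf μ W a + pm μ W a := by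
    unfold pm cdf
    rw [← Finset.sum_add_distrib, ← Finset.sum_add_distrib]
    refine Finset.sum_le_sum fun x _ => ?_
    have hx := (hμ x).le
    by_cases h1 : dig μ W k x = j
    · have hxm : x ∈ Finset.univ.filter (fun ω' => dig μ W k ω' = j) := by simp [h1]
      have h2 := hamax x hxm
      have h3 := hbmin x hxm
      rw [if_pos h1, if_neg (not_lt.2 h3)]
      rcases h2.lt_or_eq with h4 | h4
      · rw [if_pos h4, if_neg h4.ne]
      · rw [if_neg (by rw [h4]; exact lt_irrefl _), if_pos h4]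
        linarith
    · rw [if_neg h1]
      by_cases h2 : W x < W b
      · have h3 : W x < W a := lt_of_lt_of_le h2 (hbmin a ha)
        rw [if_pos h2, if_pos h3, if_neg h3.ne]
        linarith
      · rw [if_neg h2]
        split_ifs <;> linarith
  have h2k : (0:ℝ) < 2 ^ k := by positivity
  have e1 : (2:ℝ) ^ k * cdf μ W a < j + 1 := by
    have := Nat.lt_floor_add_one ((2:ℝ) ^ k * cdf μ W a)
    have h' : (⌊(2:ℝ) ^ k * cdf μ W a⌋₊ : ℕ) = j := ha'
    rw [h'] at this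
    exact this
  have e2 : (j : ℝ) ≤ (2:ℝ) ^ k * cdf μ W b := by
    have := Nat.floor_le (mul_nonneg h2k.le (cdf_nonneg hμ W b))
    have h' : (⌊(2:ℝ) ^ k * cdf μ W b⌋₊ : ℕ) = j := hb'
    rw [h'] at this
    exact this
  have e3 : cdf μ W a - cdf μ W b ≤ 1 / 2 ^ k := by
    rw [le_div_iff₀ h2k]
    nlinarith
  have := hτ a
  linarith

theorem dig_entropy {Ω : Type} [Fintype Ω] {μ : Ω → ℝ} (hμ : ∀ ω, 0 < μ ω) (h1 : ∑ ω, μ ω = 1)
    (W : Ω → ℕ) (τ : ℝ) (hτ : ∀ ω, pm μ W ω ≤ τ) (k : ℕ) :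
    k * Real.log 2 - 2^k * τ ≤ H μ (dig μ W k) := by
  have h2k : (0:ℝ) < 2 ^ k := by positivity
  unfold H
  have hc : k * Real.log 2 - 2^k * τ = ∑ ω, μ ω * (k * Real.log 2 - 2^k * τ) := by
    rw [← Finset.sum_mul, h1, one_mul]
  rw [hc]
  refine Finset.sum_le_sum fun ω _ => mul_le_mul_of_nonneg_left ?_ (hμ ω).le
  have hp := pm_pos hμ (dig μ W k) ω
  have hm := dig_mass hμ W τ hτ k ω
  have hτ0 : 0 < τ := lt_of_lt_of_le (pm_pos hμ W ω) (hτ ω)
  have hl := Real.log_le_log hp hm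
  have e : (1:ℝ) / 2 ^ k + τ = (1 + 2 ^ k * τ) / 2 ^ k := by field_simp
  rw [e, Real.log_div (by positivity) h2k.ne', Real.log_pow] at hl
  have := Real.log_le_sub_one_of_pos (show (0:ℝ) < 1 + 2 ^ k * τ by positivity)
  linarith

/-- staircase bound -/
theorem staircase {Ω : Type} [Fintype Ω] {μ : Ω → ℝ} (hμ : ∀ ω, 0 < μ ω) (h1 : ∑ ω, μ ω = 1)
    (X Y Z : Ω → ℕ) (hmono : ∀ ω ω', X ω = X ω' → Y ω < Y ω' → Z ω < Z ω')
    (DY DZ : Ω → ℕ) (k : ℕ) (hDY : ∀ ω, DY ω < 2^k) (hDZ : ∀ ω, DZ ω < 2^k)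
    (mY : ∀ ω ω', Y ω ≤ Y ω' → DY ω ≤ DY ω') (mZ : ∀ ω ω', Z ω ≤ Z ω' → DZ ω ≤ DZ ω')
    (hZ : ∀ ω ω', X ω = X ω' → Y ω = Y ω' → Z ω = Z ω') :
    H μ (fun ω => ((DY ω, DZ ω), X ω)) - H μ X ≤ (k+1) * Real.log 2 := by
  classical
  have h := condH_le_log hμ h1 (fun ω => (DY ω, DZ ω)) X (2 ^ (k + 1)) (by positivity) (by
    intro ω0
    refine ⟨(Finset.univ.filter (fun ω => X ω = X ω0)).image (fun ω => (DY ω, DZ ω)), ?_, ?_⟩
    · have hmaps : ∀ p ∈ (Finset.univ.filter (fun ω => X ω = X ω0)).image (fun ω => (DY ω, DZ ω)),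
          (fun p : ℕ × ℕ => p.1 + p.2) p ∈ Finset.range (2 ^ (k + 1)) := by
        intro p hp
        obtain ⟨ω, _, rfl⟩ := Finset.mem_image.1 hp
        have a1 := hDY ω
        have a2 := hDZ ω
        show DY ω + DZ ω ∈ Finset.range (2 ^ (k + 1))
        rw [Finset.mem_range, pow_succ]
        omega
      have hinj : Set.InjOn (fun p : ℕ × ℕ => p.1 + p.2)
          ((Finset.univ.filter (fun ω => X ω = X ω0)).image (fun ω => (DY ω, DZ ω)) : Finset (ℕ × ℕ)) := by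
        intro p hp q hq hpq
        obtain ⟨ω, hω, rfl⟩ := Finset.mem_image.1 (Finset.mem_coe.1 hp)
        obtain ⟨ω', hω', rfl⟩ := Finset.mem_image.1 (Finset.mem_coe.1 hq)
        have hX : X ω = X ω' := ((Finset.mem_filter.1 hω).2).trans ((Finset.mem_filter.1 hω').2).symm
        have hs : DY ω + DZ ω = DY ω' + DZ ω' := hpq
        rcases lt_trichotomy (Y ω) (Y ω') with h1 | h1 | h1
        · have h2 := hmono ω ω' hX h1
          have h3 := mY ω ω' h1.le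
          have h4 := mZ ω ω' h2.le
          ext
          · show DY ω = DY ω'; omega
          · show DZ ω = DZ ω'; omega
        · have h2 := hZ ω ω' hX h1
          have h3 := mY ω ω' h1.le
          have h3' := mY ω' ω h1.ge
          have h4 := mZ ω ω' h2.le
          have h4' := mZ ω' ω h2.ge
          ext
          · show DY ω = DY ω'; omega
          · show DZ ω = DZ ω'; omega
        · have h2 := hmono ω' ω hX.symm h1
          have h3 := mY ω' ω h1.le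
          have h4 := mZ ω' ω h2.le
          ext
          · show DY ω = DY ω'; omega
          · show DZ ω = DZ ω'; omega
      have := Finset.card_le_card_of_injOn _ hmaps hinj
      rwa [Finset.card_range] at this
    · intro ω hω
      exact Finset.mem_image.2 ⟨ω, Finset.mem_filter.2 ⟨Finset.mem_univ _, hω⟩, rfl⟩)
  refine h.trans (le_of_eq ?_)
  push_cast
  rw [Real.log_pow]
  push_cast
  ring

end GoLo
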