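import Mathlib

set_option autoImplicit false
open Finset

namespace GoLo

variable {Ω : Type*} [Fintype Ω] {α β γ : Type*}

open Classical in
/-- mass of the class of `ω` under `f`: `P(f = f ω)`. -/
noncomputable def pm (μ : Ω → ℝ) (f : Ω → α) (ω : Ω) : ℝ :=
  ∑ ω', if f ω' = f ω then μ ω' else 0

/-- Shannon entropy of the random variable `f` under `μ`. -/
noncomputable def H (μ : Ω → ℝ) (f : Ω → α) : ℝ :=
  ∑ ω, μ ω * (- Real.log (pm μ f ω))

/-- `f` determines `g`. -/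
def Det (f : Ω → α) (g : Ω → β) : Prop := ∀ ω ω', f ω = f ω' → g ω = g ω'

section basic
variable {μ : Ω → ℝ}

lemma pm_congr' {f : Ω → α} {g : Ω → β} {ω : Ω} (h : ∀ ω', f ω' = f ω ↔ g ω' = g ω) :
    pm μ f ω = pm μ g ω := by
  unfold pm
  refine Finset.sum_congr rfl fun ω' _ => ?_
  by_cases h1 : f ω' = f ω
  · rw [if_pos h1, if_pos ((h ω').1 h1)]
  · rw [if_neg h1, if_neg (fun h2 => h1 ((h ω').2 h2))]

lemma H_congr {f : Ω → α} {g : Ω → β} (h1 : Det f g) (h2 : Det g f) : H μ f = H μ g := by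
  unfold H
  refine Finset.sum_congr rfl fun ω _ => ?_
  rw [pm_congr' (g := g)]
  intro ω'
  exact ⟨h1 _ _, h2 _ _⟩

lemma pm_class {f : Ω → α} {ω ω' : Ω} (h : f ω' = f ω) : pm μ f ω' = pm μ f ω := by
  unfold pm; rw [h]

lemma pm_nonneg (hμ : ∀ ω, 0 ≤ μ ω) (f : Ω → α) (ω : Ω) : 0 ≤ pm μ f ω := by
  unfold pm
  refine Finset.sum_nonneg fun ω' _ => ?_
  split_ifs
  · exact hμ _
  · exact le_rfl

lemma le_pm (hμ : ∀ ω, 0 ≤ μ ω) (f : Ω → α) (ω : Ω) : μ ω ≤ pm μ f ω := by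
  classical
  unfold pm
  have := Finset.single_le_sum (f := fun ω' => if f ω' = f ω then μ ω' else 0)
    (fun ω' _ => by split_ifs; exacts [hμ _, le_rfl]) (Finset.mem_univ ω)
  simpa using this

lemma pm_pos (hμ : ∀ ω, 0 < μ ω) (f : Ω → α) (ω : Ω) : 0 < pm μ f ω :=
  lt_of_lt_of_le (hμ ω) (le_pm (fun ω => (hμ ω).le) f ω)

lemma pm_le_one (hμ : ∀ ω, 0 ≤ μ ω) (h1 : ∑ ω, μ ω = 1) (f : Ω → α) (ω : Ω) : pm μ f ω ≤ 1 := by
  rw [← h1]
  unfold pm
  refine Finset.sum_le_sum fun ω' _ => ?_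
  split_ifs
  · exact le_rfl
  · exact hμ _

lemma pm_mono (hμ : ∀ ω, 0 ≤ μ ω) {f : Ω → α} {g : Ω → β} (h : Det f g) (ω : Ω) :
    pm μ f ω ≤ pm μ g ω := by
  unfold pm
  refine Finset.sum_le_sum fun ω' _ => ?_
  by_cases h1 : f ω' = f ω
  · rw [if_pos h1, if_pos (h _ _ h1)]
  · rw [if_neg h1]
    split_ifs
    · exact hμ _
    · exact le_rfl

lemma H_nonneg (hμ : ∀ ω, 0 ≤ μ ω) (h1 : ∑ ω, μ ω = 1) (f : Ω → α) : 0 ≤ H μ f := by
  unfold H
  refine Finset.sum_nonneg fun ω _ => mul_nonneg (hμ ω) ?_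
  have := Real.log_nonpos (pm_nonneg hμ f ω) (pm_le_one hμ h1 f ω)
  linarith

lemma H_mono (hμ : ∀ ω, 0 ≤ μ ω) {f : Ω → α} {g : Ω → β} (h : Det f g) :
    H μ g ≤ H μ f := by
  unfold H
  refine Finset.sum_le_sum fun ω _ => ?_
  rcases (hμ ω).eq_or_lt with h0 | h0
  · rw [← h0]; simp
  · refine mul_le_mul_of_nonneg_left ?_ (hμ ω)
    have hp : 0 < pm μ f ω := lt_of_lt_of_le h0 (le_pm hμ f ω)
    have := Real.log_le_log hp (pm_mono hμ h ω)
    linarith

open Classical in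
/-- in one class of `f` the normalised masses sum to at most one. -/
lemma class_sum_le_one (_hμ : ∀ ω, 0 ≤ μ ω) (f : Ω → α) (a : α) :
    ∑ ω, (if f ω = a then μ ω / pm μ f ω else 0) ≤ 1 := by
  by_cases h : ∃ ω0, f ω0 = a
  · obtain ⟨ω0, rfl⟩ := h
    have e : ∑ ω, (if f ω = f ω0 then μ ω / pm μ f ω else 0)
        = (∑ ω, (if f ω = f ω0 then μ ω else 0)) / pm μ f ω0 := by
      rw [Finset.sum_div]
      refine Finset.sum_congr rfl fun ω _ => ?_
      by_cases h1 : f ω = f ω0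
      · rw [if_pos h1, if_pos h1, pm_class h1]
      · rw [if_neg h1, if_neg h1, zero_div]
    rw [e]
    have : (∑ ω, (if f ω = f ω0 then μ ω else 0)) = pm μ f ω0 := rfl
    rw [this]
    exact div_self_le_one _
  · push Not at h
    rw [Finset.sum_eq_zero]
    · norm_num
    · intro ω _
      rw [if_neg (h ω)]

/-- Tower property. -/
lemma tower (hμ : ∀ ω, 0 < μ ω) (f : Ω → α) (G : Ω → ℝ) :
    ∑ ω, μ ω * ((∑ ω', (open Classical in if f ω' = f ω then μ ω' * G ω' else 0)) / pm μ f ω)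
      = ∑ ω, μ ω * G ω := by
  classical
  have e : ∀ ω, μ ω * ((∑ ω', if f ω' = f ω then μ ω' * G ω' else 0) / pm μ f ω)
      = ∑ ω', if f ω = f ω' then (μ ω / pm μ f ω') * (μ ω' * G ω') else 0 := by
    intro ω
    rw [Finset.sum_div, Finset.mul_sum]
    refine Finset.sum_congr rfl fun ω' _ => ?_
    by_cases h : f ω' = f ω
    · rw [if_pos h, if_pos h.symm, pm_class h]; ring
    · rw [if_neg h, if_neg (fun h' => h h'.symm)]; simp
  rw [Finset.sum_congr rfl fun ω _ => e ω, Finset.sum_comm]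
  refine Finset.sum_congr rfl fun ω' _ => ?_
  have e2 : ∀ ω, (if f ω = f ω' then (μ ω / pm μ f ω') * (μ ω' * G ω') else 0)
      = (if f ω = f ω' then μ ω else 0) * ((μ ω' * G ω') / pm μ f ω') := by
    intro ω
    split_ifs
    · ring
    · ring
  rw [Finset.sum_congr rfl fun ω _ => e2 ω, ← Finset.sum_mul]
  have : (∑ ω, (if f ω = f ω' then μ ω else 0)) = pm μ f ω' := rfl
  rw [this]
  have hp := pm_pos hμ f ω'
  field_simp

/-- Gibbs inequality, kernel form. -/
lemma gibbs (hμ : ∀ ω, 0 < μ ω) (h1 : ∑ ω, μ ω = 1) (f : Ω → α) (g : Ω → β) (A : Finset α)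
    (hA : ∀ ω, f ω ∈ A) (Q : α → β → ℝ) (hQ0 : ∀ a b, 0 ≤ Q a b) (hQ1 : ∀ b, ∑ a ∈ A, Q a b ≤ 1)
    (hQ : ∀ ω, 0 < Q (f ω) (g ω)) :
    H μ (fun ω => (f ω, g ω)) - H μ g ≤ ∑ ω, μ ω * (- Real.log (Q (f ω) (g ω))) := by
  classical
  set F : Ω → α × β := fun ω => (f ω, g ω) with hF
  have hμ0 : ∀ ω, 0 ≤ μ ω := fun ω => (hμ ω).le
  -- key sum
  have key : ∑ ω, μ ω * (pm μ g ω * Q (f ω) (g ω) / pm μ F ω) ≤ 1 := by
    have e : ∀ ω, μ ω * (pm μ g ω * Q (f ω) (g ω) / pm μ F ω)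
        = ∑ ω', if g ω' = g ω then μ ω' * (μ ω / pm μ F ω * Q (f ω) (g ω')) else 0 := by
      intro ω
      have : μ ω * (pm μ g ω * Q (f ω) (g ω) / pm μ F ω)
        = pm μ g ω * (μ ω / pm μ F ω * Q (f ω) (g ω)) := by ring
      rw [this, pm, Finset.sum_mul]
      refine Finset.sum_congr rfl fun ω' _ => ?_
      by_cases h : g ω' = g ω
      · rw [if_pos h, if_pos h, h]
      · rw [if_neg h, if_neg h, zero_mul]
    rw [Finset.sum_congr rfl fun ω _ => e ω, Finset.sum_comm]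
    rw [← h1]
    refine Finset.sum_le_sum fun ω' _ => ?_
    have e2 : ∀ ω, (if g ω' = g ω then μ ω' * (μ ω / pm μ F ω * Q (f ω) (g ω')) else 0)
        = μ ω' * ∑ a ∈ A, (if F ω = (a, g ω') then μ ω / pm μ F ω else 0) * Q a (g ω') := by
      intro ω
      by_cases h : g ω' = g ω
      · rw [if_pos h]
        congr 1
        rw [Finset.sum_eq_single (f ω)]
        · rw [if_pos (by rw [hF]; simp [h])]
        · intro b _ hb
          rw [if_neg, zero_mul]
          intro h'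
          exact hb (by have := congrArg Prod.fst h'; simpa [hF] using this.symm)
        · intro h'; exact absurd (hA ω) h'
      · rw [if_neg h]
        rw [Finset.sum_eq_zero, mul_zero]
        intro a _
        rw [if_neg, zero_mul]
        intro h'
        exact h (by have := congrArg Prod.snd h'; simpa [hF] using this.symm)
    rw [Finset.sum_congr rfl fun ω _ => e2 ω, ← Finset.mul_sum]
    refine mul_le_of_le_one_right (hμ0 _) ?_
    rw [Finset.sum_comm]
    refine le_trans (Finset.sum_le_sum fun a _ => ?_) (hQ1 (g ω'))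
    rw [← Finset.sum_mul]
    refine mul_le_of_le_one_left (hQ0 _ _) ?_
    refine le_trans (le_of_eq ?_) (class_sum_le_one hμ0 F (a, g ω'))
    refine Finset.sum_congr rfl fun ω _ => ?_
    congr
  have e3 : H μ F - H μ g - ∑ ω, μ ω * (- Real.log (Q (f ω) (g ω)))
      = ∑ ω, μ ω * Real.log (pm μ g ω * Q (f ω) (g ω) / pm μ F ω) := by
    unfold H
    rw [← Finset.sum_sub_distrib, ← Finset.sum_sub_distrib]
    refine Finset.sum_congr rfl fun ω _ => ?_
    have p1 := pm_pos hμ g ω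
    have p2 := pm_pos hμ F ω
    rw [Real.log_div (by have := hQ ω; positivity) p2.ne', Real.log_mul p1.ne' (hQ ω).ne']
    ring
  have h4 : ∑ ω, μ ω * Real.log (pm μ g ω * Q (f ω) (g ω) / pm μ F ω)
      ≤ ∑ ω, μ ω * (pm μ g ω * Q (f ω) (g ω) / pm μ F ω - 1) := by
    refine Finset.sum_le_sum fun ω _ => mul_le_mul_of_nonneg_left ?_ (hμ0 ω)
    refine Real.log_le_sub_one_of_pos ?_
    have p1 := pm_pos hμ g ω
    have p2 := pm_pos hμ F ω
    have := hQ ω
    positivity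
  have h5 : ∑ ω, μ ω * (pm μ g ω * Q (f ω) (g ω) / pm μ F ω - 1)
      = ∑ ω, μ ω * (pm μ g ω * Q (f ω) (g ω) / pm μ F ω) - 1 := by
    nth_rewrite 2 [← h1]
    rw [← Finset.sum_sub_distrib]
    refine Finset.sum_congr rfl fun ω _ => ?_
    ring
  linarith

/-- conditional entropy is at most log of the number of values -/
lemma condH_le_log (hμ : ∀ ω, 0 < μ ω) (h1 : ∑ ω, μ ω = 1) (f : Ω → α) (g : Ω → β) (m : ℕ)
    (hm : 0 < m)
    (hc : ∀ ω0, ∃ A : Finset α, A.card ≤ m ∧ ∀ ω, g ω = g ω0 → f ω ∈ A) :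
    H μ (fun ω => (f ω, g ω)) - H μ g ≤ Real.log m := by
  classical
  have hm' : (0:ℝ) < m := by exact_mod_cast hm
  have h := gibbs hμ h1 f g (Finset.univ.image f) (fun ω => Finset.mem_image_of_mem _ (Finset.mem_univ _))
    (fun a b => if ∃ ω, f ω = a ∧ g ω = b then 1 / (m:ℝ) else 0)
    (by intro a b; split_ifs; positivity; exact le_rfl)
    (by
      intro b
      rw [← Finset.sum_filter, Finset.sum_const, nsmul_eq_mul]
      by_cases hb : ∃ ω0, g ω0 = b
      · obtain ⟨ω0, rfl⟩ := hb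
        obtain ⟨A, hA, hA2⟩ := hc ω0
        have hsub : (Finset.univ.image f).filter (fun a => ∃ ω, f ω = a ∧ g ω = g ω0) ⊆ A := by
          intro a ha
          simp only [Finset.mem_filter] at ha
          obtain ⟨_, ω, rfl, h3⟩ := ha
          exact hA2 ω h3
        have := (Finset.card_le_card hsub).trans hA
        rw [mul_one_div, div_le_one hm']
        exact_mod_cast this
      · push Not at hb
        rw [Finset.filter_false_of_mem]
        · simp
        · rintro a _ ⟨ω, _, h3⟩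
          exact hb ω h3)
    (by
      intro ω
      rw [if_pos ⟨ω, rfl, rfl⟩]
      positivity)
  refine h.trans (le_of_eq ?_)
  have : ∀ ω, μ ω * (- Real.log (if ∃ ω', f ω' = f ω ∧ g ω' = g ω then 1 / (m:ℝ) else 0)) = μ ω * Real.log m := by
    intro ω
    rw [if_pos ⟨ω, rfl, rfl⟩, one_div, Real.log_inv, neg_neg]
  rw [Finset.sum_congr rfl fun ω _ => this ω, ← Finset.sum_mul, h1, one_mul]

lemma H_le_log (hμ : ∀ ω, 0 < μ ω) (h1 : ∑ ω, μ ω = 1) (f : Ω → α) (m : ℕ)
    (hm : 0 < m) (A : Finset α) (hA : A.card ≤ m) (hc : ∀ ω, f ω ∈ A) :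
    H μ f ≤ Real.log m := by
  have h := condH_le_log hμ h1 f (fun _ => ()) m hm (fun _ => ⟨A, hA, fun ω _ => hc ω⟩)
  have e : H μ (fun _ : Ω => ()) = 0 := by
    unfold H pm
    refine Finset.sum_eq_zero fun ω _ => ?_
    simp [h1]
  rw [e, sub_zero] at h
  refine le_trans (le_of_eq (H_congr ?_ ?_)) h
  · intro ω ω' h; simp [h]
  · intro ω ω' h; simpa using h

/-- Fano-type lemma. -/
lemma fano (hμ : ∀ ω, 0 < μ ω) (h1 : ∑ ω, μ ω = 1) (f : Ω → α) (g : Ω → β) (T : Ω → Prop)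
    (η : ℝ) (hT : ∑ ω, (open Classical in if T ω then 0 else μ ω) ≤ η) (m n : ℕ) (hm : 0 < m) (hn : 0 < n)
    (A : Finset α) (hA : A.card ≤ n) (hAf : ∀ ω, f ω ∈ A)
    (hc : ∀ ω0, ∃ A : Finset α, A.card ≤ m ∧ ∀ ω, T ω → g ω = g ω0 → f ω ∈ A) :
    H μ (fun ω => (f ω, g ω)) - H μ g ≤ Real.log 2 + Real.log m + η * Real.log n := by
  classical
  have hm' : (0:ℝ) < m := by exact_mod_cast hm
  have hn' : (0:ℝ) < n := by exact_mod_cast hn
  have hpos : ∀ a b, (0:ℝ) ≤ (if ∃ ω, T ω ∧ f ω = a ∧ g ω = b then 1 / (m:ℝ) else 0) := by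
    intro a b; split_ifs; positivity; exact le_rfl
  have h := gibbs hμ h1 f g A hAf
    (fun a b => 1/2 * (if ∃ ω, T ω ∧ f ω = a ∧ g ω = b then 1 / (m:ℝ) else 0) + 1/2 * (1 / (n:ℝ)))
    (by intro a b; have := hpos a b; positivity)
    (by
      intro b
      rw [Finset.sum_add_distrib, ← Finset.mul_sum, ← Finset.sum_filter, Finset.sum_const, Finset.sum_const,
        nsmul_eq_mul, nsmul_eq_mul]
      have hA' : (A.card : ℝ) ≤ n := by exact_mod_cast hA
      have q2 : (A.card : ℝ) * (1/2 * (1/(n:ℝ))) ≤ 1/2 := by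
        have : (A.card : ℝ) * (1/2 * (1/(n:ℝ))) = 1/2 * (A.card / n) := by ring
        rw [this]
        have : (A.card : ℝ) / n ≤ 1 := by rw [div_le_one hn']; exact hA'
        linarith
      have q1 : 1/2 * (((A.filter (fun a => ∃ ω, T ω ∧ f ω = a ∧ g ω = b)).card : ℝ) * (1/(m:ℝ))) ≤ 1/2 := by
        have : ((A.filter (fun a => ∃ ω, T ω ∧ f ω = a ∧ g ω = b)).card : ℝ) ≤ m := by
          by_cases hb : ∃ ω0, g ω0 = b
          · obtain ⟨ω0, rfl⟩ := hb
            obtain ⟨A', hA', hA2⟩ := hc ω0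
            have hsub : A.filter (fun a => ∃ ω, T ω ∧ f ω = a ∧ g ω = g ω0) ⊆ A' := by
              intro a ha
              simp only [Finset.mem_filter] at ha
              obtain ⟨_, ω, h2, rfl, h3⟩ := ha
              exact hA2 ω h2 h3
            exact_mod_cast (Finset.card_le_card hsub).trans hA'
          · push Not at hb
            rw [Finset.filter_false_of_mem]
            · simp
            · rintro a _ ⟨ω, _, _, h3⟩
              exact hb ω h3
        have : ((A.filter (fun a => ∃ ω, T ω ∧ f ω = a ∧ g ω = b)).card : ℝ) * (1/(m:ℝ)) ≤ 1 := by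
          rw [mul_one_div, div_le_one hm']; exact this
        linarith
      linarith)
    (by
      intro ω
      have := hpos (f ω) (g ω)
      positivity)
  refine h.trans ?_
  have hlogn : 0 ≤ Real.log n := Real.log_nonneg (by exact_mod_cast hn)
  have hlogm : 0 ≤ Real.log m := Real.log_nonneg (by exact_mod_cast hm)
  have hl2 : 0 ≤ Real.log 2 := Real.log_nonneg (by norm_num)
  have pt : ∀ ω, μ ω * (- Real.log (1/2 * (if ∃ ω', T ω' ∧ f ω' = f ω ∧ g ω' = g ω then 1 / (m:ℝ) else 0) + 1/2 * (1 / (n:ℝ))))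
      ≤ μ ω * (Real.log 2 + Real.log m) + (if T ω then 0 else μ ω) * Real.log n := by
    intro ω
    have hw := (hμ ω).le
    by_cases hTω : T ω
    · rw [if_pos ⟨ω, hTω, rfl, rfl⟩, if_pos hTω, zero_mul, add_zero]
      refine mul_le_mul_of_nonneg_left ?_ hw
      have : Real.log (1/2 * (1/(m:ℝ))) ≤ Real.log (1/2 * (1/(m:ℝ)) + 1/2 * (1/(n:ℝ))) := by
        apply Real.log_le_log (by positivity)
        have : 0 < 1/2 * (1/(n:ℝ)) := by positivity
        linarith
      have e : Real.log (1/2 * (1/(m:ℝ))) = - (Real.log 2 + Real.log m) := by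
        rw [Real.log_mul (by norm_num) (by positivity), one_div, one_div, Real.log_inv, Real.log_inv]; ring
      linarith
    · rw [if_neg hTω]
      have : Real.log (1/2 * (1/(n:ℝ))) ≤ Real.log (1/2 * (if ∃ ω', T ω' ∧ f ω' = f ω ∧ g ω' = g ω then 1 / (m:ℝ) else 0) + 1/2 * (1/(n:ℝ))) := by
        apply Real.log_le_log (by positivity)
        have := hpos (f ω) (g ω)
        linarith
      have e : Real.log (1/2 * (1/(n:ℝ))) = - (Real.log 2 + Real.log n) := by
        rw [Real.log_mul (by norm_num) (by positivity), one_div, one_div, Real.log_inv, Real.log_inv]; ring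
      nlinarith
  refine (Finset.sum_le_sum fun ω _ => pt ω).trans ?_
  rw [Finset.sum_add_distrib, ← Finset.sum_mul, ← Finset.sum_mul, h1, one_mul]
  have := mul_le_mul_of_nonneg_right hT hlogn
  linarith

/-- Submodularity of entropy. -/
lemma submod' (hμ : ∀ ω, 0 < μ ω) (h1 : ∑ ω, μ ω = 1) (f : Ω → α) (g : Ω → β) (h : Ω → γ) :
    H μ (fun ω => (f ω, g ω, h ω)) + H μ h ≤ H μ (fun ω => (f ω, h ω)) + H μ (fun ω => (g ω, h ω)) := by
  classical
  have hμ0 : ∀ ω, 0 ≤ μ ω := fun ω => (hμ ω).le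
  set P2 : α → γ → ℝ := fun a c => ∑ ω, if f ω = a ∧ h ω = c then μ ω else 0 with hP2
  set P1 : γ → ℝ := fun c => ∑ ω, if h ω = c then μ ω else 0 with hP1
  have P2n : ∀ a c, 0 ≤ P2 a c := fun a c => Finset.sum_nonneg fun ω _ => by
    split_ifs; exacts [hμ0 _, le_rfl]
  have P1n : ∀ c, 0 ≤ P1 c := fun c => Finset.sum_nonneg fun ω _ => by
    split_ifs; exacts [hμ0 _, le_rfl]
  have e2 : ∀ ω, P2 (f ω) (h ω) = pm μ (fun ω => (f ω, h ω)) ω := by
    intro ω
    simp only [hP2, pm, Prod.mk.injEq]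
  have e1 : ∀ ω, P1 (h ω) = pm μ h ω := fun ω => rfl
  have hh := gibbs hμ h1 f (fun ω => (g ω, h ω)) (Finset.univ.image f)
    (fun ω => Finset.mem_image_of_mem _ (Finset.mem_univ _))
    (fun a bc => P2 a bc.2 / P1 bc.2)
    (by intro a b; exact div_nonneg (P2n _ _) (P1n _))
    (by
      intro b
      rw [← Finset.sum_div]
      have : ∑ a ∈ Finset.univ.image f, P2 a b.2 = P1 b.2 := by
        simp only [hP2, hP1]
        rw [Finset.sum_comm]
        refine Finset.sum_congr rfl fun ω _ => ?_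
        rw [Finset.sum_eq_single (f ω)]
        · simp
        · intro a _ ha
          rw [if_neg]
          rintro ⟨h3, _⟩
          exact ha h3.symm
        · intro h'; exact absurd (Finset.mem_image_of_mem _ (Finset.mem_univ _)) h'
      rw [this]
      exact div_self_le_one _)
    (by
      intro ω
      dsimp only
      rw [e2, e1]
      exact div_pos (pm_pos hμ _ _) (pm_pos hμ _ _))
  have e3 : ∑ ω, μ ω * (- Real.log (P2 (f ω) (h ω) / P1 (h ω))) = H μ (fun ω => (f ω, h ω)) - H μ h := by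
    unfold H
    rw [← Finset.sum_sub_distrib]
    refine Finset.sum_congr rfl fun ω _ => ?_
    rw [e1, e2, Real.log_div (pm_pos hμ _ _).ne' (pm_pos hμ _ _).ne']
    ring
  dsimp only at hh
  rw [e3] at hh
  linarith

/-- Flexible submodularity. -/
lemma submod {δ : Type*} (hμ : ∀ ω, 0 < μ ω) (h1 : ∑ ω, μ ω = 1) (f : Ω → α) (g : Ω → β) (h : Ω → γ) (j : Ω → δ)
    (hf : Det f h) (hg : Det g h) (hj : Det (fun ω => (f ω, g ω)) j) :
    H μ j + H μ h ≤ H μ f + H μ g := by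
  have a1 := submod' hμ h1 f g h
  have hμ0 : ∀ ω, 0 ≤ μ ω := fun ω => (hμ ω).le
  have a2 : H μ j ≤ H μ (fun ω => (f ω, g ω, h ω)) := by
    apply H_mono hμ0
    intro ω ω' hh
    simp only [Prod.mk.injEq] at hh
    exact hj ω ω' (by simp [hh.1, hh.2.1])
  have a3 : H μ (fun ω => (f ω, h ω)) = H μ f := by
    apply H_congr
    · intro ω ω' hh; simp only [Prod.mk.injEq] at hh; exact hh.1
    · intro ω ω' hh; simp only [Prod.mk.injEq]; exact ⟨hh, hf _ _ hh⟩
  have a4 : H μ (fun ω => (g ω, h ω)) = H μ g := by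
    apply H_congr
    · intro ω ω' hh; simp only [Prod.mk.injEq] at hh; exact hh.1
    · intro ω ω' hh; simp only [Prod.mk.injEq]; exact ⟨hh, hg _ _ hh⟩
  linarith

end basic

end GoLo
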