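import Pool.Agent.Helper524.GL.Ent

set_option autoImplicit false
open Finset

namespace GoLo


/-- Fano for the integer part of a quantity known up to an additive error -/
lemma J1_floor {Ω α : Type} [Fintype Ω] {μ : Ω → ℝ} (hμ : ∀ ω, 0 < μ ω) (h1 : ∑ ω, μ ω = 1)
    (x v : Ω → ℝ) (g : Ω → α) (hv : Det g v) (T : Ω → Prop)
    (hT : ∑ ω, (open Classical in if T ω then 0 else μ ω) ≤ 1/12) (K m n : ℕ)
    (hK : 2 * K + 1 ≤ m) (hn : 0 < n) (A : Finset ℤ) (hA : A.card ≤ n) (hAf : ∀ ω, ⌊x ω⌋ ∈ A)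
    (hx : ∀ ω, T ω → |x ω - v ω| ≤ K) :
    H μ (fun ω => (⌊x ω⌋, g ω)) - H μ g ≤ Real.log 2 + Real.log m + 1/12 * Real.log n := by
  refine fano hμ h1 (fun ω => ⌊x ω⌋) g T (1/12) hT m n (by omega) hn A hA hAf ?_
  intro ω0
  refine ⟨Finset.Icc (⌊v ω0⌋ - K) (⌊v ω0⌋ + K), ?_, ?_⟩
  · rw [Int.card_Icc]
    omega
  · intro ω hTω hg
    have h2 := hx ω hTω
    rw [hv ω ω0 hg] at h2
    obtain ⟨h3, h4⟩ := abs_le.mp h2
    rw [Finset.mem_Icc]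
    constructor
    · rw [Int.le_floor]
      push_cast
      have := Int.floor_le (v ω0)
      linarith
    · have h5 : ⌊x ω⌋ ≤ ⌊v ω0 + (K : ℝ)⌋ := Int.floor_le_floor (by linarith)
      rw [Int.floor_add_natCast] at h5
      exact h5

/-- Fano for a digit known up to an additive error after multiplication by a factor at least one -/
lemma J1_inv {Ω α : Type} [Fintype Ω] {μ : Ω → ℝ} (hμ : ∀ ω, 0 < μ ω) (h1 : ∑ ω, μ ω = 1)
    (f : Ω → ℕ) (d s : Ω → ℝ) (g : Ω → α) (hd : Det g d) (hs : Det g s) (T : Ω → Prop)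
    (hT : ∑ ω, (open Classical in if T ω then 0 else μ ω) ≤ 1/12) (K m n M : ℕ)
    (hK : 2 * K + 1 ≤ m) (hn : 0 < n) (hMn : M ≤ n) (hf : ∀ ω, f ω < M) (hd1 : ∀ ω, 1 ≤ d ω)
    (hx : ∀ ω, T ω → -(K : ℝ) ≤ d ω * f ω - s ω ∧ d ω * f ω - s ω < K + 1) :
    H μ (fun ω => (f ω, g ω)) - H μ g ≤ Real.log 2 + Real.log m + 1/12 * Real.log n := by
  refine fano hμ h1 f g T (1/12) hT m n (by omega) hn (Finset.range M)
    (by rw [Finset.card_range]; exact hMn) (fun ω => Finset.mem_range.mpr (hf ω)) ?_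
  intro ω0
  refine ⟨Finset.Ico ⌈(s ω0 - K) / d ω0⌉₊ (⌈(s ω0 - K) / d ω0⌉₊ + (2 * K + 1)), ?_, ?_⟩
  · rw [Nat.card_Ico]
    omega
  · intro ω hTω hg
    obtain ⟨h2, h3⟩ := hx ω hTω
    rw [hd ω ω0 hg, hs ω ω0 hg] at h2 h3
    have hd0 : 0 < d ω0 := by linarith [hd1 ω0]
    rw [Finset.mem_Ico]
    constructor
    · rw [Nat.ceil_le, div_le_iff₀ hd0]
      linarith
    · have h4 := Nat.le_ceil ((s ω0 - K) / d ω0)
      have h5 : (f ω : ℝ) < (s ω0 - K) / d ω0 + (2 * K + 1) := by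
        have h6 : (s ω0 - K) / d ω0 * d ω0 = s ω0 - K := div_mul_cancel₀ _ hd0.ne'
        have h7 : (f ω : ℝ) * d ω0 < ((s ω0 - K) / d ω0 + (2 * K + 1)) * d ω0 := by
          rw [add_mul, h6]
          have h8 : (2 * (K : ℝ) + 1) * 1 ≤ (2 * K + 1) * d ω0 :=
            mul_le_mul_of_nonneg_left (hd1 ω0) (by positivity)
          linarith
        exact lt_of_mul_lt_mul_right h7 hd0.le
      have h9 : (f ω : ℝ) < ((⌈(s ω0 - K) / d ω0⌉₊ + (2 * K + 1) : ℕ) : ℝ) := by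
        push_cast
        linarith
      exact_mod_cast h9

/-- the range of the integer parts -/
lemma J1_range (B M : ℕ) (hB : 1 ≤ B) (hM : 0 < M) (x : ℝ) (h1 : -((B : ℝ) * M) ≤ x)
    (h2 : x ≤ M + (B : ℝ) ^ 2 * M) :
    ⌊x⌋ ∈ Finset.Icc (-((B * M : ℕ) : ℤ)) ((M + B ^ 2 * M : ℕ) : ℤ) ∧
      (Finset.Icc (-((B * M : ℕ) : ℤ)) ((M + B ^ 2 * M : ℕ) : ℤ)).card ≤ 5 * B ^ 2 * M := by
  constructor
  · rw [Finset.mem_Icc]
    constructor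
    · rw [Int.le_floor]
      push_cast
      exact h1
    · have h3 : (⌊x⌋ : ℝ) ≤ ((M + B ^ 2 * M : ℕ) : ℝ) := by
        push_cast
        exact (Int.floor_le x).trans h2
      exact_mod_cast h3
  · rw [Int.card_Icc]
    have h3 : ((M + B ^ 2 * M : ℕ) : ℤ) + 1 - -((B * M : ℕ) : ℤ) =
        ((M + B ^ 2 * M + 1 + B * M : ℕ) : ℤ) := by
      push_cast
      ring
    rw [h3, Int.toNat_natCast]
    have h4 : 1 * M ≤ B ^ 2 * M := Nat.mul_le_mul_right M (Nat.one_le_pow _ _ hB)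
    have h5 : B * M ≤ B ^ 2 * M := by
      refine Nat.mul_le_mul_right M ?_
      rw [pow_two]
      exact Nat.le_mul_of_pos_left B hB
    have h6 : 5 * B ^ 2 * M = 5 * (B ^ 2 * M) := by ring
    rw [h6]
    generalize B ^ 2 * M = P at *
    omega

/-- bounds for the linear forms -/
lemma J1_bd (B M x y z : ℝ) (p q r : ℝ) (hB : 1 ≤ B) (hx : 0 ≤ x) (hxM : x ≤ M) (hy : 0 ≤ y)
    (hyM : y ≤ M) (hz : 0 ≤ z) (hzM : z ≤ M) (hp : 0 ≤ p) (hpB : p ≤ B) (hq : 0 ≤ q)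
    (hqB : q ≤ B ^ 2) (hr : r = x - p * y + q * z) :
    -(B * M) ≤ r ∧ r ≤ M + B ^ 2 * M := by
  have h1 : p * y ≤ B * M := mul_le_mul hpB hyM hy (by linarith)
  have h2 : 0 ≤ p * y := mul_nonneg hp hy
  have h3 : q * z ≤ B ^ 2 * M := mul_le_mul hqB hzM hz (by positivity)
  have h4 : 0 ≤ q * z := mul_nonneg hq hz
  constructor
  · linarith
  · linarith

lemma J1_mulle (B a b : ℝ) (ha : 0 ≤ a) (haB : a ≤ B) (hb : 0 ≤ b) (hbB : b ≤ B) :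
    0 ≤ a * b ∧ a * b ≤ B ^ 2 := by
  refine ⟨mul_nonneg ha hb, ?_⟩
  rw [pow_two]
  exact mul_le_mul haB hbB hb (ha.trans haB)

/-- the entropy bookkeeping -/
lemma J1_book {Ω : Type} [Fintype Ω] {μ : Ω → ℝ} (hμ : ∀ ω, 0 < μ ω) (h1 : ∑ ω, μ ω = 1)
    {α β γ δ : Type} (X : Ω → α) (Y : Ω → β) (Z : Ω → γ) (G : Ω → δ)
    (ξ η ζ : Ω → ℕ) (u r w : Ω → ℤ) (E : ℝ)
    (hu : Det (fun ω => (ξ ω, η ω, ζ ω, G ω)) u) (hr : Det (fun ω => (ξ ω, η ω, ζ ω, G ω)) r)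
    (hw : Det (fun ω => (ξ ω, η ω, ζ ω, G ω)) w)
    (c1 : H μ (fun ω => (u ω, X ω, G ω)) - H μ (fun ω => (X ω, G ω)) ≤ E)
    (c2 : H μ (fun ω => (u ω, Y ω, G ω)) - H μ (fun ω => (Y ω, G ω)) ≤ E)
    (c3 : H μ (fun ω => (r ω, Y ω, G ω)) - H μ (fun ω => (Y ω, G ω)) ≤ E)
    (i1 : H μ (fun ω => (ζ ω, w ω, Y ω, G ω)) - H μ (fun ω => (w ω, Y ω, G ω)) ≤ E)
    (i2 : H μ (fun ω => (η ω, r ω, X ω, G ω)) - H μ (fun ω => (r ω, X ω, G ω)) ≤ E)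
    (i3 : H μ (fun ω => (ξ ω, u ω, Z ω, G ω)) - H μ (fun ω => (u ω, Z ω, G ω)) ≤ E) :
    (H μ (fun ω => (ζ ω, Y ω, G ω)) - H μ (fun ω => (Y ω, G ω)))
    + (H μ (fun ω => (η ω, X ω, G ω)) - H μ (fun ω => (X ω, G ω)))
    + (H μ (fun ω => (ξ ω, Z ω, G ω)) - H μ (fun ω => (Z ω, G ω)))
    - 6 * E ≤ H μ (fun ω => (ξ ω, η ω, ζ ω, G ω)) - H μ G := by
  have hμ0 : ∀ ω, 0 ≤ μ ω := fun ω => (hμ ω).le
  -- step 1
  have s1 : H μ (fun ω => (u ω, r ω, w ω, G ω)) ≤ H μ (fun ω => (ξ ω, η ω, ζ ω, G ω)) := by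
    refine H_mono hμ0 ?_
    intro ω ω' h
    have e1 := hu ω ω' h
    have e2 := hr ω ω' h
    have e3 := hw ω ω' h
    simp only [Prod.mk.injEq] at h ⊢
    exact ⟨e1, e2, e3, h.2.2.2⟩
  -- step 3
  have s3 : H μ (fun ω => (u ω, Z ω, G ω)) + H μ G ≤
      H μ (fun ω => (u ω, G ω)) + H μ (fun ω => (Z ω, G ω)) := by
    refine submod hμ h1 _ _ _ _ ?_ ?_ ?_
    · intro ω ω' h
      simp only [Prod.mk.injEq] at h
      exact h.2
    · intro ω ω' h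
      simp only [Prod.mk.injEq] at h
      exact h.2
    · intro ω ω' h
      simp only [Prod.mk.injEq] at h ⊢
      exact ⟨h.1.1, h.2.1, h.1.2⟩
  -- step 4
  have s4 : H μ (fun ω => (r ω, u ω, X ω, G ω)) + H μ (fun ω => (u ω, G ω)) ≤
      H μ (fun ω => (r ω, u ω, G ω)) + H μ (fun ω => (u ω, X ω, G ω)) := by
    refine submod hμ h1 _ _ _ _ ?_ ?_ ?_
    · intro ω ω' h
      simp only [Prod.mk.injEq] at h ⊢
      exact h.2
    · intro ω ω' h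
      simp only [Prod.mk.injEq] at h ⊢
      exact ⟨h.1, h.2.2⟩
    · intro ω ω' h
      simp only [Prod.mk.injEq] at h ⊢
      exact ⟨h.1.1, h.2⟩
  have s4' : H μ (fun ω => (r ω, X ω, G ω)) ≤ H μ (fun ω => (r ω, u ω, X ω, G ω)) := by
    refine H_mono hμ0 ?_
    intro ω ω' h
    simp only [Prod.mk.injEq] at h ⊢
    exact ⟨h.1, h.2.2⟩
  -- step 5
  have s5 : H μ (fun ω => (w ω, u ω, r ω, Y ω, G ω)) + H μ (fun ω => (r ω, u ω, G ω)) ≤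
      H μ (fun ω => (u ω, r ω, w ω, G ω)) + H μ (fun ω => (u ω, r ω, Y ω, G ω)) := by
    refine submod hμ h1 _ _ _ _ ?_ ?_ ?_
    · intro ω ω' h
      simp only [Prod.mk.injEq] at h ⊢
      exact ⟨h.2.1, h.1, h.2.2.2⟩
    · intro ω ω' h
      simp only [Prod.mk.injEq] at h ⊢
      exact ⟨h.2.1, h.1, h.2.2.2⟩
    · intro ω ω' h
      simp only [Prod.mk.injEq] at h ⊢
      exact ⟨h.1.2.2.1, h.2⟩
  have s5' : H μ (fun ω => (w ω, Y ω, G ω)) ≤ H μ (fun ω => (w ω, u ω, r ω, Y ω, G ω)) := by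
    refine H_mono hμ0 ?_
    intro ω ω' h
    simp only [Prod.mk.injEq] at h ⊢
    exact ⟨h.1, h.2.2.2⟩
  have s6 : H μ (fun ω => (u ω, r ω, Y ω, G ω)) + H μ (fun ω => (Y ω, G ω)) ≤
      H μ (fun ω => (u ω, Y ω, G ω)) + H μ (fun ω => (r ω, Y ω, G ω)) := by
    refine submod hμ h1 _ _ _ _ ?_ ?_ ?_
    · intro ω ω' h
      simp only [Prod.mk.injEq] at h ⊢
      exact h.2
    · intro ω ω' h
      simp only [Prod.mk.injEq] at h ⊢
      exact h.2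
    · intro ω ω' h
      simp only [Prod.mk.injEq] at h ⊢
      exact ⟨h.1.1, h.2⟩
  -- step 7
  have s7 : H μ (fun ω => (ζ ω, Y ω, G ω)) ≤ H μ (fun ω => (ζ ω, w ω, Y ω, G ω)) := by
    refine H_mono hμ0 ?_
    intro ω ω' h
    simp only [Prod.mk.injEq] at h ⊢
    exact ⟨h.1, h.2.2⟩
  have s8 : H μ (fun ω => (η ω, X ω, G ω)) ≤ H μ (fun ω => (η ω, r ω, X ω, G ω)) := by
    refine H_mono hμ0 ?_
    intro ω ω' h
    simp only [Prod.mk.injEq] at h ⊢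
    exact ⟨h.1, h.2.2⟩
  have s9 : H μ (fun ω => (ξ ω, Z ω, G ω)) ≤ H μ (fun ω => (ξ ω, u ω, Z ω, G ω)) := by
    refine H_mono hμ0 ?_
    intro ω ω' h
    simp only [Prod.mk.injEq] at h ⊢
    exact ⟨h.1, h.2.2⟩
  linarith

/-- Local lemma. -/
theorem local_lemma {Ω : Type} [Fintype Ω] {μ : Ω → ℝ} (hμ : ∀ ω, 0 < μ ω) (h1 : ∑ ω, μ ω = 1)
    {α β γ δ : Type} (X : Ω → α) (Y : Ω → β) (Z : Ω → γ) (G : Ω → δ)
    (ξ η ζ : Ω → ℕ) (hξ : Det (fun ω => (X ω, G ω)) ξ) (hη : Det (fun ω => (Y ω, G ω)) η)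
    (hζ : Det (fun ω => (Z ω, G ω)) ζ)
    (M : ℕ) (hM : 0 < M) (hξM : ∀ ω, ξ ω < M) (hηM : ∀ ω, η ω < M) (hζM : ∀ ω, ζ ω < M)
    (a b c : Ω → ℝ) (ha : Det G a) (hb : Det G b) (hc : Det G c)
    (B R : ℕ) (hB : 1 ≤ B) (haB : ∀ ω, 0 ≤ a ω ∧ a ω ≤ B) (hbB : ∀ ω, 0 ≤ b ω ∧ b ω ≤ B)
    (hcB : ∀ ω, 0 ≤ c ω ∧ c ω ≤ B)
    (lx ly lz : Ω → ℝ) (hlx : Det (fun ω => (X ω, G ω)) lx) (hly : Det (fun ω => (Y ω, G ω)) ly)
    (hlz : Det (fun ω => (Z ω, G ω)) lz)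
    (T : Ω → Prop) (hT : ∑ ω, (open Classical in if T ω then 0 else μ ω) ≤ 1/12)
    (e1 : ∀ ω, T ω → |(ζ ω : ℝ) - a ω * η ω - lx ω| ≤ R)
    (e2 : ∀ ω, T ω → |(ξ ω : ℝ) - b ω * ζ ω - ly ω| ≤ R)
    (e3 : ∀ ω, T ω → |(η ω : ℝ) - c ω * ξ ω - lz ω| ≤ R) :
    (H μ (fun ω => (ζ ω, Y ω, G ω)) - H μ (fun ω => (Y ω, G ω)))
    + (H μ (fun ω => (η ω, X ω, G ω)) - H μ (fun ω => (X ω, G ω)))
    + (H μ (fun ω => (ξ ω, Z ω, G ω)) - H μ (fun ω => (Z ω, G ω)))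
    - 6 * (Real.log 2 + Real.log ((2*B^2*R+3 : ℕ)) + (1/12) * Real.log ((5*B^2*M : ℕ)))
    ≤ H μ (fun ω => (ξ ω, η ω, ζ ω, G ω)) - H μ G := by
  have hBR : (1 : ℝ) ≤ B := by exact_mod_cast hB
  have hRR : (0 : ℝ) ≤ R := Nat.cast_nonneg R
  have hn : 0 < 5 * B ^ 2 * M := by positivity
  have hBsq : B ≤ B ^ 2 := by
    rw [pow_two]
    exact Nat.le_mul_of_pos_left B hB
  have hBR1 : B * R ≤ B ^ 2 * R := Nat.mul_le_mul_right R hBsq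
  have hBR2 : R ≤ B ^ 2 * R := Nat.le_mul_of_pos_left R (by positivity)
  have hassoc : 2 * B ^ 2 * R = 2 * (B ^ 2 * R) := by ring
  have hMn : M ≤ 5 * B ^ 2 * M := Nat.le_mul_of_pos_left M (by positivity)
  have fξ : ∀ ω, (0 : ℝ) ≤ ξ ω ∧ (ξ ω : ℝ) ≤ M := fun ω =>
    ⟨Nat.cast_nonneg _, by exact_mod_cast (hξM ω).le⟩
  have fη : ∀ ω, (0 : ℝ) ≤ η ω ∧ (η ω : ℝ) ≤ M := fun ω =>
    ⟨Nat.cast_nonneg _, by exact_mod_cast (hηM ω).le⟩
  have fζ : ∀ ω, (0 : ℝ) ≤ ζ ω ∧ (ζ ω : ℝ) ≤ M := fun ω =>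
    ⟨Nat.cast_nonneg _, by exact_mod_cast (hζM ω).le⟩
  have hab : ∀ ω, 0 ≤ a ω * b ω ∧ a ω * b ω ≤ (B : ℝ) ^ 2 := fun ω =>
    J1_mulle B _ _ (haB ω).1 (haB ω).2 (hbB ω).1 (hbB ω).2
  have hbc : ∀ ω, 0 ≤ b ω * c ω ∧ b ω * c ω ≤ (B : ℝ) ^ 2 := fun ω =>
    J1_mulle B _ _ (hbB ω).1 (hbB ω).2 (hcB ω).1 (hcB ω).2
  have hac : ∀ ω, 0 ≤ a ω * c ω ∧ a ω * c ω ≤ (B : ℝ) ^ 2 := fun ω =>
    J1_mulle B _ _ (haB ω).1 (haB ω).2 (hcB ω).1 (hcB ω).2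
  have hd1 : ∀ ω, 1 ≤ 1 + a ω * b ω * c ω := fun ω => by
    have := mul_nonneg (hab ω).1 (hcB ω).1
    linarith
  set U : Ω → ℝ := fun ω => ξ ω - b ω * ζ ω + (a ω * b ω) * η ω with hU
  set V : Ω → ℝ := fun ω => η ω - c ω * ξ ω + (b ω * c ω) * ζ ω with hV
  set W : Ω → ℝ := fun ω => ζ ω - a ω * η ω + (a ω * c ω) * ξ ω with hW
  have bU : ∀ ω, -((B : ℝ) * M) ≤ U ω ∧ U ω ≤ M + (B : ℝ) ^ 2 * M := fun ω =>
    J1_bd B M _ _ _ (b ω) (a ω * b ω) _ hBR (fξ ω).1 (fξ ω).2 (fζ ω).1 (fζ ω).2 (fη ω).1 (fη ω).2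
      (hbB ω).1 (hbB ω).2 (hab ω).1 (hab ω).2 rfl
  have bV : ∀ ω, -((B : ℝ) * M) ≤ V ω ∧ V ω ≤ M + (B : ℝ) ^ 2 * M := fun ω =>
    J1_bd B M _ _ _ (c ω) (b ω * c ω) _ hBR (fη ω).1 (fη ω).2 (fξ ω).1 (fξ ω).2 (fζ ω).1 (fζ ω).2
      (hcB ω).1 (hcB ω).2 (hbc ω).1 (hbc ω).2 rfl
  have hcard := (J1_range B M hB hM 0 (by
    have : (0 : ℝ) ≤ (B : ℝ) * M := by positivity
    linarith) (by positivity)).2
  have rU : ∀ ω, ⌊U ω⌋ ∈ Finset.Icc (-((B * M : ℕ) : ℤ)) ((M + B ^ 2 * M : ℕ) : ℤ) := fun ω =>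
    (J1_range B M hB hM _ (bU ω).1 (bU ω).2).1
  have rV : ∀ ω, ⌊V ω⌋ ∈ Finset.Icc (-((B * M : ℕ) : ℤ)) ((M + B ^ 2 * M : ℕ) : ℤ) := fun ω =>
    (J1_range B M hB hM _ (bV ω).1 (bV ω).2).1
  refine J1_book hμ h1 X Y Z G ξ η ζ (fun ω => ⌊U ω⌋) (fun ω => ⌊V ω⌋) (fun ω => ⌊W ω⌋) _
    ?_ ?_ ?_ ?_ ?_ ?_ ?_ ?_ ?_
  · intro ω ω' h
    simp only [Prod.mk.injEq] at h
    simp only [hU]
    rw [h.1, h.2.1, h.2.2.1, ha ω ω' h.2.2.2, hb ω ω' h.2.2.2]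
  · intro ω ω' h
    simp only [Prod.mk.injEq] at h
    simp only [hV]
    rw [h.1, h.2.1, h.2.2.1, hc ω ω' h.2.2.2, hb ω ω' h.2.2.2]
  · intro ω ω' h
    simp only [Prod.mk.injEq] at h
    simp only [hW]
    rw [h.1, h.2.1, h.2.2.1, hc ω ω' h.2.2.2, ha ω ω' h.2.2.2]
  · -- c1
    refine J1_floor hμ h1 U (fun ω => ξ ω - b ω * lx ω) (fun ω => (X ω, G ω)) ?_ T hT (B * R)
      _ _ (by omega) hn _ hcard rU ?_
    · intro ω ω' h
      have hG : G ω = G ω' := by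
        simp only [Prod.mk.injEq] at h
        exact h.2
      show (ξ ω : ℝ) - b ω * lx ω = ξ ω' - b ω' * lx ω'
      rw [hξ ω ω' h, hlx ω ω' h, hb ω ω' hG]
    · intro ω hTω
      have h2 : U ω - (ξ ω - b ω * lx ω) = -(b ω * ((ζ ω : ℝ) - a ω * η ω - lx ω)) := by
        simp only [hU]
        ring
      rw [h2, abs_neg, abs_mul, abs_of_nonneg (hbB ω).1]
      push_cast
      exact mul_le_mul (hbB ω).2 (e1 ω hTω) (abs_nonneg _) (by positivity)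
  · -- c2
    refine J1_floor hμ h1 U (fun ω => ly ω + (a ω * b ω) * η ω) (fun ω => (Y ω, G ω)) ?_ T hT R
      _ _ (by omega) hn _ hcard rU ?_
    · intro ω ω' h
      have hG : G ω = G ω' := by
        simp only [Prod.mk.injEq] at h
        exact h.2
      show ly ω + (a ω * b ω) * η ω = ly ω' + (a ω' * b ω') * η ω'
      rw [hη ω ω' h, hly ω ω' h, hb ω ω' hG, ha ω ω' hG]
    · intro ω hTω
      have h2 : U ω - (ly ω + (a ω * b ω) * η ω) = (ξ ω : ℝ) - b ω * ζ ω - ly ω := by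
        simp only [hU]
        ring
      rw [h2]
      exact e2 ω hTω
  · -- c3
    refine J1_floor hμ h1 V (fun ω => η ω - c ω * ly ω) (fun ω => (Y ω, G ω)) ?_ T hT (B * R)
      _ _ (by omega) hn _ hcard rV ?_
    · intro ω ω' h
      have hG : G ω = G ω' := by
        simp only [Prod.mk.injEq] at h
        exact h.2
      show (η ω : ℝ) - c ω * ly ω = η ω' - c ω' * ly ω'
      rw [hη ω ω' h, hly ω ω' h, hc ω ω' hG]
    · intro ω hTω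
      have h2 : V ω - (η ω - c ω * ly ω) = -(c ω * ((ξ ω : ℝ) - b ω * ζ ω - ly ω)) := by
        simp only [hV]
        ring
      rw [h2, abs_neg, abs_mul, abs_of_nonneg (hcB ω).1]
      push_cast
      exact mul_le_mul (hcB ω).2 (e2 ω hTω) (abs_nonneg _) (by positivity)
  · -- i1
    refine J1_inv hμ h1 ζ (fun ω => 1 + a ω * b ω * c ω)
      (fun ω => ⌊W ω⌋ - (a ω * c ω) * ly ω + a ω * η ω) (fun ω => (⌊W ω⌋, Y ω, G ω)) ?_ ?_ T hT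
      (B ^ 2 * R) _ _ M (by omega) hn hMn hζM hd1 ?_
    · intro ω ω' h
      have hG : G ω = G ω' := by
        simp only [Prod.mk.injEq] at h
        exact h.2.2
      show 1 + a ω * b ω * c ω = 1 + a ω' * b ω' * c ω'
      rw [ha ω ω' hG, hb ω ω' hG, hc ω ω' hG]
    · intro ω ω' h
      have hG : G ω = G ω' := by
        simp only [Prod.mk.injEq] at h
        exact h.2.2
      have hYG : (Y ω, G ω) = (Y ω', G ω') := by
        simp only [Prod.mk.injEq] at h ⊢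
        exact h.2
      have hf : ⌊W ω⌋ = ⌊W ω'⌋ := by
        simp only [Prod.mk.injEq] at h
        exact h.1
      show (⌊W ω⌋ : ℝ) - (a ω * c ω) * ly ω + a ω * η ω =
        ⌊W ω'⌋ - (a ω' * c ω') * ly ω' + a ω' * η ω'
      rw [hf, ha ω ω' hG, hc ω ω' hG, hly ω ω' hYG, hη ω ω' hYG]
    · intro ω hTω
      have h2 : (1 + a ω * b ω * c ω) * ζ ω - (⌊W ω⌋ - (a ω * c ω) * ly ω + a ω * η ω) =
          (W ω - ⌊W ω⌋) - (a ω * c ω) * ((ξ ω : ℝ) - b ω * ζ ω - ly ω) := by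
        simp only [hW]
        ring
      rw [h2]
      have h3 : |(a ω * c ω) * ((ξ ω : ℝ) - b ω * ζ ω - ly ω)| ≤ ((B ^ 2 * R : ℕ) : ℝ) := by
        rw [abs_mul, abs_of_nonneg (hac ω).1]
        push_cast
        exact mul_le_mul (hac ω).2 (e2 ω hTω) (abs_nonneg _) (by positivity)
      obtain ⟨h4, h5⟩ := abs_le.mp h3
      have h6 := Int.floor_le (W ω)
      have h7 := Int.lt_floor_add_one (W ω)
      constructor
      · linarith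
      · linarith
  · -- i2
    refine J1_inv hμ h1 η (fun ω => 1 + a ω * b ω * c ω)
      (fun ω => ⌊V ω⌋ - (b ω * c ω) * lx ω + c ω * ξ ω) (fun ω => (⌊V ω⌋, X ω, G ω)) ?_ ?_ T hT
      (B ^ 2 * R) _ _ M (by omega) hn hMn hηM hd1 ?_
    · intro ω ω' h
      have hG : G ω = G ω' := by
        simp only [Prod.mk.injEq] at h
        exact h.2.2
      show 1 + a ω * b ω * c ω = 1 + a ω' * b ω' * c ω'
      rw [ha ω ω' hG, hb ω ω' hG, hc ω ω' hG]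
    · intro ω ω' h
      have hG : G ω = G ω' := by
        simp only [Prod.mk.injEq] at h
        exact h.2.2
      have hXG : (X ω, G ω) = (X ω', G ω') := by
        simp only [Prod.mk.injEq] at h ⊢
        exact h.2
      have hf : ⌊V ω⌋ = ⌊V ω'⌋ := by
        simp only [Prod.mk.injEq] at h
        exact h.1
      show (⌊V ω⌋ : ℝ) - (b ω * c ω) * lx ω + c ω * ξ ω =
        ⌊V ω'⌋ - (b ω' * c ω') * lx ω' + c ω' * ξ ω'
      rw [hf, hb ω ω' hG, hc ω ω' hG, hlx ω ω' hXG, hξ ω ω' hXG]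
    · intro ω hTω
      have h2 : (1 + a ω * b ω * c ω) * η ω - (⌊V ω⌋ - (b ω * c ω) * lx ω + c ω * ξ ω) =
          (V ω - ⌊V ω⌋) - (b ω * c ω) * ((ζ ω : ℝ) - a ω * η ω - lx ω) := by
        simp only [hV]
        ring
      rw [h2]
      have h3 : |(b ω * c ω) * ((ζ ω : ℝ) - a ω * η ω - lx ω)| ≤ ((B ^ 2 * R : ℕ) : ℝ) := by
        rw [abs_mul, abs_of_nonneg (hbc ω).1]
        push_cast
        exact mul_le_mul (hbc ω).2 (e1 ω hTω) (abs_nonneg _) (by positivity)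
      obtain ⟨h4, h5⟩ := abs_le.mp h3
      have h6 := Int.floor_le (V ω)
      have h7 := Int.lt_floor_add_one (V ω)
      constructor
      · linarith
      · linarith
  · -- i3
    refine J1_inv hμ h1 ξ (fun ω => 1 + a ω * b ω * c ω)
      (fun ω => ⌊U ω⌋ - (a ω * b ω) * lz ω + b ω * ζ ω) (fun ω => (⌊U ω⌋, Z ω, G ω)) ?_ ?_ T hT
      (B ^ 2 * R) _ _ M (by omega) hn hMn hξM hd1 ?_
    · intro ω ω' h
      have hG : G ω = G ω' := by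
        simp only [Prod.mk.injEq] at h
        exact h.2.2
      show 1 + a ω * b ω * c ω = 1 + a ω' * b ω' * c ω'
      rw [ha ω ω' hG, hb ω ω' hG, hc ω ω' hG]
    · intro ω ω' h
      have hG : G ω = G ω' := by
        simp only [Prod.mk.injEq] at h
        exact h.2.2
      have hZG : (Z ω, G ω) = (Z ω', G ω') := by
        simp only [Prod.mk.injEq] at h ⊢
        exact h.2
      have hf : ⌊U ω⌋ = ⌊U ω'⌋ := by
        simp only [Prod.mk.injEq] at h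
        exact h.1
      show (⌊U ω⌋ : ℝ) - (a ω * b ω) * lz ω + b ω * ζ ω =
        ⌊U ω'⌋ - (a ω' * b ω') * lz ω' + b ω' * ζ ω'
      rw [hf, ha ω ω' hG, hb ω ω' hG, hlz ω ω' hZG, hζ ω ω' hZG]
    · intro ω hTω
      have h2 : (1 + a ω * b ω * c ω) * ξ ω - (⌊U ω⌋ - (a ω * b ω) * lz ω + b ω * ζ ω) =
          (U ω - ⌊U ω⌋) - (a ω * b ω) * ((η ω : ℝ) - c ω * ξ ω - lz ω) := by
        simp only [hU]
        ring
      rw [h2]
      have h3 : |(a ω * b ω) * ((η ω : ℝ) - c ω * ξ ω - lz ω)| ≤ ((B ^ 2 * R : ℕ) : ℝ) := by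
        rw [abs_mul, abs_of_nonneg (hab ω).1]
        push_cast
        exact mul_le_mul (hab ω).2 (e3 ω hTω) (abs_nonneg _) (by positivity)
      obtain ⟨h4, h5⟩ := abs_le.mp h3
      have h6 := Int.floor_le (U ω)
      have h7 := Int.lt_floor_add_one (U ω)
      constructor
      · linarith
      · linarith

end GoLo
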