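import Pool.Agent.Helper524.GL.Sys
import Pool.Agent.Helper524.GL.Dig

set_option autoImplicit false
open Finset

namespace GoLo

lemma H_unit {Ω : Type} [Fintype Ω] {μ : Ω → ℝ} (h1 : ∑ ω, μ ω = 1) : H μ (fun _ : Ω => ()) = 0 := by
  unfold H pm
  refine Finset.sum_eq_zero fun ω _ => ?_
  simp [h1]

/-- subadditivity -/
lemma H_add {Ω α β : Type} [Fintype Ω] {μ : Ω → ℝ} (hμ : ∀ ω, 0 < μ ω) (h1 : ∑ ω, μ ω = 1) (f : Ω → α) (g : Ω → β) :
    H μ (fun ω => (f ω, g ω)) ≤ H μ f + H μ g := by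
  have := submod hμ h1 f g (fun _ => ()) (fun ω => (f ω, g ω)) (fun _ _ _ => rfl) (fun _ _ _ => rfl)
    (fun ω ω' h => h)
  rw [H_unit h1] at this
  linarith

lemma H_dig_le {Ω : Type} [Fintype Ω] {μ : Ω → ℝ} (hμ : ∀ ω, 0 < μ ω) (h1 : ∑ ω, μ ω = 1) (D : Ω → ℕ) (k : ℕ)
    (hD : ∀ ω, D ω < 2^k) : H μ D ≤ k * Real.log 2 := by
  have := H_le_log hμ h1 D (2^k) (by positivity) (Finset.range (2^k)) (by simp) (fun ω => Finset.mem_range.2 (hD ω))
  push_cast at this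
  rwa [Real.log_pow] at this

lemma step4_pair {Ω : Type} [Fintype Ω] {μ : Ω → ℝ} (hμ : ∀ ω, 0 < μ ω) (h1 : ∑ ω, μ ω = 1)
    (X Y Z : Ω → ℕ) (DX DY : Ω → ℕ) (dX : Det X DX) (dY : Det Y DY) (k : ℕ)
    (hX : ∀ ω, DX ω < 2^k) (hY : ∀ ω, DY ω < 2^k) (eta s : ℝ) (heta : 0 ≤ eta)
    (hf : (2/3 - eta) * ((H μ (fun ω => (DX ω, DY ω)) + H μ X - H μ (fun ω => ((DX ω, DY ω), X ω)))
      + (H μ (fun ω => (DX ω, DY ω)) + H μ Y - H μ (fun ω => ((DX ω, DY ω), Y ω)))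
      + (H μ (fun ω => (DX ω, DY ω)) + H μ Z - H μ (fun ω => ((DX ω, DY ω), Z ω))))
      ≤ H μ (fun ω => (DX ω, DY ω)))
    (eX : k * Real.log 2 - s ≤ H μ DX) (eY : k * Real.log 2 - s ≤ H μ DY)
    (st : H μ (fun ω => ((DX ω, DY ω), Z ω)) - H μ Z ≤ (k+1) * Real.log 2) :
    k * Real.log 2 - 2 * Real.log 2 - 3 * s - 18 * eta * (k * Real.log 2) ≤ H μ (fun ω => (DY ω, X ω)) - H μ X ∧
    k * Real.log 2 - 2 * Real.log 2 - 3 * s - 18 * eta * (k * Real.log 2) ≤ H μ (fun ω => (DX ω, Y ω)) - H μ Y := by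
  have hμ0 : ∀ ω, 0 ≤ μ ω := fun ω => (hμ ω).le
  have hl2 : 0 < Real.log 2 := Real.log_pos (by norm_num)
  set l := Real.log 2
  set F := H μ (fun ω => (DX ω, DY ω)) with hF
  have a1 : H μ (fun ω => ((DX ω, DY ω), X ω)) = H μ (fun ω => (DY ω, X ω)) := by
    apply H_congr
    · intro ω ω' h; simp only [Prod.mk.injEq] at h ⊢; exact ⟨h.1.2, h.2⟩
    · intro ω ω' h; simp only [Prod.mk.injEq] at h ⊢; exact ⟨⟨dX _ _ h.2, h.1⟩, h.2⟩
  have a2 : H μ (fun ω => ((DX ω, DY ω), Y ω)) = H μ (fun ω => (DX ω, Y ω)) := by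
    apply H_congr
    · intro ω ω' h; simp only [Prod.mk.injEq] at h ⊢; exact ⟨h.1.1, h.2⟩
    · intro ω ω' h; simp only [Prod.mk.injEq] at h ⊢; exact ⟨⟨h.1, dY _ _ h.2⟩, h.2⟩
  -- F ≥ H DX + A
  have b1 : H μ (fun ω => (DY ω, X ω)) + H μ DX ≤ F + H μ X := by
    apply submod hμ h1 (fun ω => (DX ω, DY ω)) X DX
    · intro ω ω' h; simp only [Prod.mk.injEq] at h; exact h.1
    · exact dX
    · intro ω ω' h; simp only [Prod.mk.injEq] at h ⊢; exact ⟨h.1.2, h.2⟩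
  have b2 : H μ (fun ω => (DX ω, Y ω)) + H μ DY ≤ F + H μ Y := by
    apply submod hμ h1 (fun ω => (DX ω, DY ω)) Y DY
    · intro ω ω' h; simp only [Prod.mk.injEq] at h; exact h.2
    · exact dY
    · intro ω ω' h; simp only [Prod.mk.injEq] at h ⊢; exact ⟨h.1.1, h.2⟩
  have b3 : F ≤ 2 * (k * l) := by
    have := H_add hμ h1 DX DY
    have c1 := H_dig_le hμ h1 DX k hX
    have c2 := H_dig_le hμ h1 DY k hY
    linarith
  rw [a1, a2] at hf
  set P := H μ (fun ω => (DY ω, X ω)) with hP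
  set Q := H μ (fun ω => (DX ω, Y ω)) with hQ
  have c1 : H μ X ≤ P := H_mono hμ0 (fun ω ω' h => by simp only [Prod.mk.injEq] at h; exact h.2)
  have c2 : H μ Y ≤ Q := H_mono hμ0 (fun ω ω' h => by simp only [Prod.mk.injEq] at h; exact h.2)
  have c3 : H μ Z ≤ H μ (fun ω => ((DX ω, DY ω), Z ω)) :=
    H_mono hμ0 (fun ω ω' h => by simp only [Prod.mk.injEq] at h; exact h.2)
  set RZ := H μ (fun ω => ((DX ω, DY ω), Z ω)) with hRZ
  -- 2F - (2/3)(A+B+C) - eta (3F - ...) ≤ F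
  have d1 : eta * ((F + H μ X - P) + (F + H μ Y - Q) + (F + H μ Z - RZ)) ≤ eta * (3 * F) :=
    mul_le_mul_of_nonneg_left (by linarith) heta
  have d2 : eta * (3 * F) ≤ eta * (3 * (2 * (k * l))) := mul_le_mul_of_nonneg_left (by linarith) heta
  have d3 : 3 * F ≤ 2 * ((P - H μ X) + (Q - H μ Y)) + 2 * ((k+1) * l) + 18 * eta * (k * l) := by
    nlinarith
  have m1 : (Q - H μ Y) + (k * l - 2 * l - 3 * s - 18 * eta * (k*l)) ≤ 2 * (P - H μ X) := by nlinarith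
  have m2 : (P - H μ X) + (k * l - 2 * l - 3 * s - 18 * eta * (k*l)) ≤ 2 * (Q - H μ Y) := by nlinarith
  constructor <;> linarith

lemma Fin3_cases (P : Fin 3 → Fin 3 → Prop) (h01 : P 0 1) (h02 : P 0 2) (h10 : P 1 0) (h12 : P 1 2) (h20 : P 2 0)
    (h21 : P 2 1) : ∀ i j, i ≠ j → P i j := by
  intro i j hij
  fin_cases i <;> fin_cases j
  · exact absurd rfl hij
  · exact h01
  · exact h02
  · exact h10
  · exact absurd rfl hij
  · exact h12
  · exact h20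
  · exact h21
  · exact absurd rfl hij

/-- From the variational output to the system. -/
theorem mk_sys (K : ℕ) (eta tau : ℝ) (heta : 0 ≤ eta) (htau : 0 ≤ tau)
    (hsmall : 4 * (2^K * tau) + 18 * eta * (K * Real.log 2) ≤ Real.log 2)
    (Ω : Type) [Fintype Ω] (μ : Ω → ℝ) (W : Fin 3 → Ω → ℕ)
    (hμ : ∀ ω, 0 < μ ω) (h1 : ∑ ω, μ ω = 1)
    (inj : ∀ i j, i ≠ j → ∀ ω ω', W i ω = W i ω' → W j ω = W j ω' → ω = ω')
    (mono : ∀ i j k, i ≠ j → i ≠ k → ∀ ω ω', W i ω = W i ω' → W j ω < W j ω' → W k ω < W k ω')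
    (hvar : ∀ (α : Type) (f : Ω → α),
        (2/3 - eta) * ∑ i, (H μ f + H μ (W i) - H μ (fun ω => (f ω, W i ω))) ≤ H μ f)
    (hatom : ∀ i ω, pm μ (W i) ω ≤ tau) :
    Sys Ω μ W (fun i k => dig μ (W i) k) K := by
  have hμ0 : ∀ ω, 0 ≤ μ ω := fun ω => (hμ ω).le
  have hl2 : 0 < Real.log 2 := Real.log_pos (by norm_num)
  set D : Fin 3 → ℕ → Ω → ℕ := fun i k => dig μ (W i) k with hD
  have Dlt : ∀ i k ω, D i k ω < 2^k := fun i k ω => dig_lt hμ h1 (W i) k ω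
  have Dmono : ∀ i k ω ω', W i ω ≤ W i ω' → D i k ω ≤ D i k ω' := fun i k ω ω' h => dig_mono hμ (W i) k ω ω' h
  have Dpre : ∀ i k v ω, D i (k+v) ω / 2^v = D i k ω := fun i k v ω => dig_pre μ (W i) k v ω
  have Ddet : ∀ i k, Det (W i) (D i k) := fun i k ω ω' h =>
    le_antisymm (Dmono _ _ _ _ h.le) (Dmono _ _ _ _ h.ge)
  have Dent : ∀ i (k:ℕ), k * Real.log 2 - 2^k * tau ≤ H μ (D i k) := fun i k => dig_entropy hμ h1 (W i) tau (hatom i) k
  have stair : ∀ i j l, i ≠ j → i ≠ l → j ≠ l → ∀ k : ℕ,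
    H μ (fun ω => ((D j k ω, D l k ω), W i ω)) - H μ (W i) ≤ (k+1) * Real.log 2 := by
    intro i j l hij hil hjl k
    refine staircase hμ h1 (W i) (W j) (W l) (fun ω ω' h => mono i j l hij hil ω ω' h) (D j k) (D l k) k
      (Dlt j k) (Dlt l k) (Dmono j k) (Dmono l k) ?_
    intro ω ω' h h'
    rw [inj i j hij ω ω' h h']
  -- pair estimates
  have pair : ∀ (X Y Z : Fin 3), X ≠ Y → Z ≠ X → Z ≠ Y → (∀ g : Fin 3 → ℝ, ∑ i, g i = g X + g Y + g Z) →
      ∀ k : ℕ,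
      (k * Real.log 2 - 2 * Real.log 2 - 3 * (2^k * tau) - 18 * eta * (k * Real.log 2)
        ≤ H μ (fun ω => (D Y k ω, W X ω)) - H μ (W X)) ∧
      (k * Real.log 2 - 2 * Real.log 2 - 3 * (2^k * tau) - 18 * eta * (k * Real.log 2)
        ≤ H μ (fun ω => (D X k ω, W Y ω)) - H μ (W Y)) := by
    intro X Y Z hXY hZX hZY hsum k
    refine step4_pair hμ h1 (W X) (W Y) (W Z) (D X k) (D Y k) (Ddet _ _) (Ddet _ _) k (Dlt _ _) (Dlt _ _) eta _ heta
      ?_ (Dent _ _) (Dent _ _) (stair Z X Y hZX hZY hXY k)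
    have := hvar _ (fun ω => (D X k ω, D Y k ω))
    rw [hsum] at this
    exact this
  have s01 : ∀ g : Fin 3 → ℝ, ∑ i, g i = g 0 + g 1 + g 2 := fun g => Fin.sum_univ_three g
  have s02 : ∀ g : Fin 3 → ℝ, ∑ i, g i = g 0 + g 2 + g 1 := fun g => by rw [Fin.sum_univ_three g]; ring
  have s12 : ∀ g : Fin 3 → ℝ, ∑ i, g i = g 1 + g 2 + g 0 := fun g => by rw [Fin.sum_univ_three g]; ring
  have p01 := pair 0 1 2 (by decide) (by decide) (by decide) s01
  have p02 := pair 0 2 1 (by decide) (by decide) (by decide) s02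
  have p12 := pair 1 2 0 (by decide) (by decide) (by decide) s12
  have pairs : ∀ i j : Fin 3, i ≠ j → ∀ k : ℕ,
      k * Real.log 2 - 2 * Real.log 2 - 3 * (2^k * tau) - 18 * eta * (k * Real.log 2)
        ≤ H μ (fun ω => (D j k ω, W i ω)) - H μ (W i) := by
    apply Fin3_cases
    · exact fun k => (p01 k).1
    · exact fun k => (p02 k).1
    · exact fun k => (p01 k).2
    · exact fun k => (p12 k).1
    · exact fun k => (p02 k).2
    · exact fun k => (p12 k).2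
  have sm : ∀ k : ℕ, k ≤ K → 4 * (2^k * tau) + 18 * eta * (k * Real.log 2) ≤ Real.log 2 := by
    intro k hk
    have e1 : (2:ℝ)^k ≤ 2^K := pow_le_pow_right₀ (by norm_num) hk
    have e2 : (k:ℝ) ≤ K := by exact_mod_cast hk
    have e3 := mul_le_mul_of_nonneg_right e1 htau
    have e4 : 18 * eta * (k * Real.log 2) ≤ 18 * eta * (K * Real.log 2) := by
      apply mul_le_mul_of_nonneg_left _ (by positivity)
      exact mul_le_mul_of_nonneg_right e2 hl2.le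
    linarith
  have tn : ∀ k : ℕ, 0 ≤ (2:ℝ)^k * tau := fun k => by positivity
  have en : ∀ k : ℕ, 0 ≤ 18 * eta * ((k:ℝ) * Real.log 2) := fun k => by positivity
  -- cell entropy bounds
  have CCup : ∀ k : ℕ, k ≤ K → H μ (CC D k) ≤ (2 * k + 3) * Real.log 2 := by
    intro k hk
    have hv := hvar _ (CC D k)
    rw [s01] at hv
    have q : ∀ i j l : Fin 3, i ≠ j → i ≠ l → j ≠ l → (∀ ω ω', (D i k ω = D i k ω' ∧ D j k ω = D j k ω' ∧ D l k ω = D l k ω') → CC D k ω = CC D k ω') →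
        H μ (fun ω => (CC D k ω, W i ω)) - H μ (W i) ≤ (k+1) * Real.log 2 := by
      intro i j l hij hil hjl hc
      refine le_trans (sub_le_sub_right (H_mono hμ0 ?_) _) (stair i j l hij hil hjl k)
      intro ω ω' h
      simp only [Prod.mk.injEq] at h ⊢
      exact ⟨hc _ _ ⟨Ddet _ _ _ _ h.2, h.1.1, h.1.2⟩, h.2⟩
    have q0 := q 0 1 2 (by decide) (by decide) (by decide) (fun ω ω' h => by simp only [CC, h.1, h.2.1, h.2.2])
    have q1 := q 1 0 2 (by decide) (by decide) (by decide) (fun ω ω' h => by simp only [CC, h.1, h.2.1, h.2.2])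
    have q2 := q 2 0 1 (by decide) (by decide) (by decide) (fun ω ω' h => by simp only [CC, h.1, h.2.1, h.2.2])
    have r : ∀ i : Fin 3, H μ (W i) ≤ H μ (fun ω => (CC D k ω, W i ω)) := fun i =>
      H_mono hμ0 (fun ω ω' h => by simp only [Prod.mk.injEq] at h; exact h.2)
    have r0 := r 0
    have r1 := r 1
    have r2 := r 2
    have F3 : H μ (CC D k) ≤ 3 * (k * Real.log 2) := by
      have c0 := H_dig_le hμ h1 (D 0 k) k (Dlt _ _)
      have c1 := H_dig_le hμ h1 (D 1 k) k (Dlt _ _)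
      have c2 := H_dig_le hμ h1 (D 2 k) k (Dlt _ _)
      have d1 := H_add hμ h1 (D 1 k) (D 2 k)
      have d2 := H_add hμ h1 (D 0 k) (fun ω => (D 1 k ω, D 2 k ω))
      have : H μ (CC D k) = H μ (fun ω => (D 0 k ω, D 1 k ω, D 2 k ω)) := rfl
      linarith
    set F := H μ (CC D k)
    have d1 : eta * ((F + H μ (W 0) - H μ (fun ω => (CC D k ω, W 0 ω))) + (F + H μ (W 1) - H μ (fun ω => (CC D k ω, W 1 ω)))
      + (F + H μ (W 2) - H μ (fun ω => (CC D k ω, W 2 ω)))) ≤ eta * (3 * F) :=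
      mul_le_mul_of_nonneg_left (by linarith) heta
    have d2 : eta * (3 * F) ≤ eta * (3 * (3 * (k * Real.log 2))) := mul_le_mul_of_nonneg_left (by linarith) heta
    have := sm k hk
    have := tn k
    nlinarith
  have CClo : ∀ k : ℕ, k ≤ K → (2 * k - 3) * Real.log 2 ≤ H μ (CC D k) := by
    intro k hk
    have b0 := pairs 0 1 (by decide) k
    have b1 : H μ (fun ω => (D 1 k ω, W 0 ω)) + H μ (D 0 k) ≤ H μ (fun ω => (D 0 k ω, D 1 k ω)) + H μ (W 0) := by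
      apply submod hμ h1 (fun ω => (D 0 k ω, D 1 k ω)) (W 0) (D 0 k)
      · intro ω ω' h; simp only [Prod.mk.injEq] at h; exact h.1
      · exact Ddet _ _
      · intro ω ω' h; simp only [Prod.mk.injEq] at h ⊢; exact ⟨h.1.2, h.2⟩
    have b2 : H μ (fun ω => (D 0 k ω, D 1 k ω)) ≤ H μ (CC D k) := H_mono hμ0 (fun ω ω' h => by
      simp only [CC, Prod.mk.injEq] at h ⊢; exact ⟨h.1, h.2.1⟩)
    have b3 := Dent 0 k
    have := sm k hk
    linarith
  refine ⟨hμ, h1, inj, mono, Dlt, Dmono, Dpre, ?_, stair, ?_⟩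
  · intro i j hij k hk
    have := pairs i j hij k
    have := sm k hk
    have := tn k
    linarith
  · intro k V hkV
    have a := CCup (k+V) hkV
    have b := CClo k (by omega)
    push_cast at a
    linarith

end GoLo
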