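import Pool.Agent.Helper524.GL.Typ
import Pool.Agent.Helper524.GL.Step4
import Pool.Agent.Helper524.GL.Loc

set_option autoImplicit false
open Finset

namespace GoLo

/-- rounding of the slopes -/
noncomputable def lab {Ω : Type} (B v : ℕ) (a : Fin 3 → Ω → ℝ) (i : Fin 3) (ω : Ω) : ℕ :=
  ⌊(2:ℝ)^v * min (a i ω) B⌋₊

noncomputable def Lab {Ω : Type} (B v : ℕ) (a : Fin 3 → Ω → ℝ) (ω : Ω) : ℕ × ℕ × ℕ :=
  (lab B v a 0 ω, lab B v a 1 ω, lab B v a 2 ω)

lemma Lab_det {Ω : Type} (B v : ℕ) (a : Fin 3 → Ω → ℝ) (i : Fin 3) : Det (Lab B v a) (lab B v a i) := by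
  intro ω ω' h
  simp only [Lab, Prod.mk.injEq] at h
  fin_cases i
  · exact h.1
  · exact h.2.1
  · exact h.2.2

lemma lab_le {Ω : Type} (B v : ℕ) (a : Fin 3 → Ω → ℝ) (i : Fin 3) (ω : Ω) : lab B v a i ω ≤ 2^v * B := by
  unfold lab
  have : (2:ℝ)^v * min (a i ω) B ≤ ((2^v * B : ℕ) : ℝ) := by
    push_cast
    exact mul_le_mul_of_nonneg_left (min_le_right _ _) (by positivity)
  exact (Nat.floor_le_floor this).trans (by rw [Nat.floor_natCast])

lemma H_Lab {Ω : Type} [Fintype Ω] {μ : Ω → ℝ} (hμ : ∀ ω, 0 < μ ω) (h1 : ∑ ω, μ ω = 1)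
    (B v : ℕ) (a : Fin 3 → Ω → ℝ) : H μ (Lab B v a) ≤ 3 * Real.log ((2^v * B + 1 : ℕ)) := by
  have h := H_le_log hμ h1 (Lab B v a) ((2^v * B + 1)^3) (by positivity)
    ((Finset.range (2^v * B + 1)) ×ˢ (Finset.range (2^v * B + 1)) ×ˢ (Finset.range (2^v * B + 1)))
    (by rw [Finset.card_product, Finset.card_product, Finset.card_range]; apply le_of_eq; ring)
    (by
      intro ω
      simp only [Finset.mem_product, Finset.mem_range, Lab]
      have := lab_le B v a 0 ω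
      have := lab_le B v a 1 ω
      have := lab_le B v a 2 ω
      omega)
  refine h.trans (le_of_eq ?_)
  push_cast
  rw [Real.log_pow]
  norm_num

section window

variable {Ω : Type} [Fintype Ω] {μ : Ω → ℝ} {W : Fin 3 → Ω → ℕ} {D : Fin 3 → ℕ → Ω → ℕ} {K : ℕ}

lemma Sys.Ddet (h : Sys Ω μ W D K) (i : Fin 3) (k : ℕ) : Det (W i) (D i k) := fun ω ω' hh =>
  le_antisymm (h.Dmono _ _ _ _ hh.le) (h.Dmono _ _ _ _ hh.ge)

lemma Sys.pre_det (h : Sys Ω μ W D K) (i : Fin 3) (k v : ℕ) : Det (D i (k+v)) (D i k) := fun ω ω' hh => by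
  rw [← h.Dpre i k v ω, ← h.Dpre i k v ω', hh]

lemma Sys.pre_det' (h : Sys Ω μ W D K) (i : Fin 3) (k k' : ℕ) (hk : k ≤ k') : Det (D i k') (D i k) := by
  obtain ⟨v, rfl⟩ := Nat.exists_eq_add_of_le hk
  exact h.pre_det i k v

lemma Sys.CC_pre (h : Sys Ω μ W D K) (k k' : ℕ) (hk : k ≤ k') : Det (CC D k') (CC D k) := fun ω ω' hh => by
  have a := h.pre_det' 0 k k' hk ω ω' (CC_det D k' 0 _ _ hh)
  have b := h.pre_det' 1 k k' hk ω ω' (CC_det D k' 1 _ _ hh)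
  have c := h.pre_det' 2 k k' hk ω ω' (CC_det D k' 2 _ _ hh)
  simp only [CC, a, b, c]

lemma Sys.split (h : Sys Ω μ W D K) (i : Fin 3) (k v : ℕ) (ω : Ω) :
    (D i (k+v) ω : ℝ) = 2^v * D i k ω + (D i (k+v) ω % 2^v : ℕ) := by
  have := Nat.div_add_mod (D i (k+v) ω) (2^v)
  rw [h.Dpre] at this
  have h2 : ((2^v * D i k ω + D i (k+v) ω % 2^v : ℕ) : ℝ) = D i (k+v) ω := by rw [this]
  rw [← h2]
  push_cast
  rfl

/-- relation at intermediate levels -/
lemma rel_level (h : Sys Ω μ W D K) {B V k0 : ℕ} {T : Ω → Prop} {a lm : Fin 3 → Ω → ℝ}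
    (t : Typ Ω μ W D B V k0 T a lm) (i : Fin 3) (ω : Ω) (hT : T ω) (k e : ℕ) (hke : k + e = k0 + V) :
    |(D (i+2) k ω : ℝ) - a i ω * D (i+1) k ω - lm i ω / 2^e| ≤ 4 * (1 + B) := by
  have r := t.rel i ω hT
  have a0 := t.a0 i ω
  have aB := t.aB i ω hT
  rw [← hke] at r
  have s2 := h.split (i+2) k e ω
  have s1 := h.split (i+1) k e ω
  have m2 : ((D (i+2) (k+e) ω % 2^e : ℕ) : ℝ) < 2^e := by
    have := Nat.mod_lt (D (i+2) (k+e) ω) (by positivity : 0 < 2^e)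
    exact_mod_cast this
  have m1 : ((D (i+1) (k+e) ω % 2^e : ℕ) : ℝ) < 2^e := by
    have := Nat.mod_lt (D (i+1) (k+e) ω) (by positivity : 0 < 2^e)
    exact_mod_cast this
  have n2 : (0:ℝ) ≤ ((D (i+2) (k+e) ω % 2^e : ℕ) : ℝ) := by positivity
  have n1 : (0:ℝ) ≤ ((D (i+1) (k+e) ω % 2^e : ℕ) : ℝ) := by positivity
  rw [s2, s1] at r
  set r2 := ((D (i+2) (k+e) ω % 2^e : ℕ) : ℝ)
  set r1 := ((D (i+1) (k+e) ω % 2^e : ℕ) : ℝ)
  have hp : (0:ℝ) < 2^e := by positivity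
  have hp1 : (1:ℝ) ≤ 2^e := one_le_pow₀ (by norm_num)
  have e1 : (2:ℝ)^e * ((D (i+2) k ω : ℝ) - a i ω * D (i+1) k ω - lm i ω / 2^e)
      = (2^e * D (i+2) k ω + r2 - a i ω * (2^e * D (i+1) k ω + r1) - lm i ω) + (a i ω * r1 - r2) := by
    field_simp
    ring
  have hB : (0:ℝ) ≤ B := by positivity
  have e2 : |a i ω * r1 - r2| ≤ (1 + B) * 2^e := by
    rw [abs_le]
    constructor
    · nlinarith [mul_nonneg a0 n1]
    · nlinarith [mul_le_mul aB m1.le n1 hB]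
  have e3 : |(2:ℝ)^e * ((D (i+2) k ω : ℝ) - a i ω * D (i+1) k ω - lm i ω / 2^e)| ≤ 3 * (1+B) + (1+B) * 2^e := by
    rw [e1]
    exact (abs_add_le _ _).trans (add_le_add r e2)
  rw [abs_mul, abs_of_pos hp] at e3
  have e4 : 3 * (1+B) + (1+B) * (2:ℝ)^e ≤ 2^e * (4 * (1+B)) := by nlinarith
  exact le_of_mul_le_mul_left (e3.trans e4) hp

/-- one window -/
lemma window_step (h : Sys Ω μ W D K) {B V k0 : ℕ} (hB : 1 ≤ B) {T : Ω → Prop} {a lm : Fin 3 → Ω → ℝ}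
    (t : Typ Ω μ W D B V k0 T a lm) (hK : k0 + V ≤ K) (v k e : ℕ) (hk0 : k0 ≤ k) (hke : k + v + e = k0 + V) :
    (∑ i : Fin 3, (H μ (fun ω => (D (i+1) (k+v) ω, W i ω, Lab B v a ω)) - H μ (fun ω => (D (i+1) k ω, W i ω, Lab B v a ω))))
      - (12 * Real.log 2 + 6 * (Real.log 2 + Real.log ((2*B^2*(4*B+5)+3 : ℕ)) + (1/12) * Real.log ((5*B^2*2^v : ℕ))))
    ≤ H μ (fun ω => (CC D (k+v) ω, Lab B v a ω)) - H μ (fun ω => (CC D k ω, Lab B v a ω)) := by
  have hμ0 : ∀ ω, 0 ≤ μ ω := fun ω => (h.pos ω).le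
  set L := Lab B v a with hL
  set G : Ω → (ℕ × ℕ × ℕ) × (ℕ × ℕ × ℕ) := fun ω => (CC D k ω, L ω) with hG
  set d : Fin 3 → Ω → ℕ := fun j ω => D j (k+v) ω % 2^v with hd
  set q : Fin 3 → Ω → ℝ := fun i ω => (lab B v a i ω : ℝ) / 2^v with hq
  set lam : Fin 3 → Ω → ℝ := fun i ω => lm i ω / 2^e - 2^v * ((D (i+2) k ω : ℝ) - a i ω * D (i+1) k ω) with hlam
  have hdd : ∀ i, Det (W i) (d i) := fun i ω ω' hh => by
    simp only [hd]
    rw [h.Ddet i (k+v) ω ω' hh]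
  have hdd' : ∀ i, Det (fun ω => (W i ω, G ω)) (d i) := fun i ω ω' hh => by
    simp only [Prod.mk.injEq] at hh
    exact hdd i _ _ hh.1
  have hdM : ∀ i ω, d i ω < 2^v := fun i ω => Nat.mod_lt _ (by positivity)
  have hqd : ∀ i, Det G (q i) := fun i ω ω' hh => by
    simp only [hG, Prod.mk.injEq] at hh
    simp only [hq]
    rw [Lab_det B v a i ω ω' hh.2]
  have hv : (0:ℝ) < 2^v := by positivity
  have hqB : ∀ i ω, 0 ≤ q i ω ∧ q i ω ≤ B := fun i ω => by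
    refine ⟨by positivity, ?_⟩
    simp only [hq]
    rw [div_le_iff₀ hv]
    have := lab_le B v a i ω
    have : ((lab B v a i ω : ℕ):ℝ) ≤ ((2^v * B : ℕ) : ℝ) := by exact_mod_cast this
    push_cast at this
    linarith
  have hld : ∀ i, Det (fun ω => (W i ω, G ω)) (lam i) := fun i ω ω' hh => by
    simp only [hG, Prod.mk.injEq] at hh
    obtain ⟨hW, hC, _⟩ := hh
    have hC0 := h.CC_pre k0 k hk0 ω ω' hC
    have a1 := t.deta i ω ω' (by simp [hW, hC0])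
    have a2 := t.detl i ω ω' (by simp [hW, hC0])
    simp only [hlam]
    rw [a1, a2, CC_det D k (i+2) ω ω' hC, CC_det D k (i+1) ω ω' hC]
  have hrel : ∀ i ω, T ω → |(d (i+2) ω : ℝ) - q i ω * d (i+1) ω - lam i ω| ≤ ((4*B+5 : ℕ) : ℝ) := by
    intro i ω hT
    have r := rel_level h t i ω hT (k+v) e hke
    have s2 := h.split (i+2) k v ω
    have s1 := h.split (i+1) k v ω
    have e1 : (d (i+2) ω : ℝ) - q i ω * d (i+1) ω - lam i ω
        = ((D (i+2) (k+v) ω : ℝ) - a i ω * D (i+1) (k+v) ω - lm i ω / 2^e) + (a i ω - q i ω) * d (i+1) ω := by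
      rw [s2, s1]
      simp only [hlam, hd]
      ring
    have aB := t.aB i ω hT
    have a0 := t.a0 i ω
    have hmin : min (a i ω) (B:ℝ) = a i ω := min_eq_left aB
    have f1 : (lab B v a i ω : ℝ) ≤ 2^v * a i ω := by
      unfold lab
      rw [hmin]
      exact Nat.floor_le (by positivity)
    have f2 : (2:ℝ)^v * a i ω < lab B v a i ω + 1 := by
      unfold lab
      rw [hmin]
      exact Nat.lt_floor_add_one _
    have g1 : 0 ≤ a i ω - q i ω := by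
      simp only [hq]
      rw [sub_nonneg, div_le_iff₀ hv]
      linarith
    have g2 : (a i ω - q i ω) * 2^v ≤ 1 := by
      simp only [hq]
      rw [sub_mul, div_mul_cancel₀ _ hv.ne']
      linarith
    have g3 : (d (i+1) ω : ℝ) ≤ 2^v := by
      have := (hdM (i+1) ω).le
      exact_mod_cast this
    have g4 : (0:ℝ) ≤ d (i+1) ω := by positivity
    have g5 : |(a i ω - q i ω) * d (i+1) ω| ≤ 1 := by
      rw [abs_of_nonneg (by positivity)]
      exact (mul_le_mul_of_nonneg_left g3 g1).trans g2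
    rw [e1]
    refine (abs_add_le _ _).trans ?_
    push_cast
    linarith
  have key := local_lemma h.pos h.sum (W 0) (W 1) (W 2) G (d 0) (d 1) (d 2) (hdd' 0) (hdd' 1) (hdd' 2)
    (2^v) (by positivity) (hdM 0) (hdM 1) (hdM 2) (q 0) (q 1) (q 2) (hqd 0) (hqd 1) (hqd 2) B (4*B+5) hB
    (hqB 0) (hqB 1) (hqB 2) (lam 0) (lam 1) (lam 2) (hld 0) (hld 1) (hld 2) T t.mass
    (hrel 0) (hrel 1) (hrel 2)
  -- identify the entropies
  have ediv : ∀ i, ∀ ω ω', D i k ω = D i k ω' → d i ω = d i ω' → D i (k+v) ω = D i (k+v) ω' := by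
    intro i ω ω' h1 h2
    rw [← Nat.div_add_mod (D i (k+v) ω) (2^v), ← Nat.div_add_mod (D i (k+v) ω') (2^v), h.Dpre, h.Dpre, h1]
    have : D i (k+v) ω % 2^v = D i (k+v) ω' % 2^v := h2
    rw [this]
  have E1 : H μ (fun ω => (d 0 ω, d 1 ω, d 2 ω, G ω)) = H μ (fun ω => (CC D (k+v) ω, L ω)) := by
    apply H_congr
    · intro ω ω' hh
      simp only [hG, Prod.mk.injEq] at hh ⊢
      obtain ⟨h0, h1, h2, hC, hL⟩ := hh
      refine ⟨?_, hL⟩
      have c0 := ediv 0 ω ω' (CC_det D k 0 _ _ hC) h0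
      have c1 := ediv 1 ω ω' (CC_det D k 1 _ _ hC) h1
      have c2 := ediv 2 ω ω' (CC_det D k 2 _ _ hC) h2
      simp only [CC, c0, c1, c2]
    · intro ω ω' hh
      simp only [hG, Prod.mk.injEq] at hh ⊢
      obtain ⟨hC, hL⟩ := hh
      have c : ∀ i, d i ω = d i ω' := fun i => by
        simp only [hd]; rw [CC_det D (k+v) i _ _ hC]
      exact ⟨c 0, c 1, c 2, h.CC_pre k (k+v) (by omega) _ _ hC, hL⟩
  -- lower bounds
  have low : ∀ (i j l : Fin 3), i ≠ j → i ≠ l → l ≠ j → (∀ ω ω', D i k ω = D i k ω' → D j k ω = D j k ω' → D l k ω = D l k ω' → CC D k ω = CC D k ω') →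
      H μ (fun ω => (D j (k+v) ω, W i ω, L ω)) - H μ (fun ω => (D j k ω, W i ω, L ω)) - 4 * Real.log 2
        ≤ H μ (fun ω => (d j ω, W i ω, G ω)) - H μ (fun ω => (W i ω, G ω)) := by
    intro i j l hij hil hlj hc
    have u1 : H μ (fun ω => (D j (k+v) ω, W i ω, L ω)) ≤ H μ (fun ω => (d j ω, W i ω, G ω)) := by
      apply H_mono hμ0
      intro ω ω' hh
      simp only [hG, Prod.mk.injEq] at hh ⊢
      obtain ⟨h1, h2, h3, h4⟩ := hh
      exact ⟨ediv j _ _ (CC_det D k j _ _ h3) h1, h2, h4⟩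
    have u2 : H μ (fun ω => (W i ω, G ω)) + H μ (fun ω => (D j k ω, W i ω))
        ≤ H μ (fun ω => (D j k ω, W i ω, L ω)) + H μ (fun ω => ((D l k ω, D j k ω), W i ω)) := by
      apply submod h.pos h.sum (fun ω => (D j k ω, W i ω, L ω)) (fun ω => ((D l k ω, D j k ω), W i ω)) (fun ω => (D j k ω, W i ω))
      · intro ω ω' hh; simp only [Prod.mk.injEq] at hh ⊢; exact ⟨hh.1, hh.2.1⟩
      · intro ω ω' hh; simp only [Prod.mk.injEq] at hh ⊢; exact ⟨hh.1.2, hh.2⟩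
      · intro ω ω' hh
        simp only [hG, Prod.mk.injEq] at hh ⊢
        obtain ⟨⟨h1, h2, h3⟩, ⟨h4, _⟩, _⟩ := hh
        exact ⟨h2, hc _ _ (h.Ddet _ _ _ _ h2) h1 h4, h3⟩
    have u3 := h.stair i l j hil hij hlj k
    have u4 := h.ent i j hij k (by omega)
    linarith
  have l0 := low 0 1 2 (by decide) (by decide) (by decide) (fun ω ω' a b c => by simp only [CC, a, b, c])
  have l1 := low 1 2 0 (by decide) (by decide) (by decide) (fun ω ω' a b c => by simp only [CC, a, b, c])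
  have l2 := low 2 0 1 (by decide) (by decide) (by decide) (fun ω ω' a b c => by simp only [CC, a, b, c])
  rw [E1] at key
  rw [Fin.sum_univ_three]
  have z01 : (0 + 1 : Fin 3) = 1 := rfl
  have z11 : (1 + 1 : Fin 3) = 2 := rfl
  have z21 : (2 + 1 : Fin 3) = 0 := rfl
  rw [z01, z11, z21]
  have : H μ G = H μ (fun ω => (CC D k ω, L ω)) := rfl
  linarith

/-- all windows -/
lemma windows (h : Sys Ω μ W D K) {B V k0 : ℕ} (hB : 1 ≤ B) {T : Ω → Prop} {a lm : Fin 3 → Ω → ℝ}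
    (t : Typ Ω μ W D B V k0 T a lm) (hK : k0 + V ≤ K) (v : ℕ) (n : ℕ) (hn : n * v ≤ V) :
    (∑ i : Fin 3, (H μ (fun ω => (D (i+1) (k0+n*v) ω, W i ω, Lab B v a ω)) - H μ (fun ω => (D (i+1) k0 ω, W i ω, Lab B v a ω))))
      - n * (12 * Real.log 2 + 6 * (Real.log 2 + Real.log ((2*B^2*(4*B+5)+3 : ℕ)) + (1/12) * Real.log ((5*B^2*2^v : ℕ))))
    ≤ H μ (fun ω => (CC D (k0+n*v) ω, Lab B v a ω)) - H μ (fun ω => (CC D k0 ω, Lab B v a ω)) := by
  induction n with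
  | zero => simp
  | succ n ih =>
    have hn' : n * v ≤ V := le_trans (Nat.mul_le_mul_right v (Nat.le_succ n)) hn
    have ih := ih hn'
    have hs : (n+1) * v = n * v + v := by ring
    rw [hs] at hn ⊢
    have st := window_step h hB t hK v (k0 + n * v) (V - (n*v+v)) (by omega) (by omega)
    rw [← add_assoc k0 (n*v) v]
    rw [Fin.sum_univ_three] at st ih ⊢
    push_cast
    push_cast at st ih
    linarith

end window

/-- no system with suitable parameters -/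
theorem no_sys : ∃ K : ℕ, ∀ (Ω : Type) [Fintype Ω] (μ : Ω → ℝ) (W : Fin 3 → Ω → ℕ) (D : Fin 3 → ℕ → Ω → ℕ),
    Sys Ω μ W D K → False := by
  have hl2 : 0 < Real.log 2 := Real.log_pos (by norm_num)
  obtain ⟨B, hB⟩ := exists_nat_ge (144 * Real.exp 600)
  have hB1 : 1 ≤ B := by
    have : (1:ℝ) ≤ B := by
      have := Real.add_one_le_exp (600:ℝ)
      linarith
    exact_mod_cast this
  set c1 : ℝ := 18 * Real.log 2 + 6 * Real.log ((2*B^2*(4*B+5)+3 : ℕ)) + (1/2) * Real.log ((5*B^2 : ℕ)) with hc1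
  obtain ⟨v, hv⟩ := exists_nat_ge (2 * (c1 + 1) / Real.log 2)
  have hv' : c1 + 1 ≤ v / 2 * Real.log 2 := by
    rw [div_le_iff₀ hl2] at hv
    linarith
  obtain ⟨n, hn⟩ := exists_nat_gt (15 * Real.log 2 + 9 * Real.log ((2^v * B + 1 : ℕ)))
  set V := n * v with hV
  obtain ⟨nK, hnK⟩ := exists_typ B hB V
  refine ⟨V * nK, ?_⟩
  intro Ω _ μ W D h
  obtain ⟨k0, hk0, T, a, lm, t⟩ := hnK Ω μ W D h
  have w := windows h hB1 t hk0 v n le_rfl
  rw [← hV] at w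
  have hμ0 : ∀ ω, 0 ≤ μ ω := fun ω => (h.pos ω).le
  set L := Lab B v a with hL
  have HL : H μ L ≤ 3 * Real.log ((2^v * B + 1 : ℕ)) := H_Lab h.pos h.sum B v a
  -- upper bound
  have up1 : H μ (fun ω => (CC D (k0+V) ω, L ω)) + H μ (CC D k0) ≤ H μ (CC D (k0+V)) + H μ (fun ω => (CC D k0 ω, L ω)) := by
    apply submod h.pos h.sum (CC D (k0+V)) (fun ω => (CC D k0 ω, L ω)) (CC D k0)
    · exact h.CC_pre k0 (k0+V) (by omega)
    · intro ω ω' hh; simp only [Prod.mk.injEq] at hh; exact hh.1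
    · intro ω ω' hh; simp only [Prod.mk.injEq] at hh ⊢; exact ⟨hh.1, hh.2.2⟩
  have up2 := h.up k0 V hk0
  -- lower bound
  have lo : ∀ i : Fin 3, ((V:ℝ) - 3) * Real.log 2 - H μ L ≤ H μ (fun ω => (D (i+1) (k0+V) ω, W i ω, L ω)) - H μ (fun ω => (D (i+1) k0 ω, W i ω, L ω)) := by
    intro i
    have hne1 : i ≠ i + 1 := by revert i; decide
    have b1 := h.ent i (i+1) hne1 (k0+V) hk0
    have b2 : H μ (fun ω => (D (i+1) (k0+V) ω, W i ω)) ≤ H μ (fun ω => (D (i+1) (k0+V) ω, W i ω, L ω)) :=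
      H_mono hμ0 (fun ω ω' hh => by simp only [Prod.mk.injEq] at hh ⊢; exact ⟨hh.1, hh.2.1⟩)
    have b3 : H μ (fun ω => (D (i+1) k0 ω, W i ω, L ω)) ≤ H μ (fun ω => (D (i+1) k0 ω, (W i ω, L ω))) := le_rfl
    have b4 := H_add h.pos h.sum (D (i+1) k0) (fun ω => (W i ω, L ω))
    have b5 := H_add h.pos h.sum (W i) L
    have b6 := H_dig_le h.pos h.sum (D (i+1) k0) k0 (fun ω => h.Dlt _ _ _)
    push_cast at b1
    linarith
  rw [Fin.sum_univ_three] at w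
  have lo0 := lo 0
  have lo1 := lo 1
  have lo2 := lo 2
  have e1 : Real.log ((5*B^2*2^v : ℕ)) = Real.log ((5*B^2 : ℕ)) + v * Real.log 2 := by
    have hB0 : (B:ℝ) ≠ 0 := by positivity
    push_cast
    rw [Real.log_mul (by positivity) (by positivity), Real.log_pow]
  rw [e1] at w
  have hVr : (V:ℝ) = n * v := by rw [hV]; push_cast; rfl
  have fin : (n:ℝ) * (v / 2 * Real.log 2 - c1) ≤ 15 * Real.log 2 + 9 * Real.log ((2^v * B + 1 : ℕ)) := by
    have : (n:ℝ) * (v / 2 * Real.log 2 - c1) = (V:ℝ) * Real.log 2 - n * (12 * Real.log 2 + 6 * (Real.log 2 + Real.log ((2*B^2*(4*B+5)+3 : ℕ)) + (1/12) * (Real.log ((5*B^2 : ℕ)) + v * Real.log 2))) := by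
      rw [hVr, hc1]
      ring
    rw [this]
    linarith
  have : (n:ℝ) * 1 ≤ n * (v / 2 * Real.log 2 - c1) := mul_le_mul_of_nonneg_left (by linarith) (by positivity)
  linarith

end GoLo
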