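import Pool.Agent.Helper524.GL.Ent

set_option autoImplicit false
open Finset

namespace GoLo

/-- key sum of the Gibbs inequality -/
lemma gibbs_key {Ω α β : Type*} [Fintype Ω] {μ : Ω → ℝ} (hμ : ∀ ω, 0 < μ ω)
    (h1 : ∑ ω, μ ω = 1) (f : Ω → α) (g : Ω → β) (A : Finset α)
    (hA : ∀ ω, f ω ∈ A) (Q : α → β → ℝ) (hQ0 : ∀ a b, 0 ≤ Q a b) (hQ1 : ∀ b, ∑ a ∈ A, Q a b ≤ 1) :
    ∑ ω, μ ω * (pm μ g ω * Q (f ω) (g ω) / pm μ (fun ω => (f ω, g ω)) ω) ≤ 1 := by
  classical
  set F : Ω → α × β := fun ω => (f ω, g ω) with hF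
  have hμ0 : ∀ ω, 0 ≤ μ ω := fun ω => (hμ ω).le
  have e : ∀ ω, μ ω * (pm μ g ω * Q (f ω) (g ω) / pm μ F ω)
      = ∑ ω', if g ω' = g ω then μ ω' * (μ ω / pm μ F ω * Q (f ω) (g ω')) else 0 := by
    intro ω
    have : μ ω * (pm μ g ω * Q (f ω) (g ω) / pm μ F ω)
      = pm μ g ω * (μ ω / pm μ F ω * Q (f ω) (g ω)) := by ring
    rw [this, pm, Finset.sum_mul]
    refine Finset.sum_congr rfl fun ω' _ => ?_
    by_cases h : g ω' = g ω
    · rw [if_pos h, if_pos h, h]
    · rw [if_neg h, if_neg h, zero_mul]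
  rw [Finset.sum_congr rfl fun ω _ => e ω, Finset.sum_comm]
  rw [← h1]
  refine Finset.sum_le_sum fun ω' _ => ?_
  have e2 : ∀ ω, (if g ω' = g ω then μ ω' * (μ ω / pm μ F ω * Q (f ω) (g ω')) else 0)
      = μ ω' * ∑ a ∈ A, (if F ω = (a, g ω') then μ ω / pm μ F ω else 0) * Q a (g ω') := by
    intro ω
    by_cases h : g ω' = g ω
    · rw [if_pos h]
      congr 1
      rw [Finset.sum_eq_single (f ω)]
      · rw [if_pos (by rw [hF]; simp [h])]
      · intro b _ hb
        rw [if_neg, zero_mul]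
        intro h'
        exact hb (by have := congrArg Prod.fst h'; simpa [hF] using this.symm)
      · intro h'; exact absurd (hA ω) h'
    · rw [if_neg h]
      rw [Finset.sum_eq_zero, mul_zero]
      intro a _
      rw [if_neg, zero_mul]
      intro h'
      exact h (by have := congrArg Prod.snd h'; simpa [hF] using this.symm)
  rw [Finset.sum_congr rfl fun ω _ => e2 ω, ← Finset.mul_sum]
  refine mul_le_of_le_one_right (hμ0 _) ?_
  rw [Finset.sum_comm]
  refine le_trans (Finset.sum_le_sum fun a _ => ?_) (hQ1 (g ω'))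
  rw [← Finset.sum_mul]
  refine mul_le_of_le_one_left (hQ0 _ _) ?_
  refine le_trans (le_of_eq ?_) (class_sum_le_one hμ0 F (a, g ω'))
  refine Finset.sum_congr rfl fun ω _ => ?_
  congr

lemma gibbs_key' {Ω α β : Type*} [Fintype Ω] {μ : Ω → ℝ} (hμ : ∀ ω, 0 < μ ω)
    (h1 : ∑ ω, μ ω = 1) (f : Ω → α) (g : Ω → β) (A : Finset α)
    (hA : ∀ ω, f ω ∈ A) (N : ℕ) (hN : 0 < N) (hAN : A.card ≤ N) :
    ∑ ω, μ ω * (pm μ g ω / ((N:ℝ) * pm μ (fun ω => (f ω, g ω)) ω)) ≤ 1 := by
  have hN' : (0:ℝ) < N := by exact_mod_cast hN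
  have h := gibbs_key hμ h1 f g A hA (fun _ _ => 1 / (N:ℝ)) (fun _ _ => by positivity)
    (fun _ => by
      rw [Finset.sum_const, nsmul_eq_mul, mul_one_div, div_le_one hN']
      exact_mod_cast hAN)
  refine le_trans (le_of_eq ?_) h
  refine Finset.sum_congr rfl fun ω _ => ?_
  have p1 := pm_pos hμ g ω
  have p2 := pm_pos hμ (fun ω => (f ω, g ω)) ω
  field_simp

/-- expected log ratio -/
lemma exp_log_ratio {Ω α β : Type*} [Fintype Ω] {μ : Ω → ℝ} (hμ : ∀ ω, 0 < μ ω)
    (h1 : ∑ ω, μ ω = 1) (f : Ω → α) (g : Ω → β) (N : ℕ) (hN : 0 < N) :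
    ∑ ω, μ ω * Real.log ((N:ℝ) * pm μ (fun ω => (f ω, g ω)) ω / pm μ g ω) =
      Real.log N - (H μ (fun ω => (f ω, g ω)) - H μ g) := by
  have hN' : (0:ℝ) < N := by exact_mod_cast hN
  have e : Real.log N = ∑ ω, μ ω * Real.log N := by rw [← Finset.sum_mul, h1, one_mul]
  rw [e]
  unfold H
  rw [← Finset.sum_sub_distrib, ← Finset.sum_sub_distrib]
  refine Finset.sum_congr rfl fun ω _ => ?_
  have p1 := pm_pos hμ g ω
  have p2 := pm_pos hμ (fun ω => (f ω, g ω)) ω
  rw [Real.log_div (by positivity) p1.ne', Real.log_mul hN'.ne' p2.ne']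
  ring

/-- few points have small relative mass -/
theorem rho_low {Ω : Type} [Fintype Ω] {μ : Ω → ℝ} (hμ : ∀ ω, 0 < μ ω) (h1 : ∑ ω, μ ω = 1)
    {α β : Type} (X : Ω → α) (D : Ω → β) (A : Finset β) (N : ℕ) (hN : 0 < N) (hA : A.card ≤ N) (hD : ∀ ω, D ω ∈ A)
    (t : ℝ) (ht : 0 ≤ t) :
    ∑ ω, (open Classical in if (N:ℝ) * pm μ (fun ω => (D ω, X ω)) ω < t * pm μ X ω then μ ω else 0) ≤ t := by
  classical
  have hN' : (0:ℝ) < N := by exact_mod_cast hN
  have h := gibbs_key' hμ h1 D X A hD N hN hA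
  calc ∑ ω, (open Classical in if (N:ℝ) * pm μ (fun ω => (D ω, X ω)) ω < t * pm μ X ω then μ ω else 0)
      ≤ ∑ ω, t * (μ ω * (pm μ X ω / ((N:ℝ) * pm μ (fun ω => (D ω, X ω)) ω))) := by
        refine Finset.sum_le_sum fun ω _ => ?_
        have p1 := pm_pos hμ X ω
        have p2 := pm_pos hμ (fun ω => (D ω, X ω)) ω
        have p3 := hμ ω
        split_ifs with hc
        · have : 1 ≤ t * (pm μ X ω / ((N:ℝ) * pm μ (fun ω => (D ω, X ω)) ω)) := by
            rw [← mul_div_assoc, le_div_iff₀ (by positivity), one_mul]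
            exact hc.le
          nlinarith
        · positivity
    _ = t * ∑ ω, μ ω * (pm μ X ω / ((N:ℝ) * pm μ (fun ω => (D ω, X ω)) ω)) := by
        rw [Finset.mul_sum]
    _ ≤ t * 1 := mul_le_mul_of_nonneg_left h ht
    _ = t := mul_one t

/-- few points have large relative mass, if the conditional entropy of `D` given `X` is nearly maximal -/
theorem rho_high {Ω : Type} [Fintype Ω] {μ : Ω → ℝ} (hμ : ∀ ω, 0 < μ ω) (h1 : ∑ ω, μ ω = 1)
    {α β : Type} (X : Ω → α) (D : Ω → β) (A : Finset β) (N : ℕ) (hN : 0 < N) (hA : A.card ≤ N) (hD : ∀ ω, D ω ∈ A)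
    (κ : ℝ) (hH : Real.log N - κ ≤ H μ (fun ω => (D ω, X ω)) - H μ X) (L : ℝ) (hL : 0 < L) :
    ∑ ω, (open Classical in if Real.exp L * pm μ X ω < (N:ℝ) * pm μ (fun ω => (D ω, X ω)) ω then μ ω else 0)
      ≤ (κ + 1) / L := by
  classical
  have hN' : (0:ℝ) < N := by exact_mod_cast hN
  have h := gibbs_key' hμ h1 D X A hD N hN hA
  have h2 := exp_log_ratio hμ h1 D X N hN
  rw [le_div_iff₀ hL, Finset.sum_mul]
  calc ∑ ω, (open Classical in if Real.exp L * pm μ X ω < (N:ℝ) * pm μ (fun ω => (D ω, X ω)) ω then μ ω else 0) * L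
      ≤ ∑ ω, (μ ω * Real.log ((N:ℝ) * pm μ (fun ω => (D ω, X ω)) ω / pm μ X ω) +
          μ ω * (pm μ X ω / ((N:ℝ) * pm μ (fun ω => (D ω, X ω)) ω))) := by
        refine Finset.sum_le_sum fun ω _ => ?_
        have p1 := pm_pos hμ X ω
        have p2 := pm_pos hμ (fun ω => (D ω, X ω)) ω
        have p3 := hμ ω
        have p4 : 0 < (N:ℝ) * pm μ (fun ω => (D ω, X ω)) ω / pm μ X ω := by positivity
        have p5 : 0 < pm μ X ω / ((N:ℝ) * pm μ (fun ω => (D ω, X ω)) ω) := by positivity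
        rw [← mul_add]
        split_ifs with hc
        · have : L < Real.log ((N:ℝ) * pm μ (fun ω => (D ω, X ω)) ω / pm μ X ω) := by
            rw [Real.lt_log_iff_exp_lt p4, lt_div_iff₀ p1]
            exact hc
          apply mul_le_mul_of_nonneg_left _ p3.le
          linarith
        · rw [zero_mul]
          have := Real.one_sub_inv_le_log_of_pos p4
          rw [inv_div] at this
          apply mul_nonneg p3.le
          linarith
    _ ≤ κ + 1 := by
        rw [Finset.sum_add_distrib, h2]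
        linarith

lemma phi_sqrt (x : ℝ) (hx : 0 ≤ x) :
    (Real.sqrt x - 1) ^ 2 ≤ x * Real.log x - x + 1 := by
  rcases hx.eq_or_lt with h | h
  · rw [← h]; simp
  · obtain ⟨y, hy, rfl⟩ : ∃ y : ℝ, 0 < y ∧ x = y ^ 2 :=
      ⟨Real.sqrt x, Real.sqrt_pos.2 h, (Real.sq_sqrt hx).symm⟩
    rw [Real.sqrt_sq hy.le, Real.log_pow]
    have h1 := Real.one_sub_inv_le_log_of_pos hy
    have h2 : y ^ 2 * (1 - y⁻¹) ≤ y ^ 2 * Real.log y := by gcongr
    have h3 : y ^ 2 * (1 - y⁻¹) = y ^ 2 - y := by field_simp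
    rw [h3] at h2
    push_cast
    nlinarith

/-- nearly maximal conditional entropy of the integer variable `s ∈ [0,N)` given `X` forces, for most `ω`,
the conditional law of `s` in the class of `X ω` to be nearly uniform (cumulative form). -/
theorem near_uniform {Ω : Type} [Fintype Ω] {μ : Ω → ℝ} (hμ : ∀ ω, 0 < μ ω) (h1 : ∑ ω, μ ω = 1)
    {α : Type} (X : Ω → α) (s : Ω → ℕ) (N : ℕ) (hN : 0 < N) (hs : ∀ ω, s ω < N)
    (δ0 δ1 : ℝ) (hδ1 : 0 < δ1)
    (hH : Real.log N - δ0 ≤ H μ (fun ω => (s ω, X ω)) - H μ X) :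
    ∑ ω, (open Classical in if (∀ s' : ℕ, s' ≤ N →
        |(∑ ω', if X ω' = X ω ∧ s ω' < s' then μ ω' else 0) - pm μ X ω * (s' / N)| ≤ pm μ X ω * (2 * N * Real.sqrt δ1))
      then 0 else μ ω) ≤ δ0 / δ1 := by
  classical
  have hN' : (0:ℝ) < N := by exact_mod_cast hN
  have hN1 : (1:ℝ) ≤ N := by exact_mod_cast hN
  set G : Ω → ℝ := fun ω => Real.log ((N:ℝ) * pm μ (fun ω => (s ω, X ω)) ω / pm μ X ω) with hG
  have hEG : ∑ ω, μ ω * G ω ≤ δ0 := by
    have := exp_log_ratio hμ h1 s X N hN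
    simp only [hG]
    rw [this]
    linarith
  set KL : Ω → ℝ := fun ω => (∑ ω', (if X ω' = X ω then μ ω' * G ω' else 0)) / pm μ X ω with hKL
  have htower : ∑ ω, μ ω * KL ω = ∑ ω, μ ω * G ω := tower hμ X G
  set q : Ω → ℕ → ℝ := fun ω t => ∑ ω', if X ω' = X ω ∧ s ω' = t then μ ω' else 0 with hq
  have hq0 : ∀ ω t, 0 ≤ q ω t := fun ω t => Finset.sum_nonneg fun ω' _ => by
    split_ifs; exacts [(hμ _).le, le_rfl]
  have hqsum : ∀ ω (m : ℕ), ∑ t ∈ Finset.range m, q ω t =
      ∑ ω', if X ω' = X ω ∧ s ω' < m then μ ω' else 0 := by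
    intro ω m
    simp only [hq]
    rw [Finset.sum_comm]
    refine Finset.sum_congr rfl fun ω' _ => ?_
    by_cases hX : X ω' = X ω
    · by_cases hm : s ω' < m
      · rw [if_pos ⟨hX, hm⟩, Finset.sum_eq_single (s ω')]
        · rw [if_pos ⟨hX, rfl⟩]
        · intro t _ ht
          rw [if_neg]
          rintro ⟨_, h⟩
          exact ht h.symm
        · intro h
          exact absurd (Finset.mem_range.2 hm) h
      · rw [if_neg (fun h => hm h.2)]
        refine Finset.sum_eq_zero fun t ht => ?_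
        rw [if_neg]
        rintro ⟨_, h⟩
        rw [Finset.mem_range, ← h] at ht
        exact hm ht
    · rw [if_neg (fun h => hX h.1)]
      refine Finset.sum_eq_zero fun t ht => ?_
      rw [if_neg (fun h => hX h.1)]
  have hqN : ∀ ω, ∑ t ∈ Finset.range N, q ω t = pm μ X ω := by
    intro ω
    rw [hqsum]
    unfold pm
    refine Finset.sum_congr rfl fun ω' _ => ?_
    by_cases hX : X ω' = X ω
    · rw [if_pos ⟨hX, hs ω'⟩, if_pos hX]
    · rw [if_neg (fun h => hX h.1), if_neg hX]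
  have hqG : ∀ ω, ∑ ω', (if X ω' = X ω then μ ω' * G ω' else 0) =
      ∑ t ∈ Finset.range N, q ω t * Real.log (N * (q ω t / pm μ X ω)) := by
    intro ω
    have e1 : ∀ t, q ω t * Real.log (N * (q ω t / pm μ X ω)) =
        ∑ ω', if X ω' = X ω ∧ s ω' = t then μ ω' * Real.log (N * (q ω t / pm μ X ω)) else 0 := by
      intro t
      conv_lhs => rw [hq]
      simp only
      rw [Finset.sum_mul]
      refine Finset.sum_congr rfl fun ω' _ => ?_
      split_ifs
      · rfl
      · rw [zero_mul]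
    rw [Finset.sum_congr rfl fun t _ => e1 t, Finset.sum_comm]
    refine Finset.sum_congr rfl fun ω' _ => ?_
    by_cases hX : X ω' = X ω
    · rw [if_pos hX, Finset.sum_eq_single (s ω')]
      · rw [if_pos ⟨hX, rfl⟩]
        congr 1
        simp only [hG]
        congr 1
        rw [mul_div_assoc]
        congr 1
        rw [pm_class hX]
        congr 1
        unfold pm
        simp only [hq]
        refine Finset.sum_congr rfl fun ω'' _ => ?_
        by_cases h3 : X ω'' = X ω ∧ s ω'' = s ω'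
        · rw [if_pos h3, if_pos]
          rw [h3.1, h3.2, hX]
        · rw [if_neg h3, if_neg]
          intro h4
          rw [Prod.mk.injEq] at h4
          exact h3 ⟨h4.2.trans hX, h4.1⟩
      · intro t _ ht
        rw [if_neg]
        rintro ⟨_, h⟩
        exact ht h.symm
      · intro h
        exact absurd (Finset.mem_range.2 (hs ω')) h
    · rw [if_neg hX]
      symm
      refine Finset.sum_eq_zero fun t ht => ?_
      rw [if_neg (fun h => hX h.1)]
  -- normalised version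
  have hKLp : ∀ ω, KL ω = ∑ t ∈ Finset.range N, (1 / (N:ℝ)) *
      ((N * (q ω t / pm μ X ω)) * Real.log (N * (q ω t / pm μ X ω)) -
        (N * (q ω t / pm μ X ω)) + 1) := by
    intro ω
    have p1 := pm_pos hμ X ω
    simp only [hKL]
    rw [hqG, Finset.sum_div]
    have e1 : ∀ t ∈ Finset.range N, (1 / (N:ℝ)) *
      ((N * (q ω t / pm μ X ω)) * Real.log (N * (q ω t / pm μ X ω)) -
        (N * (q ω t / pm μ X ω)) + 1) =
        q ω t * Real.log (N * (q ω t / pm μ X ω)) / pm μ X ω - q ω t / pm μ X ω + 1 / (N:ℝ) := by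
      intro t _
      field_simp
    rw [Finset.sum_congr rfl e1, Finset.sum_add_distrib, Finset.sum_sub_distrib,
      ← Finset.sum_div (f := fun t => q ω t), hqN, div_self p1.ne', Finset.sum_const,
      Finset.card_range, nsmul_eq_mul, mul_one_div, div_self hN'.ne']
    ring
  have hphi0 : ∀ ω t, 0 ≤ (1 / (N:ℝ)) *
      ((N * (q ω t / pm μ X ω)) * Real.log (N * (q ω t / pm μ X ω)) -
        (N * (q ω t / pm μ X ω)) + 1) := by
    intro ω t
    have p1 := pm_pos hμ X ω
    have p2 := hq0 ω t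
    have := phi_sqrt (N * (q ω t / pm μ X ω)) (by positivity)
    have h3 := sq_nonneg (Real.sqrt (N * (q ω t / pm μ X ω)) - 1)
    apply mul_nonneg (by positivity)
    linarith
  have hKL0 : ∀ ω, 0 ≤ KL ω := by
    intro ω
    rw [hKLp]
    exact Finset.sum_nonneg fun t _ => hphi0 ω t
  have hmain : ∀ ω, KL ω ≤ δ1 → ∀ s' : ℕ, s' ≤ N →
        |(∑ ω', if X ω' = X ω ∧ s ω' < s' then μ ω' else 0) - pm μ X ω * (s' / N)| ≤
          pm μ X ω * (2 * N * Real.sqrt δ1) := by
    intro ω hω s' hs'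
    have p1 := pm_pos hμ X ω
    have hpt : ∀ t ∈ Finset.range N, |q ω t / pm μ X ω - 1 / N| ≤ 2 * Real.sqrt δ1 := by
      intro t ht
      have p2 := hq0 ω t
      have hle1 : q ω t / pm μ X ω ≤ 1 := by
        rw [div_le_one p1, ← hqN ω]
        exact Finset.single_le_sum (f := fun t => q ω t) (fun i _ => hq0 ω i) ht
      obtain ⟨y, hy, hyx⟩ : ∃ y : ℝ, 0 ≤ y ∧ N * (q ω t / pm μ X ω) = y ^ 2 :=
        ⟨Real.sqrt (N * (q ω t / pm μ X ω)), Real.sqrt_nonneg _,
          (Real.sq_sqrt (by positivity)).symm⟩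
      have h3 : (1 / (N:ℝ)) * ((N * (q ω t / pm μ X ω)) * Real.log (N * (q ω t / pm μ X ω)) -
        (N * (q ω t / pm μ X ω)) + 1) ≤ δ1 := by
        refine le_trans ?_ hω
        rw [hKLp]
        exact Finset.single_le_sum (f := fun t => (1 / (N:ℝ)) *
          ((N * (q ω t / pm μ X ω)) * Real.log (N * (q ω t / pm μ X ω)) -
          (N * (q ω t / pm μ X ω)) + 1)) (fun i _ => hphi0 ω i) ht
      have h4 := phi_sqrt (N * (q ω t / pm μ X ω)) (by positivity)
      rw [hyx] at h3 h4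
      rw [Real.sqrt_sq hy] at h4
      have h5 : (y - 1) ^ 2 ≤ N * δ1 := by
        rw [one_div, inv_mul_le_iff₀ hN'] at h3
        linarith
      have hsN : 1 ≤ Real.sqrt N := by
        rw [Real.one_le_sqrt]; exact hN1
      have hsN2 : Real.sqrt N ^ 2 = N := Real.sq_sqrt hN'.le
      have h6 : |y - 1| ≤ Real.sqrt N * Real.sqrt δ1 := by
        rw [← Real.sqrt_mul hN'.le]
        exact Real.abs_le_sqrt h5
      have h7 : y ≤ Real.sqrt N := by
        apply Real.le_sqrt_of_sq_le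
        rw [← hyx]
        nlinarith
      have h8 : q ω t / pm μ X ω - 1 / N = (y - 1) * (y + 1) / N := by
        have : q ω t / pm μ X ω = y ^ 2 / N := by
          rw [← hyx]; field_simp
        rw [this]; ring
      rw [h8, abs_div, abs_mul, abs_of_pos hN', div_le_iff₀ hN', abs_of_nonneg (by linarith : 0 ≤ y + 1)]
      have hs1 := Real.sqrt_nonneg δ1
      calc |y - 1| * (y + 1) ≤ (Real.sqrt N * Real.sqrt δ1) * (Real.sqrt N + Real.sqrt N) := by
            apply mul_le_mul h6 (by linarith) (by linarith) (by positivity)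
        _ = 2 * Real.sqrt δ1 * (Real.sqrt N ^ 2) := by ring
        _ = 2 * Real.sqrt δ1 * N := by rw [hsN2]
    rw [← hqsum]
    have e5 : (∑ t ∈ Finset.range s', q ω t) - pm μ X ω * (s' / N) =
        pm μ X ω * ∑ t ∈ Finset.range s', (q ω t / pm μ X ω - 1 / N) := by
      rw [Finset.sum_sub_distrib, ← Finset.sum_div, Finset.sum_const, Finset.card_range,
        nsmul_eq_mul, mul_sub]
      congr 1
      · field_simp
      · ring
    rw [e5, abs_mul, abs_of_pos p1]
    apply mul_le_mul_of_nonneg_left _ p1.le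
    calc |∑ t ∈ Finset.range s', (q ω t / pm μ X ω - 1 / N)|
        ≤ ∑ t ∈ Finset.range s', |q ω t / pm μ X ω - 1 / N| := Finset.abs_sum_le_sum_abs _ _
      _ ≤ ∑ t ∈ Finset.range s', 2 * Real.sqrt δ1 := by
          refine Finset.sum_le_sum fun t ht => hpt t ?_
          rw [Finset.mem_range] at ht ⊢
          omega
      _ = s' * (2 * Real.sqrt δ1) := by rw [Finset.sum_const, Finset.card_range, nsmul_eq_mul]
      _ ≤ N * (2 * Real.sqrt δ1) := by
          have : (s':ℝ) ≤ N := by exact_mod_cast hs'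
          gcongr
      _ = 2 * N * Real.sqrt δ1 := by ring
  rw [le_div_iff₀ hδ1, Finset.sum_mul]
  refine le_trans (Finset.sum_le_sum fun ω _ => ?_) (htower.le.trans hEG)
  have p3 := (hμ ω).le
  split_ifs with hc
  · rw [zero_mul]
    exact mul_nonneg p3 (hKL0 ω)
  · apply mul_le_mul_of_nonneg_left _ p3
    by_contra hcon
    push Not at hcon
    exact hc (hmain ω hcon.le)

end GoLo
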