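import Pool.Agent.Helper524.GL.Ent

set_option autoImplicit false
open Finset

namespace GoLo

/-- joint cell at level `k` -/
def CC {Ω : Type} (D : Fin 3 → ℕ → Ω → ℕ) (k : ℕ) (ω : Ω) : ℕ × ℕ × ℕ := (D 0 k ω, D 1 k ω, D 2 k ω)

structure Sys (Ω : Type) [Fintype Ω] (μ : Ω → ℝ) (W : Fin 3 → Ω → ℕ) (D : Fin 3 → ℕ → Ω → ℕ)
    (K : ℕ) : Prop where
  pos : ∀ ω, 0 < μ ω
  sum : ∑ ω, μ ω = 1
  inj : ∀ i j, i ≠ j → ∀ ω ω', W i ω = W i ω' → W j ω = W j ω' → ω = ω'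
  mono : ∀ i j k, i ≠ j → i ≠ k → ∀ ω ω', W i ω = W i ω' → W j ω < W j ω' → W k ω < W k ω'
  Dlt : ∀ i k ω, D i k ω < 2^k
  Dmono : ∀ i k ω ω', W i ω ≤ W i ω' → D i k ω ≤ D i k ω'
  Dpre : ∀ i k v ω, D i (k+v) ω / 2^v = D i k ω
  ent : ∀ i j, i ≠ j → ∀ k : ℕ, k ≤ K →
    ((k:ℝ)-3) * Real.log 2 ≤ H μ (fun ω => (D j k ω, W i ω)) - H μ (W i)
  stair : ∀ i j l, i ≠ j → i ≠ l → j ≠ l → ∀ k : ℕ,
    H μ (fun ω => ((D j k ω, D l k ω), W i ω)) - H μ (W i) ≤ (k+1) * Real.log 2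
  up : ∀ k V : ℕ, k + V ≤ K → H μ (CC D (k+V)) - H μ (CC D k) ≤ (2*V+6) * Real.log 2

/-- output of the typicality analysis at the window `[k0, k0+V]` -/
structure Typ (Ω : Type) [Fintype Ω] (μ : Ω → ℝ) (W : Fin 3 → Ω → ℕ) (D : Fin 3 → ℕ → Ω → ℕ)
    (B : ℕ) (V k0 : ℕ) (T : Ω → Prop) (a lm : Fin 3 → Ω → ℝ) : Prop where
  mass : ∑ ω, (open Classical in if T ω then 0 else μ ω) ≤ 1/12
  deta : ∀ i, Det (fun ω => (W i ω, CC D k0 ω)) (a i)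
  detl : ∀ i, Det (fun ω => (W i ω, CC D k0 ω)) (lm i)
  a0 : ∀ i ω, 0 ≤ a i ω
  aB : ∀ i ω, T ω → a i ω ≤ B
  rel : ∀ i ω, T ω → |(D (i+2) (k0+V) ω : ℝ) - a i ω * D (i+1) (k0+V) ω - lm i ω| ≤ 3 * (1 + B)

end GoLo
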