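import Pool.Agent.S05873

set_option autoImplicit false

namespace GoLo

/-- two triples of natural numbers are comparable -/
def Cmp (s t : ℕ × ℕ × ℕ) : Prop :=
  (t.1 < s.1 ∧ t.2.1 < s.2.1) ∨ (t.1 < s.1 ∧ t.2.2 < s.2.2) ∨
  (t.2.1 < s.2.1 ∧ t.2.2 < s.2.2) ∨
  (s.1 < t.1 ∧ s.2.1 < t.2.1) ∨ (s.1 < t.1 ∧ s.2.2 < t.2.2) ∨
  (s.2.1 < t.2.1 ∧ s.2.2 < t.2.2)

/-- product of two points -/
def tens (M : ℕ) (p : (ℕ × ℕ × ℕ) × (ℕ × ℕ × ℕ)) : ℕ × ℕ × ℕ :=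
  (M * p.1.1 + p.2.1, M * p.1.2.1 + p.2.2.1, M * p.1.2.2 + p.2.2.2)

lemma lt_of_lt_block {M a b c d : ℕ} (h : a < b) (hc : c < M) : M * a + c < M * b + d := by
  have : M * (a + 1) ≤ M * b := Nat.mul_le_mul_left M h
  rw [Nat.mul_add, Nat.mul_one] at this
  omega

lemma block_inj {M a b c d : ℕ} (hc : c < M) (hd : d < M) (h : M * a + c = M * b + d) : a = b ∧ c = d := by
  rcases lt_trichotomy a b with hab | hab | hab
  · have := lt_of_lt_block (d := d) hab hc; omega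
  · subst hab; exact ⟨rfl, by omega⟩
  · have := lt_of_lt_block (d := c) hab hd; omega

lemma tens_set (N M : ℕ) (S T : Finset (ℕ × ℕ × ℕ))
    (hS : ∀ s ∈ S, s.1 < N ∧ s.2.1 < N ∧ s.2.2 < N) (hT : ∀ s ∈ T, s.1 < M ∧ s.2.1 < M ∧ s.2.2 < M)
    (cS : ∀ s ∈ S, ∀ t ∈ S, s ≠ t → Cmp s t) (cT : ∀ s ∈ T, ∀ t ∈ T, s ≠ t → Cmp s t) :
    ∃ U : Finset (ℕ × ℕ × ℕ), (∀ s ∈ U, s.1 < M * N ∧ s.2.1 < M * N ∧ s.2.2 < M * N) ∧
      (∀ s ∈ U, ∀ t ∈ U, s ≠ t → Cmp s t) ∧ U.card = S.card * T.card := by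
  classical
  refine ⟨(S ×ˢ T).image (tens M), ?_, ?_, ?_⟩
  · intro u hu
    rw [Finset.mem_image] at hu
    obtain ⟨⟨s, t⟩, hst, rfl⟩ := hu
    rw [Finset.mem_product] at hst
    obtain ⟨hs, ht⟩ := hst
    obtain ⟨a1, a2, a3⟩ := hS s hs
    obtain ⟨b1, b2, b3⟩ := hT t ht
    have e : ∀ a c : ℕ, a < N → c < M → M * a + c < M * N := by
      intro a c h1 h2
      have := lt_of_lt_block (M := M) (d := 0) h1 h2
      simpa using this
    exact ⟨e _ _ a1 b1, e _ _ a2 b2, e _ _ a3 b3⟩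
  · intro u hu w hw huw
    rw [Finset.mem_image] at hu hw
    obtain ⟨⟨s, t⟩, hst, rfl⟩ := hu
    obtain ⟨⟨s', t'⟩, hst', rfl⟩ := hw
    rw [Finset.mem_product] at hst hst'
    obtain ⟨hs, ht⟩ := hst
    obtain ⟨hs', ht'⟩ := hst'
    simp only at hs ht hs' ht'
    obtain ⟨b1, b2, b3⟩ := hT t ht
    obtain ⟨b1', b2', b3'⟩ := hT t' ht'
    by_cases h : s = s'
    · subst h
      have hne : t ≠ t' := by rintro rfl; exact huw rfl
      have := cT t ht t' ht' hne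
      unfold Cmp at this ⊢
      simp only [tens]
      omega
    · have := cS s hs s' hs' h
      unfold Cmp at this ⊢
      simp only [tens]
      rcases this with ⟨h1, h2⟩ | ⟨h1, h2⟩ | ⟨h1, h2⟩ | ⟨h1, h2⟩ | ⟨h1, h2⟩ | ⟨h1, h2⟩
      · exact Or.inl ⟨lt_of_lt_block h1 b1', lt_of_lt_block h2 b2'⟩
      · exact Or.inr (Or.inl ⟨lt_of_lt_block h1 b1', lt_of_lt_block h2 b3'⟩)
      · exact Or.inr (Or.inr (Or.inl ⟨lt_of_lt_block h1 b2', lt_of_lt_block h2 b3'⟩))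
      · exact Or.inr (Or.inr (Or.inr (Or.inl ⟨lt_of_lt_block h1 b1, lt_of_lt_block h2 b2⟩)))
      · exact Or.inr (Or.inr (Or.inr (Or.inr (Or.inl ⟨lt_of_lt_block h1 b1, lt_of_lt_block h2 b3⟩))))
      · exact Or.inr (Or.inr (Or.inr (Or.inr (Or.inr ⟨lt_of_lt_block h1 b2, lt_of_lt_block h2 b3⟩))))
  · rw [Finset.card_image_of_injOn, Finset.card_product]
    rintro ⟨s, t⟩ hst ⟨s', t'⟩ hst' he
    rw [Finset.mem_coe, Finset.mem_product] at hst hst'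
    obtain ⟨hs, ht⟩ := hst
    obtain ⟨hs', ht'⟩ := hst'
    simp only at hs ht hs' ht'
    obtain ⟨b1, b2, b3⟩ := hT t ht
    obtain ⟨b1', b2', b3'⟩ := hT t' ht'
    simp only [tens, Prod.mk.injEq] at he
    obtain ⟨e1, e2, e3⟩ := he
    have f1 := block_inj b1 b1' e1
    have f2 := block_inj b2 b2' e2
    have f3 := block_inj b3 b3' e3
    have hs1 : s = s' := Prod.ext f1.1 (Prod.ext f2.1 f3.1)
    have ht1 : t = t' := Prod.ext f1.2 (Prod.ext f2.2 f3.2)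
    rw [hs1, ht1]

lemma tens_pow (N : ℕ) (S : Finset (ℕ × ℕ × ℕ))
    (hS : ∀ s ∈ S, s.1 < N ∧ s.2.1 < N ∧ s.2.2 < N) (cS : ∀ s ∈ S, ∀ t ∈ S, s ≠ t → Cmp s t) (p : ℕ) :
    ∃ U : Finset (ℕ × ℕ × ℕ), (∀ s ∈ U, s.1 < N^p ∧ s.2.1 < N^p ∧ s.2.2 < N^p) ∧
      (∀ s ∈ U, ∀ t ∈ U, s ≠ t → Cmp s t) ∧ U.card = S.card ^ p := by
  induction p with
  | zero =>
    refine ⟨{(0,0,0)}, ?_, ?_, by simp⟩
    · intro s hs; rw [Finset.mem_singleton] at hs; subst hs; simp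
    · intro s hs t ht h; rw [Finset.mem_singleton] at hs ht; subst hs; subst ht; exact absurd rfl h
  | succ p ih =>
    obtain ⟨U, h1, h2, h3⟩ := ih
    obtain ⟨V, k1, k2, k3⟩ := tens_set (N^p) N U S h1 hS h2 cS
    refine ⟨V, ?_, k2, ?_⟩
    · intro s hs
      have := k1 s hs
      have e : N ^ (p+1) = N * N^p := by ring
      rw [e]
      exact this
    · rw [k3, h3]; ring

/-- Constant-free power saving. -/
theorem power_saving : ∃ δ : ℝ, 0 < δ ∧ ∀ N : ℕ, ∀ S : Finset (ℕ × ℕ × ℕ),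
    (∀ s ∈ S, s.1 < N ∧ s.2.1 < N ∧ s.2.2 < N) → (∀ s ∈ S, ∀ t ∈ S, s ≠ t → Cmp s t) →
    (S.card : ℝ) ≤ (N : ℝ) ^ (2 - δ) := by
  obtain ⟨δ, hδ, C, hC⟩ := Pool.Agent.S05873.result
  refine ⟨δ, hδ, ?_⟩
  intro N S hS cS
  rcases Nat.eq_zero_or_pos N with hN | hN
  · have : S = ∅ := by
      rw [Finset.eq_empty_iff_forall_notMem]
      intro s hs
      have := (hS s hs).1
      omega
    subst this
    simp only [Finset.card_empty, Nat.cast_zero]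
    positivity
  have hN' : (0:ℝ) < N := by exact_mod_cast hN
  by_contra hcon
  push Not at hcon
  set x : ℝ := (N:ℝ)^(2-δ) with hx
  have hx0 : 0 < x := Real.rpow_pos_of_pos hN' _
  set q : ℝ := (S.card : ℝ) / x with hq
  have hq1 : 1 < q := by rw [hq, lt_div_iff₀ hx0]; linarith
  have key : ∀ p : ℕ, q ^ p ≤ C := by
    intro p
    obtain ⟨U, h1, h2, h3⟩ := tens_pow N S hS cS p
    have := hC (N^p) U h1 (fun s hs t ht h => h2 s hs t ht h)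
    rw [h3] at this
    push_cast at this
    rw [hq, div_pow, div_le_iff₀ (by positivity)]
    refine this.trans (le_of_eq ?_)
    congr 1
    rw [hx, ← Real.rpow_natCast, ← Real.rpow_natCast, ← Real.rpow_mul hN'.le, ← Real.rpow_mul hN'.le, mul_comm]
  obtain ⟨p, hp⟩ := pow_unbounded_of_one_lt C hq1
  exact absurd (key p) (not_le.2 hp)

end GoLo
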