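import Pool.Agent.Helper524.GL.Sys
import Pool.Agent.Helper524.GL.Rho

set_option autoImplicit false
open Finset

namespace GoLo

open Classical in
/-- mass of the complement -/
noncomputable def bad {Ω : Type} [Fintype Ω] (μ : Ω → ℝ) (P : Ω → Prop) : ℝ := ∑ ω, if P ω then 0 else μ ω

open Classical in
/-- mass of `s < s'` in the class of `X ω` -/
noncomputable def cumm {Ω α : Type} [Fintype Ω] (μ : Ω → ℝ) (X : Ω → α) (s : Ω → ℕ) (s' : ℕ) (ω : Ω) : ℝ :=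
  ∑ ω', if X ω' = X ω ∧ s ω' < s' then μ ω' else 0

/-- near uniformity of the conditional law of `s` in the class of `X ω` -/
def NUp {Ω α : Type} [Fintype Ω] (μ : Ω → ℝ) (X : Ω → α) (s : Ω → ℕ) (N : ℕ) (ω : Ω) : Prop :=
  ∀ s' : ℕ, s' ≤ N → |cumm μ X s s' ω - pm μ X ω * (s' / N)| ≤ pm μ X ω * (1 / N)

open Classical in
/-- mass of cells strictly below, inside a class of `X` -/
noncomputable def below {Ω : Type} [Fintype Ω] (μ : Ω → ℝ) (X : Ω → ℕ) (DY : Ω → ℕ) (ω : Ω) : ℝ :=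
  ∑ ω', if X ω' = X ω ∧ DY ω' < DY ω then μ ω' else 0

lemma below_det {Ω : Type} [Fintype Ω] (μ : Ω → ℝ) (X : Ω → ℕ) (DY : Ω → ℕ) :
    Det (fun ω => (X ω, DY ω)) (below μ X DY) := by
  intro ω ω' h
  simp only [Prod.mk.injEq] at h
  unfold below
  rw [h.1, h.2]

lemma pm_det {Ω α : Type} [Fintype Ω] (μ : Ω → ℝ) (f : Ω → α) :
    Det f (pm μ f) := by
  intro ω ω' h
  exact pm_class h

lemma mass_cell {Ω : Type} [Fintype Ω] {μ : Ω → ℝ} (hμ : ∀ ω, 0 < μ ω)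
    (X Y : Ω → ℕ) (DY sY : Ω → ℕ) (N : ℕ)
    (m1 : ∀ ω ω', Y ω ≤ Y ω' → DY ω ≤ DY ω')
    (m2 : ∀ ω ω', Y ω ≤ Y ω' → N * DY ω + sY ω ≤ N * DY ω' + sY ω')
    (hs : ∀ ω, sY ω < N) (ω : Ω)
    (hu : NUp μ (fun ω => (DY ω, X ω)) sY N ω) :
    below μ X DY ω + pm μ (fun ω => (DY ω, X ω)) ω / N * ((sY ω : ℝ) - 1)
      ≤ (∑ ω', (open Classical in if X ω' = X ω ∧ Y ω' < Y ω then μ ω' else 0)) ∧
    (∑ ω', (open Classical in if X ω' = X ω ∧ Y ω' < Y ω then μ ω' else 0))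
      ≤ below μ X DY ω + pm μ (fun ω => (DY ω, X ω)) ω / N * ((sY ω : ℝ) + 2) := by
  classical
  have hμ0 : ∀ ω, 0 ≤ μ ω := fun ω => (hμ ω).le
  have conv : ∀ s' : ℕ, cumm μ (fun ω => (DY ω, X ω)) sY s' ω
      = ∑ ω', (if (DY ω', X ω') = (DY ω, X ω) ∧ sY ω' < s' then μ ω' else 0) := by
    intro s'
    unfold cumm
    refine Finset.sum_congr rfl fun ω' _ => ?_
    by_cases hh : (DY ω', X ω') = (DY ω, X ω) ∧ sY ω' < s'
    · exact (if_pos hh).trans (if_pos hh).symm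
    · exact (if_neg hh).trans (if_neg hh).symm
  have l1 := hu (sY ω) (hs ω).le
  have l2 := hu (sY ω + 1) (hs ω)
  rw [conv] at l1 l2
  rw [abs_le] at l1 l2
  set P := pm μ (fun ω => (DY ω, X ω)) ω
  have i1 : below μ X DY ω + (∑ ω', (if (DY ω', X ω') = (DY ω, X ω) ∧ sY ω' < sY ω then μ ω' else 0))
      ≤ ∑ ω', (if X ω' = X ω ∧ Y ω' < Y ω then μ ω' else 0) := by
    unfold below
    rw [← Finset.sum_add_distrib]
    refine Finset.sum_le_sum fun ω' _ => ?_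
    by_cases hX : X ω' = X ω
    · by_cases hY : Y ω' < Y ω
      · rw [if_pos (⟨hX, hY⟩ : X ω' = X ω ∧ Y ω' < Y ω)]
        by_cases hD : DY ω' < DY ω
        · rw [if_pos ⟨hX, hD⟩, if_neg]
          · simp
          · rintro ⟨h, _⟩
            simp only [Prod.mk.injEq] at h
            omega
        · rw [if_neg (fun h => hD h.2), zero_add]
          split_ifs
          · exact le_rfl
          · exact hμ0 _
      · have h1 := m1 ω ω' (not_lt.1 hY)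
        have h2 := m2 ω ω' (not_lt.1 hY)
        have c1 : ¬ (X ω' = X ω ∧ DY ω' < DY ω) := by rintro ⟨_, h3⟩; omega
        have c2 : ¬ ((DY ω', X ω') = (DY ω, X ω) ∧ sY ω' < sY ω) := by
          rintro ⟨h, h3⟩
          simp only [Prod.mk.injEq] at h
          rw [h.1] at h2
          omega
        have c3 : ¬ (X ω' = X ω ∧ Y ω' < Y ω) := fun h => hY h.2
        rw [if_neg c1, if_neg c2, if_neg c3, zero_add]
    · rw [if_neg (fun h => hX h.1), if_neg, if_neg (fun h => hX h.1), zero_add]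
      rintro ⟨h, _⟩
      simp only [Prod.mk.injEq] at h
      exact hX h.2
  have i2 : ∑ ω', (if X ω' = X ω ∧ Y ω' < Y ω then μ ω' else 0)
      ≤ below μ X DY ω + (∑ ω', (if (DY ω', X ω') = (DY ω, X ω) ∧ sY ω' < sY ω + 1 then μ ω' else 0)) := by
    unfold below
    rw [← Finset.sum_add_distrib]
    refine Finset.sum_le_sum fun ω' _ => ?_
    by_cases h : X ω' = X ω ∧ Y ω' < Y ω
    · rw [if_pos h]
      have h1 := m1 ω' ω h.2.le
      have h2 := m2 ω' ω h.2.le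
      rcases h1.lt_or_eq with hD | hD
      · rw [if_pos ⟨h.1, hD⟩]
        have : (0:ℝ) ≤ (if (DY ω', X ω') = (DY ω, X ω) ∧ sY ω' < sY ω + 1 then μ ω' else 0) := by
          split_ifs; exacts [hμ0 _, le_rfl]
        linarith
      · rw [if_neg (fun h => by omega), if_pos, zero_add]
        refine ⟨by rw [hD, h.1], ?_⟩
        rw [hD] at h2
        omega
    · rw [if_neg h]
      have a1 : (0:ℝ) ≤ (if X ω' = X ω ∧ DY ω' < DY ω then μ ω' else 0) := by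
        split_ifs; exacts [hμ0 _, le_rfl]
      have a2 : (0:ℝ) ≤ (if (DY ω', X ω') = (DY ω, X ω) ∧ sY ω' < sY ω + 1 then μ ω' else 0) := by
        split_ifs; exacts [hμ0 _, le_rfl]
      linarith
  push_cast at l2
  constructor
  · have : P / N * ((sY ω : ℝ) - 1) = P * (sY ω / N) - P * (1/N) := by ring
    rw [this]
    linarith [l1.1]
  · have : P / N * ((sY ω : ℝ) + 2) = P * ((sY ω + 1) / N) + P * (1/N) := by ring
    rw [this]
    linarith [l2.2]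

/-- the linear relation from comparison of masses -/
lemma relation {Ω : Type} [Fintype Ω] {μ : Ω → ℝ} (hμ : ∀ ω, 0 < μ ω)
    (X Y Z : Ω → ℕ) (hYZ : ∀ ω ω', X ω = X ω' → (Y ω < Y ω' ↔ Z ω < Z ω'))
    (DY sY DZ sZ : Ω → ℕ) (N : ℕ)
    (m1 : ∀ ω ω', Y ω ≤ Y ω' → DY ω ≤ DY ω')
    (m2 : ∀ ω ω', Y ω ≤ Y ω' → N * DY ω + sY ω ≤ N * DY ω' + sY ω')
    (m1' : ∀ ω ω', Z ω ≤ Z ω' → DZ ω ≤ DZ ω')
    (m2' : ∀ ω ω', Z ω ≤ Z ω' → N * DZ ω + sZ ω ≤ N * DZ ω' + sZ ω')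
    (hs : ∀ ω, sY ω < N) (hs' : ∀ ω, sZ ω < N) (ω : Ω)
    (hu : NUp μ (fun ω => (DY ω, X ω)) sY N ω)
    (hu' : NUp μ (fun ω => (DZ ω, X ω)) sZ N ω)
    (B : ℕ) (hB : pm μ (fun ω => (DY ω, X ω)) ω / pm μ (fun ω => (DZ ω, X ω)) ω ≤ B) :
    |(sZ ω : ℝ) - pm μ (fun ω => (DY ω, X ω)) ω / pm μ (fun ω => (DZ ω, X ω)) ω * sY ω
      - (below μ X DY ω - below μ X DZ ω) * N / pm μ (fun ω => (DZ ω, X ω)) ω| ≤ 2 * (1 + B) := by
  classical
  have q1 := mass_cell hμ X Y DY sY N m1 m2 hs ω hu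
  have q2 := mass_cell hμ X Z DZ sZ N m1' m2' hs' ω hu'
  have e : (∑ ω', (if X ω' = X ω ∧ Y ω' < Y ω then μ ω' else 0)) = (∑ ω', (if X ω' = X ω ∧ Z ω' < Z ω then μ ω' else 0)) := by
    refine Finset.sum_congr rfl fun ω' _ => ?_
    by_cases hX : X ω' = X ω
    · by_cases hY : Y ω' < Y ω
      · rw [if_pos ⟨hX, hY⟩, if_pos ⟨hX, (hYZ _ _ hX).1 hY⟩]
      · rw [if_neg (fun h => hY h.2), if_neg (fun h => hY ((hYZ _ _ hX).2 h.2))]
    · rw [if_neg (fun h => hX h.1), if_neg (fun h => hX h.1)]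
  rw [← e] at q2
  have p1 : 0 < pm μ (fun ω => (DY ω, X ω)) ω := pm_pos hμ _ _
  have p2 : 0 < pm μ (fun ω => (DZ ω, X ω)) ω := pm_pos hμ _ _
  set P := pm μ (fun ω => (DY ω, X ω)) ω
  set Q := pm μ (fun ω => (DZ ω, X ω)) ω
  set S := (∑ ω', (if X ω' = X ω ∧ Y ω' < Y ω then μ ω' else 0))
  have hN : (0:ℝ) < N := by
    have := hs ω
    have : 0 < N := by omega
    exact_mod_cast this
  obtain ⟨q11, q12⟩ := q1
  obtain ⟨q21, q22⟩ := q2
  -- multiply by N/Q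
  have u1 : below μ X DY ω * N / Q + P / Q * ((sY ω : ℝ) - 1) ≤ S * N / Q := by
    have := mul_le_mul_of_nonneg_right q11 (by positivity : 0 ≤ N / Q)
    have e1 : (below μ X DY ω + P / N * ((sY ω : ℝ) - 1)) * (N / Q) = below μ X DY ω * N / Q + P / Q * ((sY ω : ℝ) - 1) := by
      field_simp
    have e2 : S * (N / Q) = S * N / Q := by ring
    linarith
  have u2 : S * N / Q ≤ below μ X DY ω * N / Q + P / Q * ((sY ω : ℝ) + 2) := by
    have := mul_le_mul_of_nonneg_right q12 (by positivity : 0 ≤ N / Q)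
    have e1 : (below μ X DY ω + P / N * ((sY ω : ℝ) + 2)) * (N / Q) = below μ X DY ω * N / Q + P / Q * ((sY ω : ℝ) + 2) := by
      field_simp
    have e2 : S * (N / Q) = S * N / Q := by ring
    linarith
  have u3 : below μ X DZ ω * N / Q + ((sZ ω : ℝ) - 1) ≤ S * N / Q := by
    have := mul_le_mul_of_nonneg_right q21 (by positivity : 0 ≤ N / Q)
    have e1 : (below μ X DZ ω + Q / N * ((sZ ω : ℝ) - 1)) * (N / Q) = below μ X DZ ω * N / Q + ((sZ ω : ℝ) - 1) := by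
      field_simp
    have e2 : S * (N / Q) = S * N / Q := by ring
    linarith
  have u4 : S * N / Q ≤ below μ X DZ ω * N / Q + ((sZ ω : ℝ) + 2) := by
    have := mul_le_mul_of_nonneg_right q22 (by positivity : 0 ≤ N / Q)
    have e1 : (below μ X DZ ω + Q / N * ((sZ ω : ℝ) + 2)) * (N / Q) = below μ X DZ ω * N / Q + ((sZ ω : ℝ) + 2) := by
      field_simp
    have e2 : S * (N / Q) = S * N / Q := by ring
    linarith
  have a0 : 0 ≤ P / Q := by positivity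
  have e5 : (below μ X DY ω - below μ X DZ ω) * N / Q = below μ X DY ω * N / Q - below μ X DZ ω * N / Q := by ring
  rw [e5, abs_le]
  constructor
  · nlinarith
  · nlinarith

lemma CC_det {Ω : Type} (D : Fin 3 → ℕ → Ω → ℕ) (k : ℕ) (j : Fin 3) : Det (CC D k) (D j k) := by
  intro ω ω' h
  simp only [CC, Prod.mk.injEq] at h
  fin_cases j
  · exact h.1
  · exact h.2.1
  · exact h.2.2

lemma ub_and {Ω : Type} [Fintype Ω] {μ : Ω → ℝ} (hμ : ∀ ω, 0 < μ ω) (P Q : Ω → Prop) :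
    bad μ (fun ω => P ω ∧ Q ω) ≤ bad μ P + bad μ Q := by
  classical
  unfold bad
  rw [← Finset.sum_add_distrib]
  refine Finset.sum_le_sum fun ω _ => ?_
  have := (hμ ω).le
  by_cases h1 : P ω <;> by_cases h2 : Q ω <;> simp [h1, h2, this]

lemma bad_congr {Ω : Type} [Fintype Ω] {μ : Ω → ℝ} {P Q : Ω → Prop} (h : ∀ ω, P ω ↔ Q ω) :
    bad μ P = bad μ Q := by
  have : P = Q := funext fun ω => propext (h ω)
  rw [this]

lemma ub_all {Ω : Type} [Fintype Ω] {μ : Ω → ℝ} (hμ : ∀ ω, 0 < μ ω) (P : Fin 3 → Ω → Prop) (c : ℝ)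
    (h : ∀ i, bad μ (P i) ≤ c) : bad μ (fun ω => ∀ i, P i ω) ≤ 3 * c := by
  have e : bad μ (fun ω => ∀ i, P i ω) = bad μ (fun ω => (P 0 ω ∧ P 1 ω) ∧ P 2 ω) := by
    apply bad_congr
    intro ω
    constructor
    · intro h; exact ⟨⟨h 0, h 1⟩, h 2⟩
    · rintro ⟨⟨h0, h1⟩, h2⟩ i
      fin_cases i
      · exact h0
      · exact h1
      · exact h2
  rw [e]
  have a1 := ub_and hμ (fun ω => P 0 ω ∧ P 1 ω) (P 2)
  have a2 := ub_and hμ (P 0) (P 1)
  have := h 0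
  have := h 1
  have := h 2
  linarith

/-- deficit of the level-`k` cell entropy -/
noncomputable def dfc {Ω : Type} [Fintype Ω] (μ : Ω → ℝ) (W : Fin 3 → Ω → ℕ) (D : Fin 3 → ℕ → Ω → ℕ)
    (i j : Fin 3) (k : ℕ) : ℝ :=
  k * Real.log 2 - (H μ (fun ω => (D j k ω, W i ω)) - H μ (W i))

lemma win_H {Ω : Type} [Fintype Ω] {μ : Ω → ℝ} {W : Fin 3 → Ω → ℕ} {D : Fin 3 → ℕ → Ω → ℕ} {K : ℕ}
    (h : Sys Ω μ W D K) (i j : Fin 3) (k V : ℕ) :
    H μ (fun ω => (D j (k+V) ω % 2^V, (D j k ω, W i ω))) = H μ (fun ω => (D j (k+V) ω, W i ω)) := by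
  apply H_congr
  · intro ω ω' hh
    simp only [Prod.mk.injEq] at hh ⊢
    refine ⟨?_, hh.2.2⟩
    rw [← Nat.div_add_mod (D j (k+V) ω) (2^V), ← Nat.div_add_mod (D j (k+V) ω') (2^V), h.Dpre, h.Dpre, hh.1, hh.2.1]
  · intro ω ω' hh
    simp only [Prod.mk.injEq] at hh ⊢
    refine ⟨by rw [hh.1], ?_, hh.2⟩
    rw [← h.Dpre j k V ω, ← h.Dpre j k V ω', hh.1]

lemma log_two_pow (V : ℕ) : Real.log ((2^V : ℕ) : ℝ) = V * Real.log 2 := by
  push_cast
  rw [Real.log_pow]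

lemma dfc_mono {Ω : Type} [Fintype Ω] {μ : Ω → ℝ} {W : Fin 3 → Ω → ℕ} {D : Fin 3 → ℕ → Ω → ℕ} {K : ℕ}
    (h : Sys Ω μ W D K) (i j : Fin 3) (k V : ℕ) : dfc μ W D i j k ≤ dfc μ W D i j (k+V) := by
  have h1 := condH_le_log h.pos h.sum (fun ω => D j (k+V) ω % 2^V) (fun ω => (D j k ω, W i ω)) (2^V) (by positivity)
    (fun ω0 => ⟨Finset.range (2^V), by simp, fun ω _ => by
      simp only [Finset.mem_range]; exact Nat.mod_lt _ (by positivity)⟩)
  rw [win_H h, log_two_pow] at h1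
  unfold dfc
  push_cast
  linarith

lemma dfc_zero {Ω : Type} [Fintype Ω] {μ : Ω → ℝ} {W : Fin 3 → Ω → ℕ} {D : Fin 3 → ℕ → Ω → ℕ} {K : ℕ}
    (h : Sys Ω μ W D K) (i j : Fin 3) : 0 ≤ dfc μ W D i j 0 := by
  have h1 := condH_le_log h.pos h.sum (fun ω => D j 0 ω) (W i) 1 (by positivity)
    (fun ω0 => ⟨Finset.range 1, by simp, fun ω _ => by
      have := h.Dlt j 0 ω
      simpa using this⟩)
  unfold dfc
  simp only [Nat.cast_one, Real.log_one] at h1
  simp only [Nat.cast_zero, zero_mul]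
  linarith

theorem exists_typ (B : ℕ) (hB : 144 * Real.exp 600 ≤ B) (V : ℕ) :
    ∃ nK : ℕ, ∀ (Ω : Type) [Fintype Ω] (μ : Ω → ℝ) (W : Fin 3 → Ω → ℕ) (D : Fin 3 → ℕ → Ω → ℕ),
      Sys Ω μ W D (V * nK) → ∃ k0, k0 + V ≤ V * nK ∧ ∃ (T : Ω → Prop) (a lm : Fin 3 → Ω → ℝ),
        Typ Ω μ W D B V k0 T a lm := by
  classical
  set N : ℕ := 2^V with hN
  have hN0 : 0 < N := by positivity
  have hN0' : (0:ℝ) < N := by exact_mod_cast hN0
  set δ1 : ℝ := (1 / (2 * (N:ℝ)^2))^2 with hδ1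
  have hδ1p : 0 < δ1 := by positivity
  have hsq : 2 * (N:ℝ) * Real.sqrt δ1 = 1 / N := by
    rw [hδ1, Real.sqrt_sq (by positivity)]
    field_simp
  have hl2 : 0 < Real.log 2 := Real.log_pos (by norm_num)
  obtain ⟨nK, hnK⟩ := exists_nat_gt (18 * Real.log 2 * 288 / δ1)
  have hnK0 : (0:ℝ) < nK := lt_of_le_of_lt (by positivity) hnK
  refine ⟨nK, ?_⟩
  intro Ω _ μ W D h
  set K := V * nK with hK
  -- pigeonhole
  set G : ℕ → ℝ := fun k => ∑ i : Fin 3, (dfc μ W D i (i+1) k + dfc μ W D i (i+2) k) with hG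
  have hne1 : ∀ i : Fin 3, i ≠ i + 1 := by decide
  have hne2 : ∀ i : Fin 3, i ≠ i + 2 := by decide
  have hne3 : ∀ i : Fin 3, i + 1 ≠ i + 2 := by decide
  have hdub : ∀ i j : Fin 3, i ≠ j → ∀ k ≤ K, dfc μ W D i j k ≤ 3 * Real.log 2 := by
    intro i j hij k hk
    have := h.ent i j hij k hk
    unfold dfc
    linarith
  have hGub : G K ≤ 18 * Real.log 2 := by
    have : G K ≤ ∑ i : Fin 3, (3 * Real.log 2 + 3 * Real.log 2) :=
      Finset.sum_le_sum fun i _ => add_le_add (hdub _ _ (hne1 i) K le_rfl) (hdub _ _ (hne2 i) K le_rfl)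
    refine this.trans (le_of_eq ?_)
    simp
    ring
  have hG0 : 0 ≤ G 0 := Finset.sum_nonneg fun i _ => add_nonneg (dfc_zero h _ _) (dfc_zero h _ _)
  have htel : ∑ m ∈ Finset.range nK, (G (V * (m+1)) - G (V * m)) = G (V * nK) - G (V * 0) :=
    Finset.sum_range_sub (fun m => G (V * m)) nK
  obtain ⟨m, hm, hmG⟩ : ∃ m ∈ Finset.range nK, G (V * (m+1)) - G (V * m) ≤ 18 * Real.log 2 / nK := by
    by_contra hcon
    push Not at hcon
    have hne : (Finset.range nK).Nonempty := by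
      rw [Finset.nonempty_range_iff]
      rintro rfl
      simp at hnK0
    have := Finset.sum_lt_sum_of_nonempty hne hcon
    rw [htel, Finset.sum_const, Finset.card_range, nsmul_eq_mul, mul_div_cancel₀ _ hnK0.ne'] at this
    rw [mul_zero, ← hK] at this
    linarith
  rw [Finset.mem_range] at hm
  have hkV : V * m + V ≤ K := by
    rw [hK]
    calc V * m + V = V * (m+1) := by ring
      _ ≤ V * nK := Nat.mul_le_mul_left _ hm
  set k0 := V * m with hk0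
  have hk1 : V * (m+1) = k0 + V := by rw [hk0]; ring
  rw [hk1] at hmG
  have hinc : ∀ i j, 0 ≤ dfc μ W D i j (k0+V) - dfc μ W D i j k0 := fun i j => by
    have := dfc_mono h i j k0 V; linarith
  have hsmall : 18 * Real.log 2 / nK ≤ δ1 / 288 := by
    rw [div_le_div_iff₀ hnK0 (by norm_num)]
    rw [div_lt_iff₀ hδ1p] at hnK
    linarith
  have hGe : G (k0+V) - G k0 = ∑ i : Fin 3, ((dfc μ W D i (i+1) (k0+V) - dfc μ W D i (i+1) k0)
      + (dfc μ W D i (i+2) (k0+V) - dfc μ W D i (i+2) k0)) := by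
    simp only [hG]
    rw [← Finset.sum_sub_distrib]
    refine Finset.sum_congr rfl fun i _ => by ring
  have hsingle : ∀ i : Fin 3, (dfc μ W D i (i+1) (k0+V) - dfc μ W D i (i+1) k0)
      + (dfc μ W D i (i+2) (k0+V) - dfc μ W D i (i+2) k0) ≤ δ1 / 288 := by
    intro i
    refine le_trans ?_ (hmG.trans hsmall)
    rw [hGe]
    exact Finset.single_le_sum (f := fun i : Fin 3 => (dfc μ W D i (i+1) (k0+V) - dfc μ W D i (i+1) k0)
      + (dfc μ W D i (i+2) (k0+V) - dfc μ W D i (i+2) k0)) (fun i _ => add_nonneg (hinc _ _) (hinc _ _)) (Finset.mem_univ i)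
  have hd1 : ∀ i : Fin 3, dfc μ W D i (i+1) (k0+V) - dfc μ W D i (i+1) k0 ≤ δ1 / 288 := fun i => by
    have := hsingle i; have := hinc i (i+2); linarith
  have hd2 : ∀ i : Fin 3, dfc μ W D i (i+2) (k0+V) - dfc μ W D i (i+2) k0 ≤ δ1 / 288 := fun i => by
    have := hsingle i; have := hinc i (i+1); linarith
  -- near uniformity
  have hnu : ∀ i j : Fin 3, dfc μ W D i j (k0+V) - dfc μ W D i j k0 ≤ δ1 / 288 →
      bad μ (NUp μ (fun ω => (D j k0 ω, W i ω)) (fun ω => D j (k0+V) ω % N) N) ≤ 1 / 288 := by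
    intro i j hd
    have := near_uniform h.pos h.sum (fun ω => (D j k0 ω, W i ω)) (fun ω => D j (k0+V) ω % N) N hN0
      (fun ω => Nat.mod_lt _ hN0) (δ1 / 288) δ1 hδ1p (by
        rw [hN, log_two_pow, win_H h]
        unfold dfc at hd
        push_cast at hd
        linarith)
    have e : δ1 / 288 / δ1 = 1 / 288 := by field_simp
    rw [e, hsq] at this
    refine le_trans (le_of_eq ?_) this
    unfold bad
    refine Finset.sum_congr rfl fun ω _ => ?_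
    by_cases hh : NUp μ (fun ω => (D j k0 ω, W i ω)) (fun ω => D j (k0 + V) ω % N) N ω
    · exact (if_pos hh).trans (if_pos hh).symm
    · exact (if_neg hh).trans (if_neg hh).symm
  set NU : Fin 3 → Fin 3 → Ω → Prop := fun i j ω =>
    NUp μ (fun ω => (D j k0 ω, W i ω)) (fun ω => D j (k0+V) ω % N) N ω with hNU
  set HI : Fin 3 → Ω → Prop := fun i ω => ¬ (Real.exp 600 * pm μ (W i) ω < ((2^k0 : ℕ):ℝ) * pm μ (fun ω => (D (i+1) k0 ω, W i ω)) ω) with hHI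
  set LO : Fin 3 → Ω → Prop := fun i ω => ¬ (((2^k0 : ℕ):ℝ) * pm μ (fun ω => (D (i+2) k0 ω, W i ω)) ω < 1/144 * pm μ (W i) ω) with hLO
  have mHI : ∀ i, bad μ (HI i) ≤ (3 * Real.log 2 + 1) / 600 := by
    intro i
    have := rho_high h.pos h.sum (W i) (D (i+1) k0) (Finset.range (2^k0)) (2^k0) (by positivity) (by simp)
      (fun ω => Finset.mem_range.2 (h.Dlt _ _ _)) (3 * Real.log 2) (by
        have := hdub i (i+1) (hne1 i) k0 (by omega)
        rw [log_two_pow]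
        unfold dfc at this
        linarith) 600 (by norm_num)
    refine le_trans (le_of_eq ?_) this
    unfold bad
    refine Finset.sum_congr rfl fun ω _ => ?_
    simp only [hHI]
    by_cases hh : (Real.exp 600 * pm μ (W i) ω < ((2^k0 : ℕ):ℝ) * pm μ (fun ω => (D (i+1) k0 ω, W i ω)) ω)
    · rw [if_neg (not_not.2 hh), if_pos hh]
    · rw [if_pos hh, if_neg hh]
  have mLO : ∀ i, bad μ (LO i) ≤ 1/144 := by
    intro i
    have := rho_low h.pos h.sum (W i) (D (i+2) k0) (Finset.range (2^k0)) (2^k0) (by positivity) (by simp)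
      (fun ω => Finset.mem_range.2 (h.Dlt _ _ _)) (1/144) (by norm_num)
    refine le_trans (le_of_eq ?_) this
    unfold bad
    refine Finset.sum_congr rfl fun ω _ => ?_
    simp only [hLO]
    by_cases hh : (((2^k0 : ℕ):ℝ) * pm μ (fun ω => (D (i+2) k0 ω, W i ω)) ω < 1/144 * pm μ (W i) ω)
    · rw [if_neg (not_not.2 hh), if_pos hh]
    · rw [if_pos hh, if_neg hh]
  have mN1 : ∀ i, bad μ (NU i (i+1)) ≤ 1/288 := fun i => hnu i (i+1) (hd1 i)
  have mN2 : ∀ i, bad μ (NU i (i+2)) ≤ 1/288 := fun i => hnu i (i+2) (hd2 i)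
  refine ⟨k0, hkV, fun ω => ((∀ i, HI i ω) ∧ (∀ i, LO i ω)) ∧ ((∀ i, NU i (i+1) ω) ∧ (∀ i, NU i (i+2) ω)),
    fun i ω => pm μ (fun ω => (D (i+1) k0 ω, W i ω)) ω / pm μ (fun ω => (D (i+2) k0 ω, W i ω)) ω,
    fun i ω => (below μ (W i) (D (i+1) k0) ω - below μ (W i) (D (i+2) k0) ω) * N / pm μ (fun ω => (D (i+2) k0 ω, W i ω)) ω
      + N * D (i+2) k0 ω - pm μ (fun ω => (D (i+1) k0 ω, W i ω)) ω / pm μ (fun ω => (D (i+2) k0 ω, W i ω)) ω * (N * D (i+1) k0 ω), ?_⟩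
  have det1 : ∀ (i j : Fin 3), Det (fun ω => (W i ω, CC D k0 ω)) (fun ω => (D j k0 ω, W i ω)) := by
    intro i j ω ω' hh
    simp only [Prod.mk.injEq] at hh ⊢
    exact ⟨CC_det D k0 j _ _ hh.2, hh.1⟩
  refine ⟨?_, ?_, ?_, ?_, ?_, ?_⟩
  · -- mass
    have b1 := ub_all h.pos HI _ mHI
    have b2 := ub_all h.pos LO _ mLO
    have b3 := ub_all h.pos (fun i => NU i (i+1)) _ mN1
    have b4 := ub_all h.pos (fun i => NU i (i+2)) _ mN2
    have c1 := ub_and h.pos (fun ω => ∀ i, HI i ω) (fun ω => ∀ i, LO i ω)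
    have c2 := ub_and h.pos (fun ω => ∀ i, NU i (i+1) ω) (fun ω => ∀ i, NU i (i+2) ω)
    have c3 := ub_and h.pos (fun ω => (∀ i, HI i ω) ∧ (∀ i, LO i ω)) (fun ω => (∀ i, NU i (i+1) ω) ∧ (∀ i, NU i (i+2) ω))
    have := Real.log_two_lt_d9
    change bad μ _ ≤ _
    refine c3.trans ((add_le_add (c1.trans (add_le_add b1 b2)) (c2.trans (add_le_add b3 b4))).trans ?_)
    linarith
  · intro i ω ω' hh
    dsimp only
    rw [pm_det μ (fun ω => (D (i+1) k0 ω, W i ω)) _ _ (det1 i (i+1) _ _ hh),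
      pm_det μ (fun ω => (D (i+2) k0 ω, W i ω)) _ _ (det1 i (i+2) _ _ hh)]
  · intro i ω ω' hh
    dsimp only
    have e1 := det1 i (i+1) _ _ hh
    have e2 := det1 i (i+2) _ _ hh
    rw [pm_det μ (fun ω => (D (i+1) k0 ω, W i ω)) _ _ e1,
      pm_det μ (fun ω => (D (i+2) k0 ω, W i ω)) _ _ e2]
    simp only [Prod.mk.injEq] at e1 e2
    rw [below_det μ (W i) (D (i+1) k0) ω ω' (by simp [e1.1, e1.2]), below_det μ (W i) (D (i+2) k0) ω ω' (by simp [e2.1, e2.2]),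
      e1.1, e2.1]
  · intro i ω
    exact div_nonneg (pm_pos h.pos _ _).le (pm_pos h.pos _ _).le
  · rintro i ω ⟨⟨t1, t2⟩, _⟩
    have t1 := t1 i
    have t2 := t2 i
    simp only [hHI, hLO, not_lt] at t1 t2
    refine le_trans ?_ hB
    have p2 := pm_pos h.pos (fun ω => (D (i+2) k0 ω, W i ω)) ω
    rw [div_le_iff₀ p2]
    have q : (0:ℝ) < ((2^k0 : ℕ):ℝ) := by positivity
    have e0 := Real.exp_pos 600
    have : ((2^k0 : ℕ):ℝ) * pm μ (fun ω => (D (i+1) k0 ω, W i ω)) ω ≤ ((2^k0 : ℕ):ℝ) * (144 * Real.exp 600 * pm μ (fun ω => (D (i+2) k0 ω, W i ω)) ω) := by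
      have := mul_le_mul_of_nonneg_left t2 (by positivity : 0 ≤ 144 * Real.exp 600)
      nlinarith
    exact le_of_mul_le_mul_left this q
  · rintro i ω ⟨⟨t1, t2⟩, t3, t4⟩
    have t1 := t1 i
    have t2 := t2 i
    have t3 := t3 i
    have t4 := t4 i
    simp only [hHI, hLO, not_lt] at t1 t2
    have hp : ∀ j ω, N * D j k0 ω + D j (k0+V) ω % N = D j (k0+V) ω := by
      intro j ω
      have := Nat.div_add_mod (D j (k0+V) ω) N
      rwa [hN, h.Dpre, ← hN] at this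
    have hle : pm μ (fun ω => (D (i+1) k0 ω, W i ω)) ω / pm μ (fun ω => (D (i+2) k0 ω, W i ω)) ω ≤ B := by
      refine le_trans ?_ hB
      have p2 := pm_pos h.pos (fun ω => (D (i+2) k0 ω, W i ω)) ω
      rw [div_le_iff₀ p2]
      have q : (0:ℝ) < ((2^k0 : ℕ):ℝ) := by positivity
      have e0 := Real.exp_pos 600
      have : ((2^k0 : ℕ):ℝ) * pm μ (fun ω => (D (i+1) k0 ω, W i ω)) ω ≤ ((2^k0 : ℕ):ℝ) * (144 * Real.exp 600 * pm μ (fun ω => (D (i+2) k0 ω, W i ω)) ω) := by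
        have := mul_le_mul_of_nonneg_left t2 (by positivity : 0 ≤ 144 * Real.exp 600)
        nlinarith
      exact le_of_mul_le_mul_left this q
    have R := relation h.pos (W i) (W (i+1)) (W (i+2))
      (fun ω ω' hX => ⟨h.mono i (i+1) (i+2) (hne1 i) (hne2 i) ω ω' hX, h.mono i (i+2) (i+1) (hne2 i) (hne1 i) ω ω' hX⟩)
      (D (i+1) k0) (fun ω => D (i+1) (k0+V) ω % N) (D (i+2) k0) (fun ω => D (i+2) (k0+V) ω % N) N
      (fun ω ω' hh => h.Dmono _ _ _ _ hh) (fun ω ω' hh => by rw [hp, hp]; exact h.Dmono _ _ _ _ hh)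
      (fun ω ω' hh => h.Dmono _ _ _ _ hh) (fun ω ω' hh => by rw [hp, hp]; exact h.Dmono _ _ _ _ hh)
      (fun ω => Nat.mod_lt _ hN0) (fun ω => Nat.mod_lt _ hN0) ω
      t3 t4 B hle
    set a := pm μ (fun ω => (D (i+1) k0 ω, W i ω)) ω / pm μ (fun ω => (D (i+2) k0 ω, W i ω)) ω
    have hc1 : (D (i+1) (k0+V) ω : ℝ) = N * D (i+1) k0 ω + (D (i+1) (k0+V) ω % N : ℕ) := by
      exact_mod_cast (hp (i+1) ω).symm
    have hc2 : (D (i+2) (k0+V) ω : ℝ) = N * D (i+2) k0 ω + (D (i+2) (k0+V) ω % N : ℕ) := by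
      exact_mod_cast (hp (i+2) ω).symm
    refine le_trans (le_of_eq ?_) (R.trans ?_)
    · congr 1
      rw [hc1, hc2]
      ring
    · have : (0:ℝ) ≤ B := by positivity
      linarith

end GoLo
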