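import Pool.Agent.Helper524.GL.Ent

set_option autoImplicit false
open Finset

namespace GoLo

section var
variable {Ω : Type*} [Fintype Ω] {α β : Type*}

open Classical in
/-- conditional measure given the class of `w` under `f` -/
noncomputable def cm (μ : Ω → ℝ) (f : Ω → α) (w w1 : Ω) : ℝ :=
  if f w1 = f w then μ w1 / pm μ f w else 0

lemma cm_nonneg {μ : Ω → ℝ} (hμ : ∀ ω, 0 < μ ω) (f : Ω → α) (w w1 : Ω) : 0 ≤ cm μ f w w1 := by
  unfold cm
  split_ifs
  · exact div_nonneg (hμ _).le (pm_nonneg (fun ω => (hμ ω).le) f w)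
  · exact le_rfl

lemma cm_sum {μ : Ω → ℝ} (hμ : ∀ ω, 0 < μ ω) (f : Ω → α) (w : Ω) : ∑ w1, cm μ f w w1 = 1 := by
  classical
  have hp := pm_pos hμ f w
  have e : ∑ w1, cm μ f w w1 = (∑ w1, if f w1 = f w then μ w1 else 0) / pm μ f w := by
    rw [Finset.sum_div]
    refine Finset.sum_congr rfl fun w1 _ => ?_
    unfold cm
    by_cases h : f w1 = f w
    · rw [if_pos h, if_pos h]
    · rw [if_neg h, if_neg h, zero_div]
  have e2 : (∑ w1, if f w1 = f w then μ w1 else 0) = pm μ f w := by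
    unfold pm
    refine Finset.sum_congr rfl fun w1 _ => ?_
    congr
  rw [e, e2, div_self hp.ne']

lemma pm_cm {μ : Ω → ℝ} (hμ : ∀ ω, 0 < μ ω) (f : Ω → α) (g : Ω → β) (w w1 : Ω)
    (h : f w1 = f w) :
    pm (cm μ f w) g w1 = pm μ (fun ω => (g ω, f ω)) w1 / pm μ f w := by
  classical
  have hp := pm_pos hμ f w
  have e : pm μ (fun ω => (g ω, f ω)) w1 / pm μ f w =
      ∑ w2, (if (g w2, f w2) = (g w1, f w1) then μ w2 else 0) / pm μ f w := by
    rw [← Finset.sum_div]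
    congr 1
    unfold pm
    refine Finset.sum_congr rfl fun w2 _ => ?_
    congr
  rw [e]
  unfold pm
  refine Finset.sum_congr rfl fun w2 _ => ?_
  by_cases h1 : g w2 = g w1
  · rw [if_pos h1]
    by_cases h2 : f w2 = f w
    · rw [if_pos (by rw [h1, h2, h])]
      unfold cm pm
      rw [if_pos h2]
    · rw [if_neg (by rw [h]; intro h3; exact h2 (congrArg Prod.snd h3)), zero_div]
      unfold cm
      rw [if_neg h2]
  · rw [if_neg h1, if_neg (by intro h3; exact h1 (congrArg Prod.fst h3)), zero_div]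

lemma tower_H {μ : Ω → ℝ} (hμ : ∀ ω, 0 < μ ω) (f : Ω → α) (g : Ω → β) :
    ∑ w, μ w * H (cm μ f w) g = H μ (fun ω => (g ω, f ω)) - H μ f := by
  classical
  have h1 := tower hμ f
    (fun w => - Real.log (pm μ (fun ω => (g ω, f ω)) w) - (- Real.log (pm μ f w)))
  have h2 : H μ (fun ω => (g ω, f ω)) - H μ f = ∑ ω, μ ω *
      (- Real.log (pm μ (fun ω => (g ω, f ω)) ω) - (- Real.log (pm μ f ω))) := by
    unfold H
    rw [← Finset.sum_sub_distrib]
    refine Finset.sum_congr rfl fun ω _ => ?_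
    ring
  rw [h2, ← h1]
  refine Finset.sum_congr rfl fun w _ => ?_
  congr 1
  unfold H
  rw [Finset.sum_div]
  refine Finset.sum_congr rfl fun w1 _ => ?_
  by_cases h : f w1 = f w
  · rw [pm_cm hμ f g w w1 h, if_pos h, Real.log_div (pm_pos hμ _ _).ne' (pm_pos hμ _ _).ne',
      pm_class h]
    have : cm μ f w w1 = μ w1 / pm μ f w := by unfold cm; rw [if_pos h]
    rw [this]
    ring
  · have : cm μ f w w1 = 0 := by unfold cm; rw [if_neg h]
    rw [this, if_neg h]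
    simp

/-- the functional to maximise -/
noncomputable def Phi (μ : Ω → ℝ) (W : Fin 3 → Ω → ℕ) (lam : ℝ) : ℝ :=
  H μ (fun ω => ω) - lam * ∑ i, H μ (W i)

lemma sum_Phi {μ : Ω → ℝ} (hμ : ∀ ω, 0 < μ ω) (f : Ω → α) (W : Fin 3 → Ω → ℕ) (lam : ℝ) :
    ∑ w, μ w * Phi (cm μ f w) W lam = (H μ (fun ω => ω) - H μ f) -
      lam * ∑ i, (H μ (fun ω => (W i ω, f ω)) - H μ f) := by
  have e1 : H μ (fun ω : Ω => ω) = H μ (fun ω => (ω, f ω)) := by
    apply H_congr
    · intro ω ω' h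
      simp only at h
      rw [h]
    · intro ω ω' h
      exact congrArg Prod.fst h
  rw [e1, ← tower_H hμ f (fun ω => ω)]
  have e2 : ∀ i, H μ (fun ω => (W i ω, f ω)) - H μ f = ∑ w, μ w * H (cm μ f w) (W i) :=
    fun i => (tower_H hμ f (W i)).symm
  rw [Finset.sum_congr rfl fun i _ => e2 i, Finset.sum_comm, Finset.mul_sum,
    ← Finset.sum_sub_distrib]
  refine Finset.sum_congr rfl fun w _ => ?_
  unfold Phi
  rw [← Finset.mul_sum]
  ring

lemma H_pair_le {μ : Ω → ℝ} (hμ : ∀ ω, 0 < μ ω) (h1 : ∑ ω, μ ω = 1) (f : Ω → α) (g : Ω → β) :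
    H μ (fun ω => (f ω, g ω)) ≤ H μ f + H μ g := by
  have h2 := submod hμ h1 f g (fun _ => ()) (fun ω => (f ω, g ω)) (fun _ _ _ => rfl)
    (fun _ _ _ => rfl) (fun ω ω' h => h)
  have h3 := H_nonneg (fun ω => (hμ ω).le) h1 (fun _ : Ω => ())
  linarith

/-- Phi is nonpositive for a measure living on a fibre of `W i`. -/
lemma Phi_fibre (ν : Ω → ℝ) (hν : ∀ ω, 0 ≤ ν ω) (h1 : ∑ ω, ν ω = 1) (W : Fin 3 → Ω → ℕ) (lam : ℝ)
    (hlam : 1/2 ≤ lam)
    (hinj : ∀ i j, i ≠ j → ∀ ω ω', W i ω = W i ω' → W j ω = W j ω' → ω = ω')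
    (i : Fin 3) (c : ℕ) (hc : ∀ ω, ν ω ≠ 0 → W i ω = c) : Phi ν W lam ≤ 0 := by
  classical
  have hj : ∀ j, i ≠ j → H ν (W j) = H ν (fun ω => ω) := by
    intro j hij
    unfold H
    refine Finset.sum_congr rfl fun w1 _ => ?_
    by_cases hz : ν w1 = 0
    · rw [hz]; simp
    · have : pm ν (W j) w1 = pm ν (fun ω => ω) w1 := by
        unfold pm
        refine Finset.sum_congr rfl fun w2 _ => ?_
        by_cases hz2 : ν w2 = 0
        · rw [hz2]; simp
        · by_cases h3 : w2 = w1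
          · rw [if_pos (by rw [h3]), if_pos h3]
          · rw [if_neg, if_neg h3]
            intro h4
            exact h3 (hinj i j hij w2 w1 ((hc w2 hz2).trans (hc w1 hz).symm) h4)
      rw [this]
  have hi : 0 ≤ H ν (W i) := H_nonneg hν h1 _
  have hid : 0 ≤ H ν (fun ω : Ω => ω) := H_nonneg hν h1 _
  have hsum : 2 * H ν (fun ω : Ω => ω) ≤ ∑ j, H ν (W j) := by
    rw [Fin.sum_univ_three]
    fin_cases i
    · rw [hj 1 (by decide), hj 2 (by decide)]
      simp only [Fin.zero_eta] at hi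
      linarith
    · rw [hj 0 (by decide), hj 2 (by decide)]
      simp only [Fin.mk_one] at hi
      linarith
    · rw [hj 0 (by decide), hj 1 (by decide)]
      simp only [Fin.reduceFinMk] at hi
      linarith
  unfold Phi
  have h5 : lam * (2 * H ν (fun ω : Ω => ω)) ≤ lam * ∑ j, H ν (W j) :=
    mul_le_mul_of_nonneg_left hsum (by linarith)
  nlinarith

lemma var_f {Ω : Type*} [Fintype Ω] {α : Type*} {μ : Ω → ℝ} (W : Fin 3 → Ω → ℕ) (lam : ℝ)
    (hμ : ∀ ω, 0 < μ ω) (h1 : ∑ ω, μ ω = 1)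
    (hmax : ∀ μ' : Ω → ℝ, (∀ ω, 0 ≤ μ' ω) → ∑ ω, μ' ω = 1 → Phi μ' W lam ≤ Phi μ W lam)
    (f : Ω → α) :
    lam * ∑ i, (H μ f + H μ (W i) - H μ (fun ω => (f ω, W i ω))) ≤ H μ f := by
  have h2 : ∑ w, μ w * Phi (cm μ f w) W lam ≤ ∑ w, μ w * Phi μ W lam := by
    refine Finset.sum_le_sum fun w _ => mul_le_mul_of_nonneg_left ?_ (hμ w).le
    exact hmax _ (cm_nonneg hμ f w) (cm_sum hμ f w)
  rw [← Finset.sum_mul, h1, one_mul, sum_Phi hμ] at h2
  have h3 : ∀ i, H μ (fun ω => (f ω, W i ω)) = H μ (fun ω => (W i ω, f ω)) := by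
    intro i
    apply H_congr
    · intro ω ω' h
      simp only [Prod.mk.injEq] at h ⊢
      exact ⟨h.2, h.1⟩
    · intro ω ω' h
      simp only [Prod.mk.injEq] at h ⊢
      exact ⟨h.2, h.1⟩
  unfold Phi at h2
  rw [Fin.sum_univ_three] at h2 ⊢
  rw [Fin.sum_univ_three] at h2
  rw [h3 0, h3 1, h3 2]
  linarith

lemma var_atom {Ω : Type*} [Fintype Ω] {μ : Ω → ℝ} (W : Fin 3 → Ω → ℕ) (lam Ph : ℝ)
    (hlam : 1/2 ≤ lam) (hPh : 0 < Ph)
    (hμ : ∀ ω, 0 < μ ω) (h1 : ∑ ω, μ ω = 1)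
    (hinj : ∀ i j, i ≠ j → ∀ ω ω', W i ω = W i ω' → W j ω = W j ω' → ω = ω')
    (hmax : ∀ μ' : Ω → ℝ, (∀ ω, 0 ≤ μ' ω) → ∑ ω, μ' ω = 1 → Phi μ' W lam ≤ Phi μ W lam)
    (hbig : Ph ≤ Phi μ W lam) (i : Fin 3) (w0 : Ω) : pm μ (W i) w0 ≤ Real.log 2 / Ph := by
  classical
  set f : Ω → Bool := fun w => decide (W i w = W i w0) with hf
  have hfw : ∀ w, f w = f w0 ↔ W i w = W i w0 := by
    intro w
    simp [hf]
  have hpm : pm μ (W i) w0 = pm μ f w0 := by
    apply pm_congr'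
    intro w
    exact (hfw w).symm
  rw [hpm]
  have hpp : 0 < pm μ f w0 := pm_pos hμ f w0
  have hH2 : H μ f ≤ Real.log 2 := by
    have := H_le_log hμ h1 f 2 (by norm_num) Finset.univ (by simp) (fun ω => Finset.mem_univ _)
    exact_mod_cast this
  have h2 : ∑ w, μ w * Phi (cm μ f w) W lam ≤
      ∑ w, (μ w - if f w = f w0 then μ w else 0) * Phi μ W lam := by
    refine Finset.sum_le_sum fun w _ => ?_
    by_cases hw : f w = f w0
    · rw [if_pos hw, sub_self, zero_mul]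
      refine mul_nonpos_of_nonneg_of_nonpos (hμ w).le ?_
      refine Phi_fibre _ (cm_nonneg hμ f w) (cm_sum hμ f w) W lam hlam hinj i (W i w0) ?_
      intro w1 hw1
      have h3 : f w1 = f w := by
        by_contra h4
        apply hw1
        unfold cm
        rw [if_neg h4]
      exact (hfw w1).mp (h3.trans hw)
    · rw [if_neg hw, sub_zero]
      exact mul_le_mul_of_nonneg_left (hmax _ (cm_nonneg hμ f w) (cm_sum hμ f w)) (hμ w).le
  have e : ∑ w, (μ w - if f w = f w0 then μ w else 0) * Phi μ W lam =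
      (1 - pm μ f w0) * Phi μ W lam := by
    rw [← Finset.sum_mul, Finset.sum_sub_distrib, h1]
    congr 2
    unfold pm
    refine Finset.sum_congr rfl fun w1 _ => ?_
    congr
  rw [e, sum_Phi hμ] at h2
  have h3 : ∀ j, H μ (fun ω => (W j ω, f ω)) ≤ H μ (W j) + H μ f :=
    fun j => H_pair_le hμ h1 (W j) f
  have h4 : Phi μ W lam = H μ (fun ω => ω) - lam * ∑ i, H μ (W i) := rfl
  have h5 : lam * ∑ i, (H μ (fun ω => (W i ω, f ω)) - H μ f) ≤ lam * ∑ i, H μ (W i) := by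
    refine mul_le_mul_of_nonneg_left ?_ (by linarith)
    refine Finset.sum_le_sum fun j _ => ?_
    linarith [h3 j]
  have h6 : pm μ f w0 * Phi μ W lam ≤ Real.log 2 := by
    nlinarith
  rw [le_div_iff₀ hPh]
  calc pm μ f w0 * Ph ≤ pm μ f w0 * Phi μ W lam := mul_le_mul_of_nonneg_left hbig hpp.le
    _ ≤ Real.log 2 := h6

lemma H_eq_negMulLog {Ω : Type*} [Fintype Ω] {α : Type*} [DecidableEq α] (ν : Ω → ℝ) (f : Ω → α) :
    H ν f = ∑ a ∈ Finset.univ.image f, Real.negMulLog (∑ w, if f w = a then ν w else 0) := by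
  classical
  unfold H
  rw [← Finset.sum_fiberwise_of_maps_to (s := Finset.univ) (t := Finset.univ.image f) (g := f)
    (fun w _ => Finset.mem_image_of_mem _ (Finset.mem_univ _))]
  refine Finset.sum_congr rfl fun a _ => ?_
  have e1 : ∀ w ∈ Finset.univ.filter (fun w => f w = a), ν w * (-Real.log (pm ν f w)) =
      ν w * (-Real.log (∑ w, if f w = a then ν w else 0)) := by
    intro w hw
    have hw' : f w = a := (Finset.mem_filter.mp hw).2
    have : pm ν f w = ∑ w, if f w = a then ν w else 0 := by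
      unfold pm
      rw [hw']
      refine Finset.sum_congr rfl fun w1 _ => ?_
      congr
    rw [this]
  rw [Finset.sum_congr rfl e1, ← Finset.sum_mul, Finset.sum_filter]
  unfold Real.negMulLog
  ring

lemma H_cont {Ω : Type*} [Fintype Ω] {α : Type*} (f : Ω → α) :
    Continuous (fun ν : Ω → ℝ => H ν f) := by
  classical
  have : (fun ν : Ω → ℝ => H ν f) = fun ν =>
      ∑ a ∈ Finset.univ.image f, Real.negMulLog (∑ w, if f w = a then ν w else 0) := by
    funext ν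
    exact H_eq_negMulLog ν f
  rw [this]
  refine continuous_finset_sum _ fun a _ => ?_
  refine Real.continuous_negMulLog.comp ?_
  refine continuous_finset_sum _ fun w _ => ?_
  by_cases h : f w = a
  · simp only [if_pos h]
    exact continuous_apply w
  · simp only [if_neg h]
    exact continuous_const

lemma Phi_cont {Ω : Type*} [Fintype Ω] (W : Fin 3 → Ω → ℕ) (lam : ℝ) :
    Continuous (fun ν : Ω → ℝ => Phi ν W lam) := by
  unfold Phi
  refine (H_cont _).sub (continuous_const.mul ?_)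
  exact continuous_finset_sum _ fun i _ => H_cont (W i)

lemma sum_sub_eq {Ω : Type*} [Fintype Ω] (p : Ω → Prop) [DecidablePred p] [Fintype {w // p w}]
    (G : Ω → ℝ) (h : ∀ w, ¬ p w → G w = 0) : ∑ w, G w = ∑ w : {w // p w}, G w.1 := by
  classical
  have e1 : ∑ w ∈ Finset.univ.filter p, G w = ∑ w, G w := by
    rw [Finset.sum_filter]
    refine Finset.sum_congr rfl fun w _ => ?_
    by_cases hw : p w
    · rw [if_pos hw]
    · rw [if_neg hw, h w hw]
  rw [← e1]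
  exact Finset.sum_subtype _ (by simp) G

/-- if `ν` vanishes outside `p`, entropies can be computed on the subtype. -/
lemma H_restrict {Ω : Type*} [Fintype Ω] {α : Type*} (p : Ω → Prop) [DecidablePred p]
    [Fintype {w // p w}] (ν : Ω → ℝ) (h : ∀ w, ¬ p w → ν w = 0) (f : Ω → α) :
    H ν f = H (fun w : {w // p w} => ν w.1) (fun w : {w // p w} => f w.1) := by
  classical
  unfold H
  rw [sum_sub_eq p (fun w => ν w * (-Real.log (pm ν f w)))
    (fun w hw => by rw [h w hw, zero_mul])]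
  refine Finset.sum_congr rfl fun w _ => ?_
  congr 3
  unfold pm
  rw [sum_sub_eq p (fun w' => if f w' = f w.1 then ν w' else 0)
    (fun w' hw' => by rw [h w' hw']; simp)]

lemma H_id_restrict {Ω : Type*} [Fintype Ω] (p : Ω → Prop) [DecidablePred p]
    [Fintype {w // p w}] (ν : Ω → ℝ) (h : ∀ w, ¬ p w → ν w = 0) :
    H ν (fun w => w) = H (fun w : {w // p w} => ν w.1) (fun w : {w // p w} => w) := by
  rw [H_restrict p ν h]
  apply H_congr
  · intro ω ω' hh
    exact Subtype.ext hh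
  · intro ω ω' hh
    simp only at hh
    rw [hh]

lemma Phi_restrict {Ω : Type*} [Fintype Ω] (p : Ω → Prop) [DecidablePred p]
    [Fintype {w // p w}] (ν : Ω → ℝ) (h : ∀ w, ¬ p w → ν w = 0) (W : Fin 3 → Ω → ℕ) (lam : ℝ) :
    Phi ν W lam = Phi (fun w : {w // p w} => ν w.1) (fun i (w : {w // p w}) => W i w.1) lam := by
  unfold Phi
  rw [H_id_restrict p ν h]
  congr 2
  refine Finset.sum_congr rfl fun i _ => ?_
  exact H_restrict p ν h (W i)

/-- the maximiser -/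
lemma exists_max {Ω : Type*} [Fintype Ω] [Nonempty Ω] (V : Fin 3 → Ω → ℕ) (lam : ℝ) :
    ∃ ν : Ω → ℝ, (∀ w, 0 ≤ ν w) ∧ ∑ w, ν w = 1 ∧
      ∀ ν' : Ω → ℝ, (∀ w, 0 ≤ ν' w) → ∑ w, ν' w = 1 → Phi ν' V lam ≤ Phi ν V lam := by
  classical
  obtain ⟨w0⟩ := ‹Nonempty Ω›
  have hne : (stdSimplex ℝ Ω).Nonempty := ⟨_, single_mem_stdSimplex ℝ w0⟩
  obtain ⟨ν, hν, hmax⟩ := (isCompact_stdSimplex ℝ Ω).exists_isMaxOn hne
    (Phi_cont V lam).continuousOn
  exact ⟨ν, hν.1, hν.2, fun ν' h1 h2 => hmax ⟨h1, h2⟩⟩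

lemma Phi_unif {Ω : Type*} [Fintype Ω] [Nonempty Ω] (V : Fin 3 → Ω → ℕ) (lam : ℝ) (hlam : 0 ≤ lam)
    (N : ℕ) (hN : ∀ i w, V i w < N) :
    Real.log (Fintype.card Ω) - lam * (3 * Real.log N) ≤
      Phi (fun _ : Ω => (1 : ℝ) / Fintype.card Ω) V lam := by
  classical
  have hc : (0 : ℝ) < Fintype.card Ω := by exact_mod_cast Fintype.card_pos
  have hpos : ∀ w : Ω, (0 : ℝ) < (fun _ : Ω => (1 : ℝ) / Fintype.card Ω) w := fun w => by
    simp only
    positivity
  have hsum : ∑ w : Ω, (fun _ : Ω => (1 : ℝ) / Fintype.card Ω) w = 1 := by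
    simp only [Finset.sum_const, Finset.card_univ, nsmul_eq_mul]
    field_simp
  obtain ⟨w0⟩ := ‹Nonempty Ω›
  have hN0 : 0 < N := lt_of_le_of_lt (Nat.zero_le _) (hN 0 w0)
  have hid : H (fun _ : Ω => (1 : ℝ) / Fintype.card Ω) (fun w : Ω => w) =
      Real.log (Fintype.card Ω) := by
    unfold H
    have e : ∀ w : Ω, pm (fun _ : Ω => (1 : ℝ) / Fintype.card Ω) (fun w : Ω => w) w =
        1 / Fintype.card Ω := by
      intro w
      unfold pm
      rw [Finset.sum_eq_single w]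
      · simp
      · intro b _ hb
        rw [if_neg hb]
      · intro h
        exact absurd (Finset.mem_univ w) h
    rw [Finset.sum_congr rfl fun w _ => by rw [e w]]
    simp only [Finset.sum_const, Finset.card_univ, nsmul_eq_mul, one_div, Real.log_inv, neg_neg]
    field_simp
  have hV : ∀ i, H (fun _ : Ω => (1 : ℝ) / Fintype.card Ω) (V i) ≤ Real.log N := by
    intro i
    exact H_le_log hpos hsum (V i) N hN0 (Finset.range N) (by simp)
      (fun w => Finset.mem_range.mpr (hN i w))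
  unfold Phi
  rw [hid, Fin.sum_univ_three]
  have h3 : H (fun _ : Ω => (1 : ℝ) / Fintype.card Ω) (V 0) +
      H (fun _ : Ω => (1 : ℝ) / Fintype.card Ω) (V 1) +
      H (fun _ : Ω => (1 : ℝ) / Fintype.card Ω) (V 2) ≤ 3 * Real.log N := by
    linarith [hV 0, hV 1, hV 2]
  have := mul_le_mul_of_nonneg_left h3 hlam
  linarith

end var

/-- Variational step: maximiser of `H(p) - lam (H(W 0)+H(W 1)+H(W 2))`. -/
theorem variational (N : ℕ) (S : Finset (ℕ × ℕ × ℕ)) (hne : S.Nonempty)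
    (hN : ∀ s ∈ S, s.1 < N ∧ s.2.1 < N ∧ s.2.2 < N)
    (hcomp : ∀ s ∈ S, ∀ t ∈ S, s ≠ t →
        ((t.1 < s.1 ∧ t.2.1 < s.2.1) ∨ (t.1 < s.1 ∧ t.2.2 < s.2.2) ∨
         (t.2.1 < s.2.1 ∧ t.2.2 < s.2.2) ∨
         (s.1 < t.1 ∧ s.2.1 < t.2.1) ∨ (s.1 < t.1 ∧ s.2.2 < t.2.2) ∨
         (s.2.1 < t.2.1 ∧ s.2.2 < t.2.2)))
    (lam Ph : ℝ) (hlam : 1/2 ≤ lam) (hPh : 0 < Ph)
    (hbig : Ph ≤ Real.log S.card - lam * (3 * Real.log N)) :
    ∃ (Ω : Type) (_ : Fintype Ω) (μ : Ω → ℝ) (W : Fin 3 → Ω → ℕ),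
      (∀ ω, 0 < μ ω) ∧ (∑ ω, μ ω = 1) ∧
      (∀ i j, i ≠ j → ∀ ω ω', W i ω = W i ω' → W j ω = W j ω' → ω = ω') ∧
      (∀ i j k, i ≠ j → i ≠ k → ∀ ω ω', W i ω = W i ω' → W j ω < W j ω' → W k ω < W k ω') ∧
      (∀ (α : Type) (f : Ω → α),
        lam * ∑ i, (H μ f + H μ (W i) - H μ (fun ω => (f ω, W i ω))) ≤ H μ f) ∧
      (∀ i ω, pm μ (W i) ω ≤ Real.log 2 / Ph) := by
  classical
  obtain ⟨s0, hs0⟩ := hne
  haveI : Nonempty {s // s ∈ S} := ⟨⟨s0, hs0⟩⟩
  set V : Fin 3 → {s // s ∈ S} → ℕ :=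
    ![fun s => s.1.1, fun s => s.1.2.1, fun s => s.1.2.2] with hV
  have hV0 : ∀ s : {s // s ∈ S}, V 0 s = s.1.1 := fun s => rfl
  have hV1 : ∀ s : {s // s ∈ S}, V 1 s = s.1.2.1 := fun s => rfl
  have hV2 : ∀ s : {s // s ∈ S}, V 2 s = s.1.2.2 := fun s => rfl
  have hVN : ∀ i w, V i w < N := by
    intro i w
    have := hN w.1 w.2
    fin_cases i
    · exact this.1
    · exact this.2.1
    · exact this.2.2
  have hcomp' : ∀ s t : {s // s ∈ S}, s ≠ t →
        ((V 0 t < V 0 s ∧ V 1 t < V 1 s) ∨ (V 0 t < V 0 s ∧ V 2 t < V 2 s) ∨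
         (V 1 t < V 1 s ∧ V 2 t < V 2 s) ∨
         (V 0 s < V 0 t ∧ V 1 s < V 1 t) ∨ (V 0 s < V 0 t ∧ V 2 s < V 2 t) ∨
         (V 1 s < V 1 t ∧ V 2 s < V 2 t)) := by
    intro s t hst
    exact hcomp s.1 s.2 t.1 t.2 (fun h => hst (Subtype.ext h))
  have hinj : ∀ i j, i ≠ j → ∀ ω ω', V i ω = V i ω' → V j ω = V j ω' → ω = ω' := by
    intro i j hij ω ω' h1 h2
    by_contra hne
    have h3 := hcomp' ω ω' hne
    clear_value V
    fin_cases i <;> fin_cases j <;>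
      simp only [Fin.zero_eta, Fin.mk_one, Fin.reduceFinMk, ne_eq, not_true_eq_false] at hij h1 h2 <;>
      omega
  have hmono : ∀ i j k, i ≠ j → i ≠ k → ∀ ω ω', V i ω = V i ω' → V j ω < V j ω' →
      V k ω < V k ω' := by
    intro i j k hij hik ω ω' h1 h2
    have hne : ω ≠ ω' := by
      rintro rfl
      exact lt_irrefl _ h2
    have h3 := hcomp' ω ω' hne
    clear_value V
    fin_cases i <;> fin_cases j <;> fin_cases k <;>
      simp only [Fin.zero_eta, Fin.mk_one, Fin.reduceFinMk, ne_eq, not_true_eq_false] at hij hik h1 h2 ⊢ <;>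
      omega
  obtain ⟨ν, hν0, hν1, hνmax⟩ := exists_max V lam
  have hPhi : Ph ≤ Phi ν V lam := by
    have h1 := Phi_unif V lam (by linarith) N hVN
    have hc : Fintype.card {s // s ∈ S} = S.card := Fintype.card_coe S
    have hcp : (0 : ℝ) < Fintype.card {s // s ∈ S} := by exact_mod_cast Fintype.card_pos
    have h2 := hνmax (fun _ => (1 : ℝ) / Fintype.card {s // s ∈ S})
      (fun w => by positivity) (by
        simp only [Finset.sum_const, Finset.card_univ, nsmul_eq_mul]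
        field_simp)
    rw [hc] at h1 h2
    linarith
  have hp : ∀ w, ¬ (0 < ν w) → ν w = 0 := fun w hw => le_antisymm (not_lt.mp hw) (hν0 w)
  have hmax : ∀ μ' : {w // 0 < ν w} → ℝ, (∀ ω, 0 ≤ μ' ω) → ∑ ω, μ' ω = 1 →
      Phi μ' (fun i (w : {w // 0 < ν w}) => V i w.1) lam ≤
      Phi (fun w : {w // 0 < ν w} => ν w.1) (fun i (w : {w // 0 < ν w}) => V i w.1) lam := by
    intro μ' h0 h1
    set ν' : {s // s ∈ S} → ℝ := fun w => if h : 0 < ν w then μ' ⟨w, h⟩ else 0 with hν'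
    have hz : ∀ w, ¬ (0 < ν w) → ν' w = 0 := fun w hw => by simp [hν', hw]
    have hr : (fun w : {w // 0 < ν w} => ν' w.1) = μ' := by
      funext w
      simp [hν', w.2]
    have h2 := hνmax ν' (fun w => by
      by_cases hw : 0 < ν w
      · simp only [hν', dif_pos hw]; exact h0 _
      · rw [hz w hw]) (by
      rw [sum_sub_eq (fun w => 0 < ν w) ν' hz, ← h1]
      refine Finset.sum_congr rfl fun w _ => ?_
      exact congrFun hr w)
    rw [Phi_restrict (fun w => 0 < ν w) ν' hz, Phi_restrict (fun w => 0 < ν w) ν hp, hr] at h2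
    exact h2
  have hpos : ∀ w : {w // 0 < ν w}, 0 < (fun w : {w // 0 < ν w} => ν w.1) w := fun w => w.2
  have hsum : ∑ w : {w // 0 < ν w}, (fun w : {w // 0 < ν w} => ν w.1) w = 1 := by
    rw [← hν1, sum_sub_eq (fun w => 0 < ν w) ν hp]
  have hinj' : ∀ i j, i ≠ j → ∀ ω ω' : {w // 0 < ν w}, V i ω.1 = V i ω'.1 →
      V j ω.1 = V j ω'.1 → ω = ω' := fun i j hij ω ω' h1 h2 =>
    Subtype.ext (hinj i j hij ω.1 ω'.1 h1 h2)
  rw [Phi_restrict (fun w => 0 < ν w) ν hp] at hPhi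
  refine ⟨{w // 0 < ν w}, inferInstance, fun w => ν w.1, fun i w => V i w.1, hpos, hsum,
    hinj', fun i j k hij hik ω ω' h1 h2 => hmono i j k hij hik ω.1 ω'.1 h1 h2, ?_, ?_⟩
  · intro α f
    exact var_f (fun i (w : {w // 0 < ν w}) => V i w.1) lam hpos hsum hmax f
  · intro i ω
    exact var_atom (fun i (w : {w // 0 < ν w}) => V i w.1) lam Ph hlam hPh hpos hsum hinj' hmax
      hPhi i ω

end GoLo
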